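import Mathlib

/-!
# The `O(n)` loop model with a boundary path on the hexagonal lattice: definitions

The hexagonal lattice in brick wall coordinates: the vertices are the pairs of integers `(i, j)`; the
edges are `(i, j, false)`, which joins `(i, j)` and `(i + 1, j)`, and, for `i + j` even,
`(i, j, true)`, which joins `(i, j)` and `(i, j + 1)`; the hexagons are the bricks `(i, j)`, `i + j`
even, with the six vertices `(i, j)`, `(i + 1, j)`, `(i + 2, j)`, `(i, j + 1)`, `(i + 1, j + 1)`,
`(i + 2, j + 1)`.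
-/

set_option autoImplicit false

namespace Pool.Agent.V7H81.ON

/-- The vertices of the hexagonal lattice in brick wall coordinates. -/
abbrev Vtx := ℤ × ℤ

/-- The edges: `(i, j, false)` joins `(i, j)` and `(i + 1, j)`; `(i, j, true)` joins `(i, j)` and
`(i, j + 1)` (it is an edge of the hexagonal lattice if `i + j` is even). -/
abbrev Edg := ℤ × ℤ × Bool

/-- The first endpoint of an edge. -/
def src (e : Edg) : Vtx := (e.1, e.2.1)

/-- The second endpoint of an edge. -/
def tgt (e : Edg) : Vtx := if e.2.2 then (e.1, e.2.1 + 1) else (e.1 + 1, e.2.1)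

/-- The vertex `v` is an endpoint of the edge `e`. -/
def Inc (e : Edg) (v : Vtx) : Prop := v = src e ∨ v = tgt e

instance (e : Edg) (v : Vtx) : Decidable (Inc e v) := by unfold Inc; infer_instance

/-- The six edges of the hexagon with lower left vertex `h` (the sum of the coordinates of `h` is
even). -/
def hex (h : Vtx) : Finset Edg :=
  {(h.1, h.2, false), (h.1 + 1, h.2, false), (h.1, h.2 + 1, false), (h.1 + 1, h.2 + 1, false),
    (h.1, h.2, true), (h.1 + 2, h.2, true)}

/-- The six vertices of the hexagon `h`. -/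
def hexV (h : Vtx) : Finset Vtx :=
  {(h.1, h.2), (h.1 + 1, h.2), (h.1 + 2, h.2), (h.1, h.2 + 1), (h.1 + 1, h.2 + 1),
    (h.1 + 2, h.2 + 1)}

/-- The edges of the domain which consists of the hexagons in `D`. -/
def edges (D : Finset Vtx) : Finset Edg := D.biUnion hex

/-- The degree of the vertex `v` in the configuration `ω`. -/
def deg (ω : Finset Edg) (v : Vtx) : ℕ := (ω.filter fun e => Inc e v).card

open Classical in
/-- The configurations of the domain `D` with a path from `a` to `b`: the sets of edges such that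
every vertex has degree `0` or `2`, except `a` and `b`, which have degree `1`. -/
noncomputable def Conf (D : Finset Vtx) (a b : Vtx) : Finset (Finset Edg) :=
  (edges D).powerset.filter fun ω =>
    ∀ v, if v = a ∨ v = b then deg ω v = 1 else deg ω v = 0 ∨ deg ω v = 2

/-- Two vertices are joined by an edge of `ω` (or equal and on an edge of `ω`). -/
def Adj (ω : Finset Edg) (u v : Vtx) : Prop := ∃ e ∈ ω, Inc e u ∧ Inc e v

/-- Two vertices are in the same connected component of the configuration. -/
def Conn (ω : Finset Edg) (u v : Vtx) : Prop := Relation.ReflTransGen (Adj ω) u v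

open Classical in
/-- The path of the configuration: the set of the edges in the component of `a`. -/
noncomputable def path (a : Vtx) (ω : Finset Edg) : Finset Edg :=
  ω.filter fun e => Conn ω a (src e)

/-- The number of loops of the configuration: the number of the connected components with at
least one edge which do not contain `a`. -/
noncomputable def loops (a : Vtx) (ω : Finset Edg) : ℕ :=
  Set.ncard {S : Set Vtx | ∃ v, (∃ e ∈ ω, Inc e v) ∧ ¬ Conn ω a v ∧ S = {w | Conn ω v w}}

/-- The weight `x ^ (number of edges) * n ^ (number of loops)`. -/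
noncomputable def weight (n x : ℝ) (a : Vtx) (ω : Finset Edg) : ℝ :=
  x ^ ω.card * n ^ loops a ω

/-- The partition function. -/
noncomputable def Z (n x : ℝ) (D : Finset Vtx) (a b : Vtx) : ℝ :=
  ∑ ω ∈ Conf D a b, weight n x a ω

/-- The mean value of `f`. -/
noncomputable def mean (n x : ℝ) (D : Finset Vtx) (a b : Vtx) (f : Finset Edg → ℝ) : ℝ :=
  (∑ ω ∈ Conf D a b, weight n x a ω * f ω) / Z n x D a b

/-! ### Basic lemmas -/

theorem mem_hex (h : Vtx) (e : Edg) : e ∈ hex h ↔
    (e.2.2 = false ∧ (e.1 = h.1 ∨ e.1 = h.1 + 1) ∧ (e.2.1 = h.2 ∨ e.2.1 = h.2 + 1)) ∨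
    (e.2.2 = true ∧ (e.1 = h.1 ∨ e.1 = h.1 + 2) ∧ e.2.1 = h.2) := by
  obtain ⟨i, j, d⟩ := e
  simp only [hex, Finset.mem_insert, Finset.mem_singleton, Prod.mk.injEq]
  cases d <;> simp <;> tauto

theorem mem_hexV (h v : Vtx) : v ∈ hexV h ↔
    (v.1 = h.1 ∨ v.1 = h.1 + 1 ∨ v.1 = h.1 + 2) ∧ (v.2 = h.2 ∨ v.2 = h.2 + 1) := by
  obtain ⟨i, j⟩ := v
  simp only [hexV, Finset.mem_insert, Finset.mem_singleton, Prod.mk.injEq]
  tauto

theorem inc_iff (e : Edg) (v : Vtx) : Inc e v ↔
    (v.1 = e.1 ∧ v.2 = e.2.1) ∨ (e.2.2 = true ∧ v.1 = e.1 ∧ v.2 = e.2.1 + 1) ∨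
      (e.2.2 = false ∧ v.1 = e.1 + 1 ∧ v.2 = e.2.1) := by
  obtain ⟨i, j, d⟩ := e
  obtain ⟨k, l⟩ := v
  cases d <;> simp [Inc, src, tgt]

theorem src_inc (e : Edg) : Inc e (src e) := Or.inl rfl

theorem tgt_inc (e : Edg) : Inc e (tgt e) := Or.inr rfl

theorem card_hex (h : Vtx) : (hex h).card = 6 := by
  obtain ⟨i, j⟩ := h
  unfold hex
  rw [Finset.card_insert_of_notMem, Finset.card_insert_of_notMem, Finset.card_insert_of_notMem,
    Finset.card_insert_of_notMem, Finset.card_insert_of_notMem, Finset.card_singleton]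
  all_goals
    simp [Prod.ext_iff]

theorem inc_hexV {h : Vtx} {e : Edg} (he : e ∈ hex h) {v : Vtx} (hv : Inc e v) : v ∈ hexV h := by
  rw [mem_hex] at he
  rw [inc_iff] at hv
  rw [mem_hexV]
  obtain ⟨i, j, d⟩ := e
  cases d <;> simp at he hv <;> omega

section conn

variable {ω : Finset Edg} {u v w : Vtx}

theorem Adj.symm (h : Adj ω u v) : Adj ω v u := by
  obtain ⟨e, he, h1, h2⟩ := h
  exact ⟨e, he, h2, h1⟩

theorem Conn.refl (ω : Finset Edg) (v : Vtx) : Conn ω v v := Relation.ReflTransGen.refl

theorem Conn.symm (h : Conn ω u v) : Conn ω v u := by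
  induction h with
  | refl => exact Conn.refl _ _
  | tail _ h2 ih => exact Relation.ReflTransGen.head h2.symm ih

theorem Conn.trans (h : Conn ω u v) (h' : Conn ω v w) : Conn ω u w :=
  Relation.ReflTransGen.trans h h'

theorem Conn.edge {e : Edg} (he : e ∈ ω) (h1 : Inc e u) (h2 : Inc e v) : Conn ω u v :=
  Relation.ReflTransGen.single ⟨e, he, h1, h2⟩

/-- a vertex without an edge is only connected with itself -/
theorem Conn.eq_of_isolated (h : Conn ω u v) (hu : ∀ e ∈ ω, ¬ Inc e u) : v = u := by
  induction h with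
  | refl => rfl
  | tail _ h2 ih =>
    obtain ⟨e, he, h3, _⟩ := h2
    rw [ih] at h3
    exact absurd h3 (hu e he)

end conn

end Pool.Agent.V7H81.ON
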