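import Mathlib
import Pool.Agent.V7H81.ON.Defs

/-! Flipping a hexagon preserves the degree conditions. -/

set_option autoImplicit false

namespace Pool.Agent.V7H81.ON

open Finset

/-- right edge at a vertex -/
def e1 (v : Vtx) : Edg := (v.1, v.2, false)
/-- left edge at a vertex -/
def e2 (v : Vtx) : Edg := (v.1 - 1, v.2, false)
/-- vertical edge at a vertex -/
def e3 (v : Vtx) : Edg := if Even (v.1 + v.2) then (v.1, v.2, true) else (v.1, v.2 - 1, true)

/-- the edges of the hexagonal lattice -/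
def Valid (ω : Finset Edg) : Prop := ∀ e ∈ ω, e.2.2 = true → Even (e.1 + e.2.1)

/-- all hexagons of the domain are hexagons of the lattice -/
def EvenD (D : Finset Vtx) : Prop := ∀ h ∈ D, Even (h.1 + h.2)

theorem e1_inc (v : Vtx) : Inc (e1 v) v := Or.inl rfl

theorem e2_inc (v : Vtx) : Inc (e2 v) v := by
  rw [inc_iff]; simp [e2]

theorem e3_inc (v : Vtx) : Inc (e3 v) v := by
  rw [inc_iff]
  unfold e3
  split_ifs <;> simp

theorem inc_cases {e : Edg} (he : e.2.2 = true → Even (e.1 + e.2.1)) {v : Vtx} (h : Inc e v) :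
    e = e1 v ∨ e = e2 v ∨ e = e3 v := by
  obtain ⟨i, j, d⟩ := e
  obtain ⟨k, l⟩ := v
  rw [inc_iff] at h
  cases d
  · simp at h
    rcases h with ⟨h1, h2⟩ | ⟨h1, h2⟩
    · left; simp [e1, h1, h2]
    · right; left; simp [e2, h1, h2]
  · simp at h he
    right; right
    rcases h with ⟨h1, h2⟩ | ⟨h1, h2⟩
    · subst h1 h2
      simp [e3, he]
    · subst h1 h2
      have : ¬ Even (k + (j + 1)) := by
        rw [← add_assoc, Int.even_add_one]
        simpa using he
      simp [e3, this]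

theorem e1_ne_e2 (v : Vtx) : e1 v ≠ e2 v := by
  simp only [e1, e2, ne_eq, Prod.mk.injEq, and_true]
  omega

theorem e1_ne_e3 (v : Vtx) : e1 v ≠ e3 v := by
  unfold e1 e3; split_ifs <;> simp [Prod.ext_iff]

theorem e2_ne_e3 (v : Vtx) : e2 v ≠ e3 v := by
  unfold e2 e3; split_ifs <;> simp [Prod.ext_iff]

/-- the indicator of an edge -/
def ind (ω : Finset Edg) (e : Edg) : ℕ := if e ∈ ω then 1 else 0

theorem deg_eq {ω : Finset Edg} (hω : Valid ω) (v : Vtx) :
    deg ω v = ind ω (e1 v) + ind ω (e2 v) + ind ω (e3 v) := by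
  unfold deg
  have : (ω.filter fun e => Inc e v) = ({e1 v, e2 v, e3 v} : Finset Edg).filter (fun e => e ∈ ω) := by
    ext e
    simp only [mem_filter, mem_insert, mem_singleton]
    constructor
    · rintro ⟨h1, h2⟩
      exact ⟨inc_cases (hω e h1) h2, h1⟩
    · rintro ⟨h1, h2⟩
      refine ⟨h2, ?_⟩
      rcases h1 with rfl | rfl | rfl
      · exact e1_inc v
      · exact e2_inc v
      · exact e3_inc v
  rw [this, card_filter, sum_insert, sum_insert, sum_singleton]
  · unfold ind; ring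
  · simpa using e2_ne_e3 v
  · simpa using ⟨e1_ne_e2 v, e1_ne_e3 v⟩

/-- flipping a hexagon -/
def fl (h : Vtx) (ω : Finset Edg) : Finset Edg := symmDiff ω (hex h)

theorem mem_fl {h : Vtx} {ω : Finset Edg} {e : Edg} :
    e ∈ fl h ω ↔ (e ∈ ω ∧ e ∉ hex h) ∨ (e ∈ hex h ∧ e ∉ ω) := by
  unfold fl
  rw [Finset.mem_symmDiff]

theorem fl_fl (h : Vtx) (ω : Finset Edg) : fl h (fl h ω) = ω := by
  unfold fl
  rw [symmDiff_assoc, symmDiff_self]
  simp

theorem valid_hex {h : Vtx} (hh : Even (h.1 + h.2)) : Valid (hex h) := by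
  intro e he h2
  rw [mem_hex] at he
  rw [Int.even_iff] at hh ⊢
  obtain ⟨i, j, d⟩ := e
  simp at h2
  subst h2
  simp at he
  rcases he with ⟨h1 | h1, h3⟩ <;> simp only [h1, h3] <;> omega

theorem hex_deg {h : Vtx} (hh : Even (h.1 + h.2)) (v : Vtx) :
    ind (hex h) (e1 v) + ind (hex h) (e2 v) + ind (hex h) (e3 v) = if v ∈ hexV h then 2 else 0 := by
  obtain ⟨i, j⟩ := h
  obtain ⟨k, l⟩ := v
  simp only [Int.even_iff] at hh
  unfold ind
  simp only [mem_hex, mem_hexV, e1, e2, e3]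
  by_cases hp : Even (k + l)
  · rw [if_pos hp]
    rw [Int.even_iff] at hp
    simp only [true_and, false_and, or_false, false_or, reduceCtorEq]
    split_ifs <;> omega
  · rw [if_neg hp]
    rw [Int.even_iff] at hp
    simp only [true_and, false_and, or_false, false_or, reduceCtorEq]
    split_ifs <;> omega

theorem Valid.fl {ω : Finset Edg} (hω : Valid ω) {h : Vtx} (hh : Even (h.1 + h.2)) :
    Valid (fl h ω) := by
  intro e he h2
  rw [mem_fl] at he
  rcases he with ⟨h3, _⟩ | ⟨h3, _⟩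
  · exact hω e h3 h2
  · exact valid_hex hh e h3 h2

theorem deg_fl {ω : Finset Edg} (hω : Valid ω) {h : Vtx} (hh : Even (h.1 + h.2)) (v : Vtx) :
    (v ∉ hexV h → deg (fl h ω) v = deg ω v) ∧
    (v ∈ hexV h → (deg ω v = 0 ∨ deg ω v = 2) → (deg (fl h ω) v = 0 ∨ deg (fl h ω) v = 2)) := by
  rw [deg_eq (hω.fl hh), deg_eq hω]
  have h1 := hex_deg hh v
  have key : ∀ e, ind (fl h ω) e = if e ∈ hex h then 1 - ind ω e else ind ω e := by
    intro e
    unfold ind
    simp only [mem_fl]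
    by_cases h1 : e ∈ hex h <;> by_cases h2 : e ∈ ω <;> simp [h1, h2]
  rw [key, key, key]
  unfold ind at h1 ⊢
  constructor
  · intro hv
    rw [if_neg hv] at h1
    have a1 : e1 v ∉ hex h := by intro h2; simp [h2] at h1
    have a2 : e2 v ∉ hex h := by intro h2; simp [h2] at h1
    have a3 : e3 v ∉ hex h := by intro h2; simp [h2] at h1
    simp [a1, a2, a3]
  · intro hv
    rw [if_pos hv] at h1
    by_cases a1 : e1 v ∈ hex h <;> by_cases a2 : e2 v ∈ hex h <;> by_cases a3 : e3 v ∈ hex h <;>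
      by_cases b1 : e1 v ∈ ω <;> by_cases b2 : e2 v ∈ ω <;> by_cases b3 : e3 v ∈ ω <;>
      simp [a1, a2, a3, b1, b2, b3] at h1 ⊢

theorem valid_edges {D : Finset Vtx} (hD : EvenD D) : Valid (edges D) := by
  intro e he h2
  unfold edges at he
  rw [mem_biUnion] at he
  obtain ⟨h, hh, h3⟩ := he
  exact valid_hex (hD h hh) e h3 h2

theorem Valid.mono {ω ω' : Finset Edg} (h : Valid ω') (hs : ω ⊆ ω') : Valid ω :=
  fun e he => h e (hs he)

theorem mem_Conf {D : Finset Vtx} {a b : Vtx} {ω : Finset Edg} : ω ∈ Conf D a b ↔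
    ω ⊆ edges D ∧ ∀ v, if v = a ∨ v = b then deg ω v = 1 else deg ω v = 0 ∨ deg ω v = 2 := by
  classical
  unfold Conf
  rw [mem_filter, mem_powerset]

theorem Conf.valid {D : Finset Vtx} (hD : EvenD D) {a b : Vtx} {ω : Finset Edg}
    (h : ω ∈ Conf D a b) : Valid ω :=
  (valid_edges hD).mono (mem_Conf.1 h).1

theorem Conf.deg_eq {D : Finset Vtx} {a b : Vtx} {ω : Finset Edg}
    (h : ω ∈ Conf D a b) {v : Vtx} (ha : v ≠ a) (hb : v ≠ b) : deg ω v = 0 ∨ deg ω v = 2 := by
  have := (mem_Conf.1 h).2 v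
  rwa [if_neg (by simp [ha, hb])] at this

theorem Conf.fl {D : Finset Vtx} (hD : EvenD D) {a b : Vtx} {ω : Finset Edg}
    (hω : ω ∈ Conf D a b) {h : Vtx} (hh : h ∈ D) (ha : a ∉ hexV h) (hb : b ∉ hexV h) :
    fl h ω ∈ Conf D a b := by
  have hv := Conf.valid hD hω
  rw [mem_Conf] at hω ⊢
  refine ⟨?_, ?_⟩
  · intro e he
    rw [mem_fl] at he
    rcases he with ⟨h1, _⟩ | ⟨h1, _⟩
    · exact hω.1 h1
    · exact mem_biUnion.2 ⟨h, hh, h1⟩
  · intro v
    have h1 := hω.2 v
    have h2 := deg_fl hv (hD h hh) v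
    by_cases hv' : v ∈ hexV h
    · have hab : ¬ (v = a ∨ v = b) := by
        rintro (rfl | rfl)
        · exact ha hv'
        · exact hb hv'
      rw [if_neg hab] at h1 ⊢
      exact h2.2 hv' h1
    · rw [h2.1 hv']
      exact h1

end Pool.Agent.V7H81.ON
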