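import Mathlib
import Pool.Agent.V7H81.ON.Flip

/-! Local changes of a configuration. -/

set_option autoImplicit false

namespace Pool.Agent.V7H81.ON

open Finset

/-- the configurations agree except for edges with both endpoints in `P` -/
def Agree (P : Finset Vtx) (ω ω' : Finset Edg) : Prop :=
  ∀ e, ¬ (src e ∈ P ∧ tgt e ∈ P) → (e ∈ ω ↔ e ∈ ω')

theorem Agree.refl (P : Finset Vtx) (ω : Finset Edg) : Agree P ω ω := fun _ _ => Iff.rfl

theorem Agree.symm {P : Finset Vtx} {ω ω' : Finset Edg} (h : Agree P ω ω') : Agree P ω' ω :=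
  fun e he => (h e he).symm

theorem Agree.trans {P : Finset Vtx} {ω ω' ω'' : Finset Edg} (h : Agree P ω ω')
    (h' : Agree P ω' ω'') : Agree P ω ω'' :=
  fun e he => (h e he).trans (h' e he)

theorem Agree.fl {P : Finset Vtx} {h : Vtx} (hP : hexV h ⊆ P) (ω : Finset Edg) :
    Agree P ω (fl h ω) := by
  intro e he
  have h1 : e ∉ hex h := by
    intro h2
    exact he ⟨hP (inc_hexV h2 (src_inc e)), hP (inc_hexV h2 (tgt_inc e))⟩
  rw [mem_fl]
  tauto

theorem Agree.mem {P : Finset Vtx} {ω ω' : Finset Edg} (h : Agree P ω ω') {e : Edg} (he : e ∈ ω)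
    {v : Vtx} (hv : Inc e v) (hvP : v ∉ P) : e ∈ ω' := by
  refine (h e ?_).1 he
  rintro ⟨h1, h2⟩
  rcases hv with rfl | rfl
  · exact hvP h1
  · exact hvP h2

theorem conn_of_disjoint {P : Finset Vtx} {ω ω' : Finset Edg} (h : Agree P ω ω') {v : Vtx}
    (hv : ∀ w, Conn ω v w → w ∉ P) {w : Vtx} : Conn ω v w ↔ Conn ω' v w := by
  constructor
  · intro hw
    induction hw with
    | refl => exact Conn.refl _ _
    | tail h1 h2 ih =>
      obtain ⟨e, he, h3, h4⟩ := h2
      exact ih.trans (Conn.edge (h.mem he h3 (hv _ h1)) h3 h4)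
  · intro hw
    induction hw with
    | refl => exact Conn.refl _ _
    | tail h1 h2 ih =>
      obtain ⟨e, he, h3, h4⟩ := h2
      exact ih.trans (Conn.edge (h.symm.mem he h3 (hv _ ih)) h3 h4)

/-- the set of the loops -/
def LoopSet (a : Vtx) (ω : Finset Edg) : Set (Set Vtx) :=
  {S : Set Vtx | ∃ v, (∃ e ∈ ω, Inc e v) ∧ ¬ Conn ω a v ∧ S = {w | Conn ω v w}}

theorem loops_eq (a : Vtx) (ω : Finset Edg) : loops a ω = (LoopSet a ω).ncard := rfl

theorem class_eq {ω : Finset Edg} {v w : Vtx} (h : Conn ω v w) :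
    {z | Conn ω v z} = {z | Conn ω w z} := by
  ext z
  exact ⟨fun h1 => h.symm.trans h1, fun h1 => h.trans h1⟩

theorem LoopSet_finite (a : Vtx) (ω : Finset Edg) : (LoopSet a ω).Finite := by
  refine ((ω.finite_toSet).image (fun e => {w | Conn ω (src e) w})).subset ?_
  rintro S ⟨v, ⟨e, he, h1⟩, -, rfl⟩
  refine ⟨e, he, ?_⟩
  exact class_eq (Conn.edge he (src_inc e) h1)

theorem loops_le {P : Finset Vtx} {ω ω' : Finset Edg} (h : Agree P ω ω') (a : Vtx) :
    loops a ω ≤ loops a ω' + P.card := by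
  classical
  rw [loops_eq, loops_eq]
  have hsub : LoopSet a ω ⊆ LoopSet a ω' ∪ ((P.image fun p => {w | Conn ω p w} : Finset (Set Vtx)) : Set (Set Vtx)) := by
    rintro S ⟨v, ⟨e, he, h1⟩, h2, rfl⟩
    by_cases hd : ∀ w, Conn ω v w → w ∉ P
    · left
      have hv := hd v (Conn.refl _ _)
      refine ⟨v, ⟨e, h.mem he h1 hv, h1⟩, ?_, ?_⟩
      · intro h3
        exact h2 ((conn_of_disjoint h hd).2 h3.symm).symm
      · ext w
        exact conn_of_disjoint h hd
    · right
      push Not at hd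
      obtain ⟨p, hp, hpP⟩ := hd
      simp only [coe_image, Set.mem_image, mem_coe]
      exact ⟨p, hpP, (class_eq hp).symm⟩
  calc (LoopSet a ω).ncard ≤ (LoopSet a ω' ∪
        ((P.image fun p => {w | Conn ω p w} : Finset (Set Vtx)) : Set (Set Vtx))).ncard :=
        Set.ncard_le_ncard hsub ((LoopSet_finite a ω').union (Finset.finite_toSet _))
    _ ≤ (LoopSet a ω').ncard +
        ((P.image fun p => {w | Conn ω p w} : Finset (Set Vtx)) : Set (Set Vtx)).ncard :=
        Set.ncard_union_le _ _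
    _ ≤ (LoopSet a ω').ncard + P.card := by
        rw [Set.ncard_coe_finset]
        exact Nat.add_le_add_left card_image_le _

theorem Conn.mono {ω ω' : Finset Edg} (h : ω ⊆ ω') {u v : Vtx} (hc : Conn ω u v) :
    Conn ω' u v := by
  induction hc with
  | refl => exact Conn.refl _ _
  | tail _ h2 ih =>
    obtain ⟨e, he, h3, h4⟩ := h2
    exact ih.trans (Conn.edge (h he) h3 h4)

/-- the first edge of the component of `a` which enters `P` -/
theorem first_touch {P : Finset Vtx} {ω : Finset Edg} {a : Vtx} (ha : a ∉ P) {v : Vtx}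
    (hv : v ∈ P) (h : Conn ω a v) :
    ∃ p0 p : Vtx, ∃ e ∈ ω, p0 ∉ P ∧ p ∈ P ∧ Inc e p0 ∧ Inc e p ∧
      ∀ ω', Agree P ω ω' → Conn ω' a p0 := by
  have key : ∀ w, Conn ω a w → ((∀ ω', Agree P ω ω' → Conn ω' a w) ∧ w ∉ P) ∨
      ∃ p0 p : Vtx, ∃ e ∈ ω, p0 ∉ P ∧ p ∈ P ∧ Inc e p0 ∧ Inc e p ∧
        ∀ ω', Agree P ω ω' → Conn ω' a p0 := by
    intro w hw
    induction hw with
    | refl => exact Or.inl ⟨fun _ _ => Conn.refl _ _, ha⟩
    | @tail y z h1 h2 ih =>
      rcases ih with ⟨h3, h4⟩ | h3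
      · obtain ⟨e, he, h5, h6⟩ := h2
        by_cases hz : z ∈ P
        · exact Or.inr ⟨y, z, e, he, h4, hz, h5, h6, h3⟩
        · exact Or.inl ⟨fun ω' hω' => (h3 ω' hω').trans
            (Conn.edge (hω'.mem he h5 h4) h5 h6), hz⟩
      · exact Or.inr h3
  rcases key v h with ⟨-, h1⟩ | h1
  · exact absurd hv h1
  · exact h1

end Pool.Agent.V7H81.ON
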