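import Mathlib
import Pool.Agent.V7H81.ON.Local

/-! Switching the path at a hexagon which it meets in one edge, or in five edges. -/

set_option autoImplicit false

namespace Pool.Agent.V7H81.ON

open Finset

/-- the path meets the hexagon in one edge -/
def On (h a : Vtx) (ω : Finset Edg) : Prop :=
  ∃ f, ω ∩ hex h = {f} ∧ Conn ω a (src f)

/-- the path meets the hexagon in five edges -/
def Fi (h a : Vtx) (ω : Finset Edg) : Prop :=
  ∃ f ∈ hex h, ω ∩ hex h = (hex h).erase f ∧ Conn ω a (src f)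

/-- the local hypotheses -/
structure Loc (h a : Vtx) (ω : Finset Edg) : Prop where
  even : Even (h.1 + h.2)
  valid : Valid ω
  deg : ∀ v ∈ hexV h, deg ω v = 0 ∨ deg ω v = 2
  a_notMem : a ∉ hexV h

theorem Loc.fl {h a : Vtx} {ω : Finset Edg} (H : Loc h a ω) : Loc h a (fl h ω) where
  even := H.even
  valid := H.valid.fl H.even
  deg := fun v hv => (deg_fl H.valid H.even v).2 hv (H.deg v hv)
  a_notMem := H.a_notMem

theorem inter_fl (h : Vtx) (ω : Finset Edg) : fl h ω ∩ hex h = hex h \ (ω ∩ hex h) := by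
  ext e
  simp only [mem_inter, mem_fl, mem_sdiff]
  tauto

section
variable {h a : Vtx} {ω : Finset Edg} {f : Edg}

theorem mem_of_inter (hf : ω ∩ hex h = {f}) : f ∈ ω ∧ f ∈ hex h := by
  have : f ∈ ω ∩ hex h := by rw [hf]; simp
  exact mem_inter.1 this

theorem eq_of_inter (hf : ω ∩ hex h = {f}) {e : Edg} (h1 : e ∈ ω) (h2 : e ∈ hex h) : e = f := by
  have : e ∈ ω ∩ hex h := mem_inter.2 ⟨h1, h2⟩
  rw [hf] at this
  exact mem_singleton.1 this

theorem isolated (H : Loc h a ω) (hf : ω ∩ hex h = {f}) {v : Vtx} (hv : v ∈ hexV h)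
    (hvf : ¬ Inc f v) : ∀ e ∈ ω, ¬ Inc e v := by
  intro e he hev
  have h1 := H.deg v hv
  have h2 := hex_deg H.even v
  rw [if_pos hv] at h2
  have h3 := deg_eq H.valid v
  have hno : ∀ g, Inc g v → g ∈ hex h → g ∉ ω := by
    intro g hg hgh hgω
    exact hvf (eq_of_inter hf hgω hgh ▸ hg)
  have h4 : 0 < deg ω v := by
    unfold deg
    exact card_pos.2 ⟨e, mem_filter.2 ⟨he, hev⟩⟩
  have b1 := hno (e1 v) (e1_inc v)
  have b2 := hno (e2 v) (e2_inc v)
  have b3 := hno (e3 v) (e3_inc v)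
  unfold ind at h2 h3
  by_cases c1 : e1 v ∈ hex h <;> by_cases c2 : e2 v ∈ hex h <;> by_cases c3 : e3 v ∈ hex h <;>
    simp [c1, c2, c3] at h2 b1 b2 b3
  · simp [b1, b2] at h3
    split_ifs at h3 <;> omega
  · simp [b1, b3] at h3
    split_ifs at h3 <;> omega
  · simp [b2, b3] at h3
    split_ifs at h3 <;> omega

theorem six {q0 q1 q2 q3 q4 q5 r0 r1 r2 r3 r4 r5 : Prop} (h0 : q0) (k0 : r0 → (q0 ↔ q1))
    (k1 : r1 → (q1 ↔ q2)) (k2 : r2 → (q2 ↔ q3)) (k3 : r3 → (q3 ↔ q4)) (k4 : r4 → (q4 ↔ q5))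
    (k5 : r5 → (q5 ↔ q0)) (hr : (r1 ∧ r2 ∧ r3 ∧ r4 ∧ r5) ∨ (r0 ∧ r2 ∧ r3 ∧ r4 ∧ r5) ∨
      (r0 ∧ r1 ∧ r3 ∧ r4 ∧ r5) ∨ (r0 ∧ r1 ∧ r2 ∧ r4 ∧ r5) ∨ (r0 ∧ r1 ∧ r2 ∧ r3 ∧ r5) ∨
      (r0 ∧ r1 ∧ r2 ∧ r3 ∧ r4)) : q1 ∧ q2 ∧ q3 ∧ q4 ∧ q5 := by
  rcases hr with ⟨a1, a2, a3, a4, a5⟩ | ⟨a0, a2, a3, a4, a5⟩ | ⟨a0, a1, a3, a4, a5⟩ |
    ⟨a0, a1, a2, a4, a5⟩ | ⟨a0, a1, a2, a3, a5⟩ | ⟨a0, a1, a2, a3, a4⟩
  · have p5 := (k5 a5).2 h0
    have p4 := (k4 a4).2 p5
    have p3 := (k3 a3).2 p4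
    have p2 := (k2 a2).2 p3
    exact ⟨(k1 a1).2 p2, p2, p3, p4, p5⟩
  · have p5 := (k5 a5).2 h0
    have p4 := (k4 a4).2 p5
    have p3 := (k3 a3).2 p4
    exact ⟨(k0 a0).1 h0, (k2 a2).2 p3, p3, p4, p5⟩
  · have p5 := (k5 a5).2 h0
    have p4 := (k4 a4).2 p5
    have p1 := (k0 a0).1 h0
    exact ⟨p1, (k1 a1).1 p1, (k3 a3).2 p4, p4, p5⟩
  · have p5 := (k5 a5).2 h0
    have p1 := (k0 a0).1 h0
    have p2 := (k1 a1).1 p1
    exact ⟨p1, p2, (k2 a2).1 p2, (k4 a4).2 p5, p5⟩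
  · have p1 := (k0 a0).1 h0
    have p2 := (k1 a1).1 p1
    have p3 := (k2 a2).1 p2
    exact ⟨p1, p2, p3, (k3 a3).1 p3, (k5 a5).2 h0⟩
  · have p1 := (k0 a0).1 h0
    have p2 := (k1 a1).1 p1
    have p3 := (k2 a2).1 p2
    have p4 := (k3 a3).1 p3
    exact ⟨p1, p2, p3, p4, (k4 a4).1 p4⟩

/-- the other five edges of the hexagon join all its vertices -/
theorem conn_hex {ω' : Finset Edg} (hω' : ∀ e ∈ hex h, e ≠ f → e ∈ ω') (hf : f ∈ hex h)
    {u v : Vtx} (hu : u ∈ hexV h) (hv : v ∈ hexV h) : Conn ω' u v := by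
  obtain ⟨i, j⟩ := h
  have hall : ∀ w ∈ hexV (i, j), Conn ω' (i, j) w := by
    have q0 : Conn ω' (i, j) (i, j) := Conn.refl _ _
    have key : ∀ (e : Edg) (x y : Vtx), e ∈ hex (i, j) → Inc e x → Inc e y → e ≠ f →
        (Conn ω' (i, j) x ↔ Conn ω' (i, j) y) := by
      intro e x y he hx hy hne
      have := Conn.edge (hω' e he hne) hx hy
      exact ⟨fun h => h.trans this, fun h => h.trans this.symm⟩
    have k0 := key (i, j, false) (i, j) (i + 1, j) (by simp [hex]) (by simp [inc_iff])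
      (by simp [inc_iff])
    have k1 := key (i + 1, j, false) (i + 1, j) (i + 2, j) (by simp [hex]) (by simp [inc_iff])
      (by simp [inc_iff]; ring)
    have k2 := key (i + 2, j, true) (i + 2, j) (i + 2, j + 1) (by simp [hex]) (by simp [inc_iff])
      (by simp [inc_iff])
    have k3 := key (i + 1, j + 1, false) (i + 2, j + 1) (i + 1, j + 1) (by simp [hex])
      (by simp [inc_iff]; ring) (by simp [inc_iff])
    have k4 := key (i, j + 1, false) (i + 1, j + 1) (i, j + 1) (by simp [hex])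
      (by simp [inc_iff]) (by simp [inc_iff])
    have k5 := key (i, j, true) (i, j + 1) (i, j) (by simp [hex])
      (by simp [inc_iff]) (by simp [inc_iff])
    have hr : ((((i + 1, j, false) : Edg) ≠ f ∧ ((i + 2, j, true) : Edg) ≠ f ∧
        ((i + 1, j + 1, false) : Edg) ≠ f ∧ ((i, j + 1, false) : Edg) ≠ f ∧
        ((i, j, true) : Edg) ≠ f) ∨
      (((i, j, false) : Edg) ≠ f ∧ ((i + 2, j, true) : Edg) ≠ f ∧
        ((i + 1, j + 1, false) : Edg) ≠ f ∧ ((i, j + 1, false) : Edg) ≠ f ∧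
        ((i, j, true) : Edg) ≠ f) ∨
      (((i, j, false) : Edg) ≠ f ∧ ((i + 1, j, false) : Edg) ≠ f ∧
        ((i + 1, j + 1, false) : Edg) ≠ f ∧ ((i, j + 1, false) : Edg) ≠ f ∧
        ((i, j, true) : Edg) ≠ f) ∨
      (((i, j, false) : Edg) ≠ f ∧ ((i + 1, j, false) : Edg) ≠ f ∧
        ((i + 2, j, true) : Edg) ≠ f ∧ ((i, j + 1, false) : Edg) ≠ f ∧
        ((i, j, true) : Edg) ≠ f) ∨
      (((i, j, false) : Edg) ≠ f ∧ ((i + 1, j, false) : Edg) ≠ f ∧
        ((i + 2, j, true) : Edg) ≠ f ∧ ((i + 1, j + 1, false) : Edg) ≠ f ∧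
        ((i, j, true) : Edg) ≠ f) ∨
      (((i, j, false) : Edg) ≠ f ∧ ((i + 1, j, false) : Edg) ≠ f ∧
        ((i + 2, j, true) : Edg) ≠ f ∧ ((i + 1, j + 1, false) : Edg) ≠ f ∧
        ((i, j + 1, false) : Edg) ≠ f)) := by
      simp only [hex, mem_insert, mem_singleton] at hf
      rcases hf with hf | hf | hf | hf | hf | hf
      · left; rw [hf]; simp [Prod.ext_iff]
      · right; left; rw [hf]; simp [Prod.ext_iff]
      · right; right; right; right; left; rw [hf]; simp [Prod.ext_iff]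
      · right; right; right; left; rw [hf]; simp [Prod.ext_iff]
      · right; right; right; right; right; rw [hf]; simp [Prod.ext_iff]
      · right; right; left; rw [hf]; simp [Prod.ext_iff]
    obtain ⟨c1, c2, c3, c4, c5⟩ := six q0 k0 k1 k2 k3 k4 k5 hr
    intro w hw
    simp only [hexV, mem_insert, mem_singleton] at hw
    rcases hw with hw | hw | hw | hw | hw | hw <;> rw [hw] <;> assumption
  exact (hall u hu).symm.trans (hall v hv)

theorem conn_fl_hex (hf : ω ∩ hex h = {f}) {u v : Vtx} (hu : u ∈ hexV h) (hv : v ∈ hexV h) :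
    Conn (fl h ω) u v := by
  refine conn_hex (f := f) ?_ (mem_of_inter hf).2 hu hv
  intro e he hne
  rw [mem_fl]
  refine Or.inr ⟨he, fun h1 => hne (eq_of_inter hf h1 he)⟩

theorem conn_fl_of_conn (hf : ω ∩ hex h = {f}) {u v : Vtx} (hc : Conn ω u v) :
    Conn (fl h ω) u v := by
  induction hc with
  | refl => exact Conn.refl _ _
  | @tail y z _ h2 ih =>
    obtain ⟨e, he, h3, h4⟩ := h2
    by_cases heh : e ∈ hex h
    · exact ih.trans (conn_fl_hex hf (inc_hexV heh h3) (inc_hexV heh h4))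
    · exact ih.trans (Conn.edge (mem_fl.2 (Or.inl ⟨he, heh⟩)) h3 h4)

theorem conn_of_conn_fl (H : Loc h a ω) (hf : ω ∩ hex h = {f}) {u v : Vtx}
    (hc : Conn (fl h ω) u v) (hu : u ∈ hexV h → Inc f u) (hv : v ∈ hexV h → Inc f v) :
    Conn ω u v := by
  classical
  let ρ : Vtx → Vtx := fun w => if w ∈ hexV h ∧ ¬ Inc f w then src f else w
  have hρ : ∀ w, (w ∈ hexV h → Inc f w) → ρ w = w := by
    intro w hw
    simp only [ρ]
    rw [if_neg]
    rintro ⟨h1, h2⟩
    exact h2 (hw h1)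
  have hρh : ∀ w ∈ hexV h, Conn ω (src f) (ρ w) := by
    intro w hw
    simp only [ρ]
    split_ifs with h1
    · exact Conn.refl _ _
    · have h2 : Inc f w := by
        by_contra h3
        exact h1 ⟨hw, h3⟩
      exact Conn.edge (mem_of_inter hf).1 (src_inc f) h2
  have key : Conn ω (ρ u) (ρ v) := by
    clear hv
    induction hc with
    | refl => exact Conn.refl _ _
    | @tail y z _ h2 ih =>
      obtain ⟨e, he, h3, h4⟩ := h2
      refine ih.trans ?_
      rw [mem_fl] at he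
      rcases he with ⟨h5, h6⟩ | ⟨h5, h6⟩
      · have n1 : ρ y = y := hρ y fun hy => by
          by_contra hn
          exact isolated H hf hy hn e h5 h3
        have n2 : ρ z = z := hρ z fun hy => by
          by_contra hn
          exact isolated H hf hy hn e h5 h4
        rw [n1, n2]
        exact Conn.edge h5 h3 h4
      · exact (hρh y (inc_hexV h5 h3)).symm.trans (hρh z (inc_hexV h5 h4))
  rwa [hρ u hu, hρ v hv] at key

theorem On.fi (H : Loc h a ω) : On h a ω ↔ Fi h a (fl h ω) := by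
  constructor
  · rintro ⟨f, hf, h1⟩
    refine ⟨f, (mem_of_inter hf).2, ?_, conn_fl_of_conn hf h1⟩
    rw [inter_fl, hf, sdiff_singleton_eq_erase]
  · rintro ⟨f, hfh, hf, h1⟩
    have hf' : ω ∩ hex h = {f} := by
      have h2 := inter_fl h (fl h ω)
      rw [fl_fl, hf] at h2
      rw [h2]
      ext e
      simp only [mem_sdiff, mem_erase, mem_singleton]
      constructor
      · rintro ⟨h3, h4⟩
        by_contra h5
        exact h4 ⟨h5, h3⟩
      · rintro rfl
        exact ⟨hfh, fun h3 => h3.1 rfl⟩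
    refine ⟨f, hf', conn_of_conn_fl H hf' h1 (fun h2 => absurd h2 H.a_notMem) fun _ => src_inc f⟩

theorem Fi.on (H : Loc h a ω) : Fi h a ω ↔ On h a (fl h ω) := by
  have := On.fi H.fl
  rw [fl_fl] at this
  exact this.symm

/-- a switch does not change the components away from the hexagon -/
theorem conn_iff (H : Loc h a ω) (hs : On h a ω ∨ Fi h a ω) {u v : Vtx} (hu : u ∉ hexV h)
    (hv : v ∉ hexV h) : Conn ω u v ↔ Conn (fl h ω) u v := by
  have key : ∀ ω, Loc h a ω → On h a ω → (Conn ω u v ↔ Conn (fl h ω) u v) := by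
    rintro ω H ⟨f, hf, -⟩
    exact ⟨conn_fl_of_conn hf, fun h1 => conn_of_conn_fl H hf h1 (fun h2 => absurd h2 hu)
      fun h2 => absurd h2 hv⟩
  rcases hs with h1 | h1
  · exact key ω H h1
  · have := key (fl h ω) H.fl ((Fi.on H).1 h1)
    rw [fl_fl] at this
    exact this.symm

theorem path_fl (H : Loc h a ω) (hf : ω ∩ hex h = {f}) (hc : Conn ω a (src f)) :
    path a (fl h ω) = (path a ω).erase f ∪ (hex h).erase f := by
  classical
  have hc' := conn_fl_of_conn hf hc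
  ext e
  simp only [path, mem_filter, mem_union, mem_erase]
  by_cases he : e ∈ hex h
  · have h1 : Conn (fl h ω) a (src e) :=
      hc'.trans (conn_fl_hex hf (inc_hexV (mem_of_inter hf).2 (src_inc f))
        (inc_hexV he (src_inc e)))
    constructor
    · rintro ⟨h2, _⟩
      right
      refine ⟨?_, he⟩
      rintro rfl
      rw [mem_fl] at h2
      rcases h2 with ⟨_, h3⟩ | ⟨_, h3⟩
      · exact h3 he
      · exact h3 (mem_of_inter hf).1
    · intro h2
      refine ⟨?_, h1⟩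
      rw [mem_fl]
      refine Or.inr ⟨he, fun h3 => ?_⟩
      have h4 := eq_of_inter hf h3 he
      rcases h2 with h2 | h2
      · exact h2.1 h4
      · exact h2.1 h4
  · have hne : e ≠ f := by
      rintro rfl
      exact he (mem_of_inter hf).2
    constructor
    · rintro ⟨h2, h3⟩
      left
      rw [mem_fl] at h2
      have h2' : e ∈ ω := by tauto
      refine ⟨hne, h2', conn_of_conn_fl H hf h3 (fun h4 => absurd h4 H.a_notMem) fun h4 => ?_⟩
      by_contra h5
      exact isolated H hf h4 h5 e h2' (src_inc e)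
    · rintro (⟨_, h3, h4⟩ | ⟨_, h3⟩)
      · exact ⟨mem_fl.2 (Or.inl ⟨h3, he⟩), conn_fl_of_conn hf h4⟩
      · exact absurd h3 he

theorem card_path_fl (H : Loc h a ω) (hs : On h a ω) :
    (path a (fl h ω)).card = (path a ω).card + 4 := by
  classical
  obtain ⟨f, hf, hc⟩ := hs
  rw [path_fl H hf hc, card_union_of_disjoint, card_erase_of_mem, card_erase_of_mem, card_hex]
  · have : 0 < (path a ω).card := card_pos.2 ⟨f, by
      simp only [path, mem_filter]; exact ⟨(mem_of_inter hf).1, hc⟩⟩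
    omega
  · exact (mem_of_inter hf).2
  · simp only [path, mem_filter]; exact ⟨(mem_of_inter hf).1, hc⟩
  · rw [disjoint_left]
    intro e h1 h2
    simp only [path, mem_erase, mem_filter] at h1 h2
    exact h1.1 (eq_of_inter hf h1.2.1 h2.2)

theorem card_fl (hs : On h a ω) : (fl h ω).card = ω.card + 4 := by
  classical
  obtain ⟨f, hf, hc⟩ := hs
  have h1 : fl h ω = ω.erase f ∪ (hex h).erase f := by
    ext e
    simp only [mem_fl, mem_union, mem_erase]
    have h2 := mem_of_inter hf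
    constructor
    · rintro (⟨h3, h4⟩ | ⟨h3, h4⟩)
      · exact Or.inl ⟨fun h5 => h4 (h5 ▸ h2.2), h3⟩
      · exact Or.inr ⟨fun h5 => h4 (h5 ▸ h2.1), h3⟩
    · rintro (⟨h3, h4⟩ | ⟨h3, h4⟩)
      · exact Or.inl ⟨h4, fun h5 => h3 (eq_of_inter hf h4 h5)⟩
      · exact Or.inr ⟨h4, fun h5 => h3 (eq_of_inter hf h5 h4)⟩
  rw [h1, card_union_of_disjoint, card_erase_of_mem (mem_of_inter hf).1,
    card_erase_of_mem (mem_of_inter hf).2, card_hex]
  · have : 0 < ω.card := card_pos.2 ⟨f, (mem_of_inter hf).1⟩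
    omega
  · rw [disjoint_left]
    intro e h1 h2
    simp only [mem_erase] at h1 h2
    exact h1.1 (eq_of_inter hf h1.2 h2.2)

theorem loops_fl (H : Loc h a ω) (hs : On h a ω) : loops a (fl h ω) = loops a ω := by
  obtain ⟨f, hf, hc⟩ := hs
  have hfm := mem_of_inter hf
  have hc' := conn_fl_of_conn hf hc
  have hcall : ∀ v ∈ hexV h, Conn (fl h ω) a v := fun v hv =>
    hc'.trans (conn_fl_hex hf (inc_hexV hfm.2 (src_inc f)) hv)
  have hcl : ∀ v, v ∉ hexV h → ¬ Conn ω a v → {w | Conn ω v w} = {w | Conn (fl h ω) v w} := by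
    intro v hv h1
    ext w
    refine ⟨fun h2 => conn_fl_of_conn hf h2, fun h2 => ?_⟩
    refine conn_of_conn_fl H hf h2 (fun h3 => absurd h3 hv) fun h3 => ?_
    exfalso
    refine h1 (conn_of_conn_fl H hf ((hcall w h3).trans (Conn.symm h2))
      (fun h4 => absurd h4 H.a_notMem) fun h4 => absurd h4 hv)
  rw [loops_eq, loops_eq]
  congr 1
  ext S
  constructor
  · rintro ⟨v, ⟨e, he, hev⟩, h1, rfl⟩
    have hv : v ∉ hexV h := fun h2 => h1 (hcall v h2)
    have heh : e ∉ hex h := fun h2 => hv (inc_hexV h2 hev)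
    have h1' : ¬ Conn ω a v := fun h2 => h1 (conn_fl_of_conn hf h2)
    refine ⟨v, ⟨e, ?_, hev⟩, h1', (hcl v hv h1').symm⟩
    rw [mem_fl] at he
    tauto
  · rintro ⟨v, ⟨e, he, hev⟩, h1, rfl⟩
    have hv : v ∉ hexV h := by
      intro h2
      by_cases h3 : Inc f v
      · exact h1 (hc.trans (Conn.edge hfm.1 (src_inc f) h3))
      · exact isolated H hf h2 h3 e he hev
    have heh : e ∉ hex h := fun h2 => hv (inc_hexV h2 hev)
    refine ⟨v, ⟨e, mem_fl.2 (Or.inl ⟨he, heh⟩), hev⟩, ?_, hcl v hv h1⟩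
    intro h2
    exact h1 (conn_of_conn_fl H hf h2 (fun h4 => absurd h4 H.a_notMem) fun h4 => absurd h4 hv)

theorem weight_fl {n x : ℝ} (H : Loc h a ω) (hs : On h a ω) :
    weight n x a (fl h ω) = x ^ 4 * weight n x a ω := by
  unfold weight
  rw [loops_fl H hs, card_fl hs, pow_add]
  ring

end

end Pool.Agent.V7H81.ON
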