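import Mathlib
import Pool.Agent.V7H81.ON.Switch

/-! Changing a configuration in the seven hexagons around a hexagon. -/

set_option autoImplicit false

namespace Pool.Agent.V7H81.ON

open Finset

/-- the indicator function modulo two -/
def chi (ω : Finset Edg) (e : Edg) : ZMod 2 := if e ∈ ω then 1 else 0

theorem chi_one {ω : Finset Edg} {e : Edg} : chi ω e = 1 ↔ e ∈ ω := by
  unfold chi; split_ifs with h <;> simp [h]

theorem chi_zero {ω : Finset Edg} {e : Edg} : chi ω e = 0 ↔ e ∉ ω := by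
  unfold chi; split_ifs with h <;> simp [h]

theorem chi_fl (h : Vtx) (ω : Finset Edg) (e : Edg) : chi (fl h ω) e = chi ω e + chi (hex h) e := by
  unfold chi
  by_cases h1 : e ∈ ω <;> by_cases h2 : e ∈ hex h <;> simp [mem_fl, h1, h2]
  decide

theorem chi_ext {ω ω' : Finset Edg} (h : ∀ e, chi ω e = chi ω' e) : ω = ω' := by
  ext e
  rw [← chi_one, ← chi_one, h]

/-- translation of edges -/
def sh (h : Vtx) (e : Edg) : Edg := (e.1 + h.1, e.2.1 + h.2, e.2.2)

theorem chi_sh (h k : Vtx) (e : Edg) : chi (hex (h + k)) (sh h e) = chi (hex k) e := by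
  unfold chi
  have : sh h e ∈ hex (h + k) ↔ e ∈ hex k := by
    rw [mem_hex, mem_hex]
    simp only [sh, Prod.fst_add, Prod.snd_add]
    constructor
    · rintro (⟨h1, h2, h3⟩ | ⟨h1, h2, h3⟩)
      · exact Or.inl ⟨h1, by omega, by omega⟩
      · exact Or.inr ⟨h1, by omega, by omega⟩
    · rintro (⟨h1, h2, h3⟩ | ⟨h1, h2, h3⟩)
      · exact Or.inl ⟨h1, by omega, by omega⟩
      · exact Or.inr ⟨h1, by omega, by omega⟩
  simp [this]

theorem inc_sh (h : Vtx) (e : Edg) (v : Vtx) : Inc (sh h e) (v + h) ↔ Inc e v := by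
  rw [inc_iff, inc_iff]
  simp only [sh, Prod.fst_add, Prod.snd_add]
  constructor
  · rintro (⟨h1, h2⟩ | ⟨h1, h2, h3⟩ | ⟨h1, h2, h3⟩)
    · exact Or.inl ⟨by omega, by omega⟩
    · exact Or.inr (Or.inl ⟨h1, by omega, by omega⟩)
    · exact Or.inr (Or.inr ⟨h1, by omega, by omega⟩)
  · rintro (⟨h1, h2⟩ | ⟨h1, h2, h3⟩ | ⟨h1, h2, h3⟩)
    · exact Or.inl ⟨by omega, by omega⟩
    · exact Or.inr (Or.inl ⟨h1, by omega, by omega⟩)
    · exact Or.inr (Or.inr ⟨h1, by omega, by omega⟩)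

theorem mem_hexV_add (h k v : Vtx) : v + h ∈ hexV (h + k) ↔ v ∈ hexV k := by
  rw [mem_hexV, mem_hexV]
  simp only [Prod.fst_add, Prod.snd_add]
  omega

theorem src_sh (h : Vtx) (e : Edg) : src (sh h e) = src e + h := by
  simp [src, sh, Prod.ext_iff]

/-- the neighbours of the hexagon `(0, 0)` -/
def petals : Finset Vtx := {(2, 0), (-2, 0), (1, 1), (1, -1), (-1, 1), (-1, -1)}

/-- the hexagon `(0, 0)` and its neighbours -/
def F7 : Finset Vtx := insert (0, 0) petals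

/-- the vertices of these seven hexagons -/
def P0 : Finset Vtx := F7.biUnion hexV

/-- the common edge of the hexagon `(0, 0)` and a neighbour -/
def inn (k : Vtx) : Edg :=
  if k = (2, 0) then (2, 0, true) else if k = (-2, 0) then (0, 0, true) else
  if k = (1, 1) then (1, 1, false) else if k = (1, -1) then (1, 0, false) else
  if k = (-1, 1) then (0, 1, false) else (0, 0, false)

/-- the possible entrances to the seven hexagons -/
structure Entr where
  g : Vtx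
  y : Vtx
  p : Vtx
  q : Vtx
  r : Vtx
  e : Edg
  f : Edg

/-- the twelve entrances -/
def entr : List Entr :=
  [⟨(2, 0), (1, 1), (4, 1), (3, 1), (2, 1), (3, 1, false), (2, 1, false)⟩,
    ⟨(2, 0), (1, -1), (4, 0), (3, 0), (2, 0), (3, 0, false), (2, 0, false)⟩,
    ⟨(-2, 0), (-1, 1), (-2, 1), (-1, 1), (0, 1), (-2, 1, false), (-1, 1, false)⟩,
    ⟨(-2, 0), (-1, -1), (-2, 0), (-1, 0), (0, 0), (-2, 0, false), (-1, 0, false)⟩,
    ⟨(1, 1), (2, 0), (3, 2), (3, 1), (2, 1), (3, 1, true), (2, 1, false)⟩,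
    ⟨(1, 1), (-1, 1), (2, 2), (1, 2), (1, 1), (1, 2, false), (1, 1, true)⟩,
    ⟨(1, -1), (2, 0), (3, -1), (3, 0), (2, 0), (3, -1, true), (2, 0, false)⟩,
    ⟨(1, -1), (-1, -1), (2, -1), (1, -1), (1, 0), (1, -1, false), (1, -1, true)⟩,
    ⟨(-1, 1), (-2, 0), (-1, 2), (-1, 1), (0, 1), (-1, 1, true), (-1, 1, false)⟩,
    ⟨(-1, 1), (1, 1), (0, 2), (1, 2), (1, 1), (0, 2, false), (1, 1, true)⟩,
    ⟨(-1, -1), (-2, 0), (-1, -1), (-1, 0), (0, 0), (-1, -1, true), (-1, 0, false)⟩,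
    ⟨(-1, -1), (1, -1), (0, -1), (1, -1), (1, 0), (0, -1, false), (1, -1, true)⟩]

theorem card_F7 : F7.card = 7 := by decide

theorem card_P0 : P0.card = 24 := by decide

theorem fact_inn : ∀ k ∈ F7, ∀ k' ∈ petals,
    chi (hex k) (inn k') = if k = (0, 0) ∨ k = k' then 1 else 0 := by decide

theorem fact_hex : ∀ e ∈ hex (0, 0), ∃ k ∈ petals, inn k = e := by decide

theorem fact_inn_inj : ∀ k ∈ petals, ∀ k' ∈ petals, inn k = inn k' → k = k' := by decide

theorem fact_inn_mem : ∀ k ∈ petals, inn k ∈ hex (0, 0) := by decide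

theorem fact_e : ∀ c ∈ entr, ∀ k ∈ F7, chi (hex k) c.e = if k = c.g then 1 else 0 := by decide

theorem fact_g : ∀ c ∈ entr, c.g ∈ petals ∧ c.y ∈ petals ∧ c.g ≠ c.y ∧ Inc c.e c.p ∧
    Inc c.e c.q ∧ Inc c.f c.q ∧ Inc c.f c.r ∧ Inc (inn c.g) c.r ∧ c.r ∈ hexV (0, 0) := by decide

theorem fact_r : ∀ c ∈ entr,
    ({e1 c.r, e2 c.r, e3 c.r} : Multiset Edg) = {c.f, inn c.g, inn c.y} := by decide

theorem fact_p : ∀ p ∈ P0, ∀ e ∈ [e1 p, e2 p, e3 p], (src e ∉ P0 ∨ tgt e ∉ P0) →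
    ∃ c ∈ entr, c.p = p := by decide

end Pool.Agent.V7H81.ON
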