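import Mathlib
import Pool.Agent.V7H81.ON.Flower

/-! Making a hexagon switchable by changes in its neighbourhood. -/

set_option autoImplicit false

namespace Pool.Agent.V7H81.ON

open Finset

/-- flipping several hexagons -/
noncomputable def flX (h : Vtx) (X : Finset Vtx) (ω : Finset Edg) : Finset Edg :=
  X.toList.foldr (fun k ω => fl (h + k) ω) ω

theorem chi_foldr (h : Vtx) (l : List Vtx) (ω : Finset Edg) (e : Edg) :
    chi (l.foldr (fun k ω => fl (h + k) ω) ω) e =
      chi ω e + (l.map fun k => chi (hex (h + k)) e).sum := by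
  induction l with
  | nil => simp
  | cons k l ih =>
    rw [List.foldr_cons, chi_fl, ih, List.map_cons, List.sum_cons]
    ring

theorem chi_flX (h : Vtx) (X : Finset Vtx) (ω : Finset Edg) (e : Edg) :
    chi (flX h X ω) e = chi ω e + ∑ k ∈ X, chi (hex (h + k)) e := by
  unfold flX
  rw [chi_foldr, Finset.sum_map_toList]

theorem flX_inj (h : Vtx) (X : Finset Vtx) {ω ω' : Finset Edg} (he : flX h X ω = flX h X ω') :
    ω = ω' := by
  apply chi_ext
  intro e
  have h1 := chi_flX h X ω e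
  have h2 := chi_flX h X ω' e
  rw [he, h2] at h1
  exact (add_right_cancel h1).symm

theorem foldr_conf {D : Finset Vtx} (hD : EvenD D) {a b h : Vtx} (l : List Vtx)
    (hl : ∀ k ∈ l, h + k ∈ D ∧ a ∉ hexV (h + k) ∧ b ∉ hexV (h + k)) {ω : Finset Edg}
    (hω : ω ∈ Conf D a b) : l.foldr (fun k ω => fl (h + k) ω) ω ∈ Conf D a b := by
  induction l with
  | nil => exact hω
  | cons k l ih =>
    rw [List.foldr_cons]
    obtain ⟨h1, h2, h3⟩ := hl k (List.mem_cons_self ..)
    exact Conf.fl hD (ih fun k' hk' => hl k' (List.mem_cons_of_mem _ hk')) h1 h2 h3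

theorem foldr_agree {P : Finset Vtx} {h : Vtx} (l : List Vtx)
    (hl : ∀ k ∈ l, hexV (h + k) ⊆ P) (ω : Finset Edg) :
    Agree P ω (l.foldr (fun k ω => fl (h + k) ω) ω) := by
  induction l with
  | nil => exact Agree.refl _ _
  | cons k l ih =>
    rw [List.foldr_cons]
    exact (ih fun k' hk' => hl k' (List.mem_cons_of_mem _ hk')).trans
      (Agree.fl (hl k (List.mem_cons_self ..)) _)

/-- the vertices of the seven hexagons around `h` -/
def flowerV (h : Vtx) : Finset Vtx := F7.biUnion fun k => hexV (h + k)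

/-- the seven hexagons around `h` are in the domain, and `a`, `b` are not on them -/
def Full (D : Finset Vtx) (a b h : Vtx) : Prop :=
  ∀ k ∈ F7, h + k ∈ D ∧ a ∉ hexV (h + k) ∧ b ∉ hexV (h + k)

theorem mem_flowerV {h v : Vtx} : v + h ∈ flowerV h ↔ v ∈ P0 := by
  unfold flowerV P0
  simp only [mem_biUnion, mem_hexV_add]

theorem sub_mem {h v : Vtx} : v ∈ flowerV h ↔ v - h ∈ P0 := by
  rw [← mem_flowerV, sub_add_cancel]

theorem tgt_sh (h : Vtx) (e : Edg) : tgt (sh h e) = tgt e + h := by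
  obtain ⟨i, j, d⟩ := e
  cases d <;> simp [tgt, sh, Prod.ext_iff] <;> ring

theorem e1_sh (h v : Vtx) : e1 (v + h) = sh h (e1 v) := rfl

theorem e2_sh (h v : Vtx) : e2 (v + h) = sh h (e2 v) := by
  simp [e2, sh, Prod.ext_iff]
  ring

theorem e3_sh {h : Vtx} (hh : Even (h.1 + h.2)) (v : Vtx) : e3 (v + h) = sh h (e3 v) := by
  unfold e3
  have h1 : Even ((v + h).1 + (v + h).2) ↔ Even (v.1 + v.2) := by
    have : (v + h).1 + (v + h).2 = (v.1 + v.2) + (h.1 + h.2) := by
      simp only [Prod.fst_add, Prod.snd_add]; ring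
    rw [this, Int.even_add]
    tauto
  by_cases h2 : Even (v.1 + v.2)
  · rw [if_pos h2, if_pos (h1.2 h2)]
    rfl
  · rw [if_neg h2, if_neg (fun h3 => h2 (h1.1 h3))]
    simp [sh, Prod.ext_iff]
    ring

theorem parity {D : Finset Vtx} (hD : EvenD D) {a b : Vtx} {ω : Finset Edg}
    (hω : ω ∈ Conf D a b) {v : Vtx} (ha : v ≠ a) (hb : v ≠ b) :
    chi ω (e1 v) + chi ω (e2 v) + chi ω (e3 v) = 0 := by
  have h1 := Conf.deg_eq hω ha hb
  rw [deg_eq (Conf.valid hD hω)] at h1
  unfold ind at h1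
  unfold chi
  by_cases b1 : e1 v ∈ ω <;> by_cases b2 : e2 v ∈ ω <;> by_cases b3 : e3 v ∈ ω <;>
    simp [b1, b2, b3] at h1 ⊢ <;> decide

theorem sum_ite_F7 {c : Vtx → ZMod 2} {k' : Vtx} (hk : k' ∈ petals) :
    ∑ k ∈ F7, c k * (if k = (0, 0) ∨ k = k' then 1 else 0) = c (0, 0) + c k' := by
  have h0 : ((0, 0) : Vtx) ∉ petals := by decide
  have hne : k' ≠ (0, 0) := fun h => h0 (h ▸ hk)
  rw [F7, sum_insert h0]
  have h1 : ∑ k ∈ petals, c k * (if k = (0, 0) ∨ k = k' then (1 : ZMod 2) else 0) = c k' := by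
    rw [sum_eq_single k']
    · simp
    · intro k hk1 hk2
      have : k ≠ (0, 0) := fun h => h0 (h ▸ hk1)
      simp [hk2, this]
    · intro h
      exact absurd hk h
  rw [h1]
  simp

theorem two_zero (x : ZMod 2) : x + x = 0 := by
  revert x; decide

theorem fact_ends : ∀ c ∈ entr, (src c.e ∈ P0 ∧ tgt c.e ∈ P0) ∧ (src c.f ∈ P0 ∧ tgt c.f ∈ P0) ∧
    (src (inn c.g) ∈ P0 ∧ tgt (inn c.g) ∈ P0) := by decide

theorem flower_mod {D : Finset Vtx} (hD : EvenD D) {a b h : Vtx} {ω : Finset Edg}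
    (hω : ω ∈ Conf D a b) (hfull : Full D a b h) (R : Edg → Prop) [DecidablePred R]
    {v : Vtx} (hv : v ∈ flowerV h) (hc : Conn (ω.filter R) a v) :
    ∃ X ⊆ F7, ∃ f, flX h X ω ∩ hex h = {f} ∧
      Conn ((flX h X ω).filter fun e => R e ∨ (src e ∈ flowerV h ∧ tgt e ∈ flowerV h)) a
        (src f) := by
  have h00 : h + (0, 0) = h := by simp [Prod.ext_iff]
  have hh : Even (h.1 + h.2) := by
    have := (hfull (0, 0) (by decide)).1
    rw [h00] at this
    exact hD h this
  have haP : a ∉ flowerV h := by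
    unfold flowerV
    rw [mem_biUnion]
    rintro ⟨k, hk, h1⟩
    exact (hfull k hk).2.1 h1
  have hsub : ∀ k ∈ F7, hexV (h + k) ⊆ flowerV h := fun k hk =>
    subset_biUnion_of_mem (fun k => hexV (h + k)) hk
  obtain ⟨p0, p', e', heR', hp0, hp', hep0, hep, hcon⟩ := first_touch haP hv hc
  have he' : e' ∈ ω := (mem_filter.1 heR').1
  have hval := Conf.valid hD hω
  -- the entrance
  obtain ⟨p, rfl⟩ : ∃ p, p' = p + h := ⟨p' - h, by simp⟩
  have hpP : p ∈ P0 := mem_flowerV.1 hp'
  have hE : ∃ e ∈ [e1 p, e2 p, e3 p], e' = sh h e := by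
    rcases inc_cases (hval e' he') hep with h1 | h1 | h1
    · exact ⟨e1 p, by simp, by rw [h1, e1_sh]⟩
    · exact ⟨e2 p, by simp, by rw [h1, e2_sh]⟩
    · exact ⟨e3 p, by simp, by rw [h1, e3_sh hh]⟩
  obtain ⟨e, heL, rfl⟩ := hE
  have hout : src e ∉ P0 ∨ tgt e ∉ P0 := by
    rcases hep0 with h1 | h1
    · left
      rw [h1, src_sh, mem_flowerV] at hp0
      exact hp0
    · right
      rw [h1, tgt_sh, mem_flowerV] at hp0
      exact hp0
  obtain ⟨C, hC, rfl⟩ := fact_p p hpP e heL hout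
  obtain ⟨g1, g2, g3, g4, g5, g6, g7, g8, g9⟩ := fact_g C hC
  -- the choice of the flips
  set s : Edg → ZMod 2 := fun e => chi ω (sh h e) with hs
  set u : ZMod 2 := s C.e + s (inn C.g) with hu
  set c : Vtx → ZMod 2 := fun k =>
    if k = (0, 0) then u else s (inn k) + u + (if k = C.g then 1 else 0) with hcdef
  set X : Finset Vtx := F7.filter fun k => c k = 1 with hX
  have hXF : X ⊆ F7 := filter_subset _ _
  refine ⟨X, hXF, ?_⟩
  set ω' := flX h X ω with hω'
  have hω'C : ω' ∈ Conf D a b := by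
    rw [hω']
    unfold flX
    refine foldr_conf hD _ ?_ hω
    intro k hk
    exact hfull k (hXF (mem_toList.1 hk))
  have hagree : Agree (flowerV h) ω ω' := by
    rw [hω']
    unfold flX
    refine foldr_agree _ ?_ ω
    intro k hk
    exact hsub k (hXF (mem_toList.1 hk))
  have hval' : ∀ e, chi ω' (sh h e) = s e + ∑ k ∈ F7, c k * chi (hex k) e := by
    intro e
    rw [hω', chi_flX, hX, sum_filter]
    congr 1
    refine sum_congr rfl fun k _ => ?_
    rw [chi_sh]
    have hk2 : c k = 0 ∨ c k = 1 := by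
      generalize c k = y
      revert y
      decide
    rcases hk2 with h1 | h1
    · rw [if_neg (by rw [h1]; decide), h1, zero_mul]
    · rw [if_pos h1, h1, one_mul]
  have h0 : ((0, 0) : Vtx) ∉ petals := by decide
  have hin : ∀ k' ∈ petals, chi ω' (sh h (inn k')) = if k' = C.g then 1 else 0 := by
    intro k' hk'
    have hne : k' ≠ (0, 0) := fun h => h0 (h ▸ hk')
    rw [hval', sum_congr rfl (fun k hk => by rw [fact_inn k hk k' hk']), sum_ite_F7 hk']
    simp only [hcdef]
    rw [if_neg hne, if_true]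
    have t1 := two_zero (s (inn k'))
    have t2 := two_zero u
    linear_combination t1 + t2
  have hce : chi ω' (sh h C.e) = 1 := by
    have hne : C.g ≠ (0, 0) := fun h => h0 (h ▸ g1)
    rw [hval', sum_congr rfl (fun k hk => by rw [fact_e C hC k hk])]
    have : ∑ k ∈ F7, c k * (if k = C.g then (1 : ZMod 2) else 0) = c C.g := by
      rw [sum_eq_single C.g]
      · simp
      · intro k _ hk
        simp [hk]
      · intro hk
        exact absurd (mem_insert_of_mem g1) hk
    rw [this]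
    simp only [hcdef]
    rw [if_neg hne, if_true, hu]
    have t1 := two_zero (s (inn C.g))
    have t2 := two_zero (s C.e)
    linear_combination t1 + t2
  have hcf : chi ω' (sh h C.f) = 1 := by
    have hr : C.r + h ≠ a ∧ C.r + h ≠ b := by
      have h1 := hfull (0, 0) (by decide)
      have h2 : C.r + h ∈ hexV (h + (0, 0)) := (mem_hexV_add h (0, 0) C.r).2 g9
      exact ⟨fun h3 => h1.2.1 (h3 ▸ h2), fun h3 => h1.2.2 (h3 ▸ h2)⟩
    have h1 := parity hD hω'C hr.1 hr.2
    rw [e1_sh, e2_sh, e3_sh hh] at h1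
    have h2 := congrArg (fun M : Multiset Edg => (M.map fun e => chi ω' (sh h e)).sum) (fact_r C hC)
    simp only [Multiset.insert_eq_cons, Multiset.map_cons, Multiset.sum_cons,
      Multiset.map_singleton, Multiset.sum_singleton] at h2
    rw [hin C.g g1, hin C.y g2, if_pos rfl, if_neg (Ne.symm g3)] at h2
    have t1 := two_zero (1 : ZMod 2)
    linear_combination h1 - h2 - t1
  rw [chi_one] at hce hcf
  have hgi : sh h (inn C.g) ∈ ω' := by
    rw [← chi_one, hin C.g g1, if_pos rfl]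
  refine ⟨sh h (inn C.g), ?_, ?_⟩
  · ext e2
    rw [mem_inter, mem_singleton]
    constructor
    · rintro ⟨h1, h2⟩
      obtain ⟨e3, rfl⟩ : ∃ e3, e2 = sh h e3 :=
        ⟨(e2.1 - h.1, e2.2.1 - h.2, e2.2.2), by simp [sh, Prod.ext_iff]⟩
      have h3 : e3 ∈ hex (0, 0) := by
        have h4 := chi_sh h (0, 0) e3
        rw [h00, chi_one.2 h2] at h4
        exact chi_one.1 h4.symm
      obtain ⟨k, hk, rfl⟩ := fact_hex e3 h3
      have h5 := hin k hk
      rw [chi_one.2 h1] at h5
      by_contra h6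
      have h7 : k ≠ C.g := by
        rintro rfl
        exact h6 rfl
      rw [if_neg h7] at h5
      exact absurd h5 (by decide)
    · rintro rfl
      refine ⟨hgi, ?_⟩
      have h4 := chi_sh h (0, 0) (inn C.g)
      rw [h00, chi_one.2 (fact_inn_mem C.g g1)] at h4
      exact chi_one.1 h4
  · set ω'' := ω'.filter fun e => R e ∨ (src e ∈ flowerV h ∧ tgt e ∈ flowerV h) with hω''
    have hagree' : Agree (flowerV h) (ω.filter R) ω'' := by
      intro e3 he3
      rw [hω'', mem_filter, mem_filter, hagree e3 he3]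
      constructor
      · rintro ⟨h1, h2⟩
        exact ⟨h1, Or.inl h2⟩
      · rintro ⟨h1, h2 | h2⟩
        · exact ⟨h1, h2⟩
        · exact absurd h2 he3
    obtain ⟨⟨x1, x2⟩, ⟨x3, x4⟩, ⟨x5, x6⟩⟩ := fact_ends C hC
    have hin2 : ∀ e3 : Edg, src e3 ∈ P0 → tgt e3 ∈ P0 → sh h e3 ∈ ω' → sh h e3 ∈ ω'' := by
      intro e3 y1 y2 y3
      rw [hω'', mem_filter]
      refine ⟨y3, Or.inr ⟨?_, ?_⟩⟩
      · rw [src_sh, mem_flowerV]; exact y1
      · rw [tgt_sh, mem_flowerV]; exact y2
    have c1 : Conn ω'' a p0 := hcon ω'' hagree'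
    have c2 : Conn ω'' p0 (C.p + h) := Conn.edge (hagree'.mem heR' hep0 hp0) hep0 hep
    have c3 : Conn ω'' (C.p + h) (C.q + h) :=
      Conn.edge (hin2 _ x1 x2 hce) ((inc_sh h C.e C.p).2 g4) ((inc_sh h C.e C.q).2 g5)
    have c4 : Conn ω'' (C.q + h) (C.r + h) :=
      Conn.edge (hin2 _ x3 x4 hcf) ((inc_sh h C.f C.q).2 g6) ((inc_sh h C.f C.r).2 g7)
    have c5 : Conn ω'' (C.r + h) (src (sh h (inn C.g))) :=
      Conn.edge (hin2 _ x5 x6 hgi) ((inc_sh h (inn C.g) C.r).2 g8) (src_inc _)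
    exact (((c1.trans c2).trans c3).trans c4).trans c5

end Pool.Agent.V7H81.ON
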