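import Mathlib
import Pool.Agent.V7H81.ON.Switch

/-! The lower bound for the variance of the length by independent switches. -/

set_option autoImplicit false

namespace Pool.Agent.V7H81.ON

open Finset

theorem Conf.loc {D : Finset Vtx} (hD : EvenD D) {a b : Vtx} {ω : Finset Edg}
    (hω : ω ∈ Conf D a b) {h : Vtx} (hh : h ∈ D) (ha : a ∉ hexV h) (hb : b ∉ hexV h) :
    Loc h a ω where
  even := hD h hh
  valid := Conf.valid hD hω
  deg := fun _ hv => Conf.deg_eq hω (fun e => ha (e ▸ hv)) (fun e => hb (e ▸ hv))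
  a_notMem := ha

theorem not_on_fi {h a : Vtx} {ω : Finset Edg} (h1 : On h a ω) (h2 : Fi h a ω) : False := by
  obtain ⟨f, hf, -⟩ := h1
  obtain ⟨f', hf'h, hf', -⟩ := h2
  have h3 := card_erase_of_mem hf'h
  rw [← hf', hf, card_hex] at h3
  simp at h3

open Classical in
/-- the test function of a hexagon -/
noncomputable def gt (x : ℝ) (a h : Vtx) (ω : Finset Edg) : ℝ :=
  if On h a ω then x ^ 4 else if Fi h a ω then -1 else 0

theorem hex_disj {h h' : Vtx} (hd : Disjoint (hexV h) (hexV h')) {e : Edg} (he : e ∈ hex h') :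
    e ∉ hex h := by
  intro h1
  exact (disjoint_left.1 hd) (inc_hexV h1 (src_inc e)) (inc_hexV he (src_inc e))

theorem inter_fl_other {h h' : Vtx} (hd : Disjoint (hexV h) (hexV h')) (ω : Finset Edg) :
    fl h ω ∩ hex h' = ω ∩ hex h' := by
  ext e
  simp only [mem_inter, mem_fl]
  constructor
  · rintro ⟨h1, h2⟩
    have := hex_disj hd h2
    exact ⟨by tauto, h2⟩
  · rintro ⟨h1, h2⟩
    have := hex_disj hd h2
    exact ⟨by tauto, h2⟩

theorem on_other {h h' a : Vtx} {ω : Finset Edg} (hd : Disjoint (hexV h) (hexV h'))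
    (H : Loc h a ω) (hs : On h a ω) : On h' a (fl h ω) ↔ On h' a ω := by
  have key : ∀ f ∈ hex h', (Conn (fl h ω) a (src f) ↔ Conn ω a (src f)) := by
    intro f hf
    exact (conn_iff H (Or.inl hs) H.a_notMem fun h1 =>
      (disjoint_left.1 hd) h1 (inc_hexV hf (src_inc f))).symm
  unfold On
  rw [inter_fl_other hd]
  constructor
  · rintro ⟨f, hf, h1⟩
    exact ⟨f, hf, (key f (mem_of_inter hf).2).1 h1⟩
  · rintro ⟨f, hf, h1⟩
    exact ⟨f, hf, (key f (mem_of_inter hf).2).2 h1⟩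

theorem fi_other {h h' a : Vtx} {ω : Finset Edg} (hd : Disjoint (hexV h) (hexV h'))
    (H : Loc h a ω) (hs : On h a ω) : Fi h' a (fl h ω) ↔ Fi h' a ω := by
  have key : ∀ f ∈ hex h', (Conn (fl h ω) a (src f) ↔ Conn ω a (src f)) := by
    intro f hf
    exact (conn_iff H (Or.inl hs) H.a_notMem fun h1 =>
      (disjoint_left.1 hd) h1 (inc_hexV hf (src_inc f))).symm
  unfold Fi
  rw [inter_fl_other hd]
  constructor
  · rintro ⟨f, hfh, hf, h1⟩
    exact ⟨f, hfh, hf, (key f hfh).1 h1⟩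
  · rintro ⟨f, hfh, hf, h1⟩
    exact ⟨f, hfh, hf, (key f hfh).2 h1⟩

section

variable {n x : ℝ} {D : Finset Vtx} {a b : Vtx}

theorem sum_fl (hD : EvenD D) {h : Vtx} (hh : h ∈ D) (ha : a ∉ hexV h) (hb : b ∉ hexV h)
    (F : Finset Edg → ℝ) :
    ∑ ω ∈ Conf D a b, F (fl h ω) = ∑ ω ∈ Conf D a b, F ω := by
  refine sum_bij' (fun ω _ => fl h ω) (fun ω _ => fl h ω) ?_ ?_ ?_ ?_ ?_
  · intro ω hω; exact Conf.fl hD hω hh ha hb
  · intro ω hω; exact Conf.fl hD hω hh ha hb
  · intro ω _; exact fl_fl h ω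
  · intro ω _; exact fl_fl h ω
  · intro ω _; rfl

open Classical in
theorem sum_gt (hD : EvenD D) {h : Vtx} (hh : h ∈ D) (ha : a ∉ hexV h) (hb : b ∉ hexV h)
    (φ : Finset Edg → ℝ) :
    ∑ ω ∈ Conf D a b, weight n x a ω * gt x a h ω * φ ω =
      ∑ ω ∈ Conf D a b, if On h a ω then x ^ 4 * weight n x a ω * (φ ω - φ (fl h ω)) else 0 := by
  have h1 : ∑ ω ∈ Conf D a b, (if Fi h a ω then weight n x a ω * φ ω else 0) =
      ∑ ω ∈ Conf D a b, if On h a ω then x ^ 4 * weight n x a ω * φ (fl h ω) else 0 := by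
    rw [← sum_fl hD hh ha hb]
    refine sum_congr rfl fun ω hω => ?_
    have H := Conf.loc hD hω hh ha hb
    by_cases h2 : On h a ω
    · rw [if_pos h2, if_pos ((On.fi H).1 h2), weight_fl H h2]
    · rw [if_neg h2, if_neg (fun h3 => h2 ((On.fi H).2 h3))]
  have h2 : ∑ ω ∈ Conf D a b, weight n x a ω * gt x a h ω * φ ω =
      ∑ ω ∈ Conf D a b, (if On h a ω then x ^ 4 * weight n x a ω * φ ω else 0) -
      ∑ ω ∈ Conf D a b, (if Fi h a ω then weight n x a ω * φ ω else 0) := by
    rw [← sum_sub_distrib]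
    refine sum_congr rfl fun ω hω => ?_
    unfold gt
    by_cases h2 : On h a ω
    · have h3 : ¬ Fi h a ω := fun h3 => not_on_fi h2 h3
      rw [if_pos h2, if_pos h2, if_neg h3]
      ring
    · by_cases h3 : Fi h a ω
      · rw [if_neg h2, if_neg h2, if_pos h3, if_pos h3]
        ring
      · rw [if_neg h2, if_neg h2, if_neg h3, if_neg h3]
        ring
  rw [h2, h1, ← sum_sub_distrib]
  refine sum_congr rfl fun ω _ => ?_
  split_ifs
  · ring
  · ring

open Classical in
/-- the weight of the configurations whose path meets the hexagon in one edge -/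
noncomputable def wOn (n x : ℝ) (D : Finset Vtx) (a b h : Vtx) : ℝ :=
  ∑ ω ∈ Conf D a b, if On h a ω then weight n x a ω else 0

theorem weight_pos (hn : 0 < n) (hx : 0 < x) (a : Vtx) (ω : Finset Edg) :
    0 < weight n x a ω := by
  unfold weight
  positivity

theorem wOn_nonneg (hn : 0 < n) (hx : 0 < x) (D : Finset Vtx) (a b h : Vtx) :
    0 ≤ wOn n x D a b h := by
  classical
  unfold wOn
  refine sum_nonneg fun ω _ => ?_
  split_ifs
  · exact (weight_pos hn hx a ω).le
  · exact le_rfl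

theorem variance_bound (hn : 0 < n) (hx : 0 < x) (hD : EvenD D) (C : Finset Vtx)
    (hC : ∀ h ∈ C, h ∈ D ∧ a ∉ hexV h ∧ b ∉ hexV h)
    (hdis : ∀ h ∈ C, ∀ h' ∈ C, h ≠ h' → Disjoint (hexV h) (hexV h')) (m : ℝ) :
    16 * x ^ 4 * ∑ h ∈ C, wOn n x D a b h ≤
      (x ^ 4 + 1) * ∑ ω ∈ Conf D a b, weight n x a ω * (((path a ω).card : ℝ) - m) ^ 2 := by
  classical
  set W := ∑ h ∈ C, wOn n x D a b h with hW
  set V := ∑ ω ∈ Conf D a b, weight n x a ω * (((path a ω).card : ℝ) - m) ^ 2 with hV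
  have hW0 : 0 ≤ W := sum_nonneg fun h _ => wOn_nonneg hn hx D a b h
  have hV0 : 0 ≤ V := sum_nonneg fun ω _ => mul_nonneg (weight_pos hn hx a ω).le (sq_nonneg _)
  set G : Finset Edg → ℝ := fun ω => ∑ h ∈ C, gt x a h ω with hG
  -- the first sum
  have s1 : ∑ ω ∈ Conf D a b, weight n x a ω * G ω * (((path a ω).card : ℝ) - m) =
      -(4 * x ^ 4) * W := by
    have : ∀ ω ∈ Conf D a b, weight n x a ω * G ω * (((path a ω).card : ℝ) - m) =
        ∑ h ∈ C, weight n x a ω * gt x a h ω * (((path a ω).card : ℝ) - m) := by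
      intro ω _
      rw [hG, mul_sum, sum_mul]
    rw [sum_congr rfl this, sum_comm, hW, mul_sum]
    refine sum_congr rfl fun h hh => ?_
    obtain ⟨h1, h2, h3⟩ := hC h hh
    rw [sum_gt hD h1 h2 h3 (fun ω => ((path a ω).card : ℝ) - m), wOn, mul_sum]
    refine sum_congr rfl fun ω hω => ?_
    by_cases h4 : On h a ω
    · rw [if_pos h4, if_pos h4, card_path_fl (Conf.loc hD hω h1 h2 h3) h4]
      push_cast
      ring
    · rw [if_neg h4, if_neg h4]
      ring
  -- the second sum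
  have s2 : ∑ ω ∈ Conf D a b, weight n x a ω * G ω ^ 2 = x ^ 4 * (x ^ 4 + 1) * W := by
    have : ∀ ω ∈ Conf D a b, weight n x a ω * G ω ^ 2 =
        ∑ h ∈ C, weight n x a ω * gt x a h ω * G ω := by
      intro ω _
      rw [← sum_mul, ← mul_sum]
      change weight n x a ω * G ω ^ 2 = weight n x a ω * G ω * G ω
      ring
    rw [sum_congr rfl this, sum_comm, hW, mul_sum]
    refine sum_congr rfl fun h hh => ?_
    obtain ⟨h1, h2, h3⟩ := hC h hh
    rw [sum_gt hD h1 h2 h3 G, wOn, mul_sum]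
    refine sum_congr rfl fun ω hω => ?_
    by_cases h4 : On h a ω
    · have H := Conf.loc hD hω h1 h2 h3
      rw [if_pos h4, if_pos h4]
      have h5 : G ω - G (fl h ω) = x ^ 4 + 1 := by
        rw [hG]
        simp only
        rw [← sum_sub_distrib, sum_eq_single h]
        · have h6 : ¬ On h a (fl h ω) := fun h7 => not_on_fi h7 ((On.fi H).1 h4)
          unfold gt
          rw [if_pos h4, if_neg h6, if_pos ((On.fi H).1 h4)]
          ring
        · intro h' hh' hne
          have hd := hdis h hh h' hh' (Ne.symm hne)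
          unfold gt
          simp only [on_other hd H h4, fi_other hd H h4, sub_self]
        · intro h6
          exact absurd hh h6
      rw [h5]
      ring
    · rw [if_neg h4, if_neg h4]
      ring
  -- Cauchy-Schwarz
  have cs := sum_mul_sq_le_sq_mul_sq (Conf D a b) (fun ω => Real.sqrt (weight n x a ω) * G ω)
    (fun ω => Real.sqrt (weight n x a ω) * (((path a ω).card : ℝ) - m))
  have e1 : ∑ ω ∈ Conf D a b, (Real.sqrt (weight n x a ω) * G ω) *
      (Real.sqrt (weight n x a ω) * (((path a ω).card : ℝ) - m)) = -(4 * x ^ 4) * W := by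
    rw [← s1]
    refine sum_congr rfl fun ω _ => ?_
    have := Real.mul_self_sqrt (weight_pos hn hx a ω).le
    calc _ = (Real.sqrt (weight n x a ω) * Real.sqrt (weight n x a ω)) * G ω *
        (((path a ω).card : ℝ) - m) := by ring
      _ = _ := by rw [this]
  have e2 : ∑ ω ∈ Conf D a b, (Real.sqrt (weight n x a ω) * G ω) ^ 2 =
      x ^ 4 * (x ^ 4 + 1) * W := by
    rw [← s2]
    refine sum_congr rfl fun ω _ => ?_
    rw [mul_pow, Real.sq_sqrt (weight_pos hn hx a ω).le]
  have e3 : ∑ ω ∈ Conf D a b, (Real.sqrt (weight n x a ω) * (((path a ω).card : ℝ) - m)) ^ 2 =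
      V := by
    rw [hV]
    refine sum_congr rfl fun ω _ => ?_
    rw [mul_pow, Real.sq_sqrt (weight_pos hn hx a ω).le]
  rw [e1, e2, e3] at cs
  rcases hW0.eq_or_lt with h0 | h0
  · rw [← h0]
    have : 0 ≤ (x ^ 4 + 1) * V := by positivity
    linarith
  · have hx4 : 0 < x ^ 4 := by positivity
    have h6 : (x ^ 4 * W) * (16 * x ^ 4 * W) ≤ (x ^ 4 * W) * ((x ^ 4 + 1) * V) := by
      nlinarith [cs]
    exact le_of_mul_le_mul_left h6 (by positivity)

end

end Pool.Agent.V7H81.ON
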