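import Mathlib
import Pool.Agent.V7H81.ON.Modify
import Pool.Agent.V7H81.ON.Var

/-! Finite energy: flips change the weights by bounded factors. -/

set_option autoImplicit false

namespace Pool.Agent.V7H81.ON

open Finset

theorem pow_cmp {x : ℝ} (hx : 0 < x) {k l : ℕ} (h1 : k ≤ l + 6) (h2 : l ≤ k + 6) :
    x ^ k ≤ (max x x⁻¹) ^ 6 * x ^ l := by
  have hm : 0 < max x x⁻¹ := lt_of_lt_of_le hx (le_max_left _ _)
  rcases le_total 1 x with h | h
  · calc x ^ k ≤ x ^ (l + 6) := pow_le_pow_right₀ h h1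
      _ = x ^ 6 * x ^ l := by rw [pow_add]; ring
      _ ≤ (max x x⁻¹) ^ 6 * x ^ l := by
        have : x ^ 6 ≤ (max x x⁻¹) ^ 6 := pow_le_pow_left₀ hx.le (le_max_left _ _) 6
        exact mul_le_mul_of_nonneg_right this (by positivity)
  · have h3 : x ^ (k + 6) ≤ x ^ l := pow_le_pow_of_le_one hx.le h h2
    calc x ^ k = (x⁻¹) ^ 6 * x ^ (k + 6) := by
          rw [pow_add, inv_pow]
          field_simp
      _ ≤ (x⁻¹) ^ 6 * x ^ l := mul_le_mul_of_nonneg_left h3 (by positivity)
      _ ≤ (max x x⁻¹) ^ 6 * x ^ l := by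
        have : (x⁻¹) ^ 6 ≤ (max x x⁻¹) ^ 6 :=
          pow_le_pow_left₀ (by positivity) (le_max_right _ _) 6
        exact mul_le_mul_of_nonneg_right this (by positivity)

/-- the largest factor by which a flip changes the weight -/
noncomputable def kap (n x : ℝ) : ℝ := (max x x⁻¹) ^ 6 * (max n n⁻¹) ^ 6

theorem one_le_max {x : ℝ} (hx : 0 < x) : 1 ≤ max x x⁻¹ := by
  rcases le_total 1 x with h | h
  · exact le_trans h (le_max_left _ _)
  · exact le_trans ((one_le_inv₀ hx).2 h) (le_max_right _ _)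

theorem one_le_kap {n x : ℝ} (hn : 0 < n) (hx : 0 < x) : 1 ≤ kap n x := by
  unfold kap
  exact one_le_mul_of_one_le_of_one_le (one_le_pow₀ (one_le_max hx)) (one_le_pow₀ (one_le_max hn))

theorem card_hexV (h : Vtx) : (hexV h).card ≤ 6 := by
  unfold hexV
  exact Finset.card_le_six

theorem card_fl_le (h : Vtx) (ω : Finset Edg) : (fl h ω).card ≤ ω.card + 6 := by
  have : fl h ω ⊆ ω ∪ hex h := by
    intro e he
    rw [mem_fl] at he
    rw [mem_union]
    tauto
  calc (fl h ω).card ≤ (ω ∪ hex h).card := card_le_card this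
    _ ≤ ω.card + (hex h).card := card_union_le _ _
    _ = ω.card + 6 := by rw [card_hex]

theorem weight_le {n x : ℝ} (hn : 0 < n) (hx : 0 < x) (a h : Vtx) (ω : Finset Edg) :
    weight n x a ω ≤ kap n x * weight n x a (fl h ω) := by
  have h1 : ω.card ≤ (fl h ω).card + 6 := by
    have := card_fl_le h (fl h ω)
    rwa [fl_fl] at this
  have h2 := card_fl_le h ω
  have h3 : loops a ω ≤ loops a (fl h ω) + 6 :=
    (loops_le (Agree.fl (Finset.Subset.refl _) ω) a).trans (Nat.add_le_add_left (card_hexV h) _)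
  have h4 : loops a (fl h ω) ≤ loops a ω + 6 :=
    (loops_le (Agree.fl (Finset.Subset.refl _) ω).symm a).trans
      (Nat.add_le_add_left (card_hexV h) _)
  have p1 := pow_cmp hx h1 h2
  have p2 := pow_cmp hn h3 h4
  unfold weight kap
  calc x ^ ω.card * n ^ loops a ω ≤
      ((max x x⁻¹) ^ 6 * x ^ (fl h ω).card) * ((max n n⁻¹) ^ 6 * n ^ loops a (fl h ω)) :=
        mul_le_mul p1 p2 (by positivity) (by positivity)
    _ = _ := by ring

/-- flipping along a list -/
def flL (l : List Vtx) (ω : Finset Edg) : Finset Edg := l.foldr (fun k ω => fl k ω) ω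

theorem weight_le_flL {n x : ℝ} (hn : 0 < n) (hx : 0 < x) (a : Vtx) (l : List Vtx)
    (ω : Finset Edg) : weight n x a ω ≤ kap n x ^ l.length * weight n x a (flL l ω) := by
  induction l with
  | nil => simp [flL]
  | cons k l ih =>
    have h1 := weight_le hn hx a k (flL l ω)
    have hk : 0 < kap n x := lt_of_lt_of_le one_pos (one_le_kap hn hx)
    calc weight n x a ω ≤ kap n x ^ l.length * weight n x a (flL l ω) := ih
      _ ≤ kap n x ^ l.length * (kap n x * weight n x a (fl k (flL l ω))) :=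
        mul_le_mul_of_nonneg_left h1 (by positivity)
      _ = kap n x ^ (k :: l).length * weight n x a (flL (k :: l) ω) := by
        rw [List.length_cons, pow_succ]
        have : flL (k :: l) ω = fl k (flL l ω) := rfl
        rw [this]
        ring

theorem flL_conf {D : Finset Vtx} (hD : EvenD D) {a b : Vtx} (l : List Vtx)
    (hl : ∀ k ∈ l, k ∈ D ∧ a ∉ hexV k ∧ b ∉ hexV k) {ω : Finset Edg}
    (hω : ω ∈ Conf D a b) : flL l ω ∈ Conf D a b := by
  induction l with
  | nil => exact hω
  | cons k l ih =>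
    obtain ⟨h1, h2, h3⟩ := hl k (List.mem_cons_self ..)
    exact Conf.fl hD (ih fun k' hk' => hl k' (List.mem_cons_of_mem _ hk')) h1 h2 h3

theorem sum_flL {D : Finset Vtx} (hD : EvenD D) {a b : Vtx} (l : List Vtx)
    (hl : ∀ k ∈ l, k ∈ D ∧ a ∉ hexV k ∧ b ∉ hexV k) (F : Finset Edg → ℝ) :
    ∑ ω ∈ Conf D a b, F (flL l ω) = ∑ ω ∈ Conf D a b, F ω := by
  induction l generalizing F with
  | nil => rfl
  | cons k l ih =>
    obtain ⟨h1, h2, h3⟩ := hl k (List.mem_cons_self ..)
    have := ih (fun k' hk' => hl k' (List.mem_cons_of_mem _ hk')) (fun ω => F (fl k ω))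
    calc ∑ ω ∈ Conf D a b, F (flL (k :: l) ω) = ∑ ω ∈ Conf D a b, F (fl k (flL l ω)) := rfl
      _ = ∑ ω ∈ Conf D a b, F (fl k ω) := this
      _ = ∑ ω ∈ Conf D a b, F ω := sum_fl hD h1 h2 h3 F

theorem flX_eq (h : Vtx) (X : Finset Vtx) (ω : Finset Edg) :
    flX h X ω = flL (X.toList.map fun k => h + k) ω := by
  unfold flX flL
  rw [List.foldr_map]

/-- The finite energy inequality: if each configuration of `S` can be changed into one of `S'` by
one of finitely many sequences of flips, and `v` is a function which is not changed by these. -/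
theorem energy {D : Finset Vtx} (hD : EvenD D) {a b : Vtx} {n x : ℝ} (hn : 0 < n) (hx : 0 < x)
    (LL : Finset (List Vtx)) (N : ℕ)
    (hLL : ∀ l ∈ LL, l.length ≤ N ∧ ∀ k ∈ l, k ∈ D ∧ a ∉ hexV k ∧ b ∉ hexV k)
    (S S' : Finset Edg → Prop) (v : Finset Edg → ℝ) (hv : ∀ ω, 0 ≤ v ω)
    (hvl : ∀ l ∈ LL, ∀ ω, v (flL l ω) = v ω)
    (hS : ∀ ω ∈ Conf D a b, S ω → ∃ l ∈ LL, S' (flL l ω)) [DecidablePred S] [DecidablePred S'] :
    ∑ ω ∈ Conf D a b, (if S ω then weight n x a ω * v ω else 0) ≤
      LL.card * kap n x ^ N * ∑ ω ∈ Conf D a b, (if S' ω then weight n x a ω * v ω else 0) := by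
  have hk1 := one_le_kap hn hx
  have hw := fun ω => (weight_pos hn hx a ω).le
  have step : ∀ ω ∈ Conf D a b, (if S ω then weight n x a ω * v ω else 0) ≤
      ∑ l ∈ LL, kap n x ^ N *
        (if S' (flL l ω) then weight n x a (flL l ω) * v (flL l ω) else 0) := by
    intro ω hω
    have hnn : ∀ l ∈ LL, 0 ≤ kap n x ^ N *
        (if S' (flL l ω) then weight n x a (flL l ω) * v (flL l ω) else 0) := by
      intro l _
      refine mul_nonneg (by positivity) ?_
      split_ifs
      · exact mul_nonneg (hw _) (hv _)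
      · exact le_rfl
    split_ifs with h1
    · obtain ⟨l, hl, h2⟩ := hS ω hω h1
      refine le_trans ?_ (single_le_sum hnn hl)
      rw [if_pos h2, hvl l hl]
      have h3 := weight_le_flL hn hx a l ω
      have h4 : kap n x ^ l.length ≤ kap n x ^ N := pow_le_pow_right₀ hk1 (hLL l hl).1
      have h5 : weight n x a ω ≤ kap n x ^ N * weight n x a (flL l ω) :=
        h3.trans (mul_le_mul_of_nonneg_right h4 (hw _))
      calc weight n x a ω * v ω ≤ (kap n x ^ N * weight n x a (flL l ω)) * v ω :=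
            mul_le_mul_of_nonneg_right h5 (hv _)
        _ = _ := by ring
    · exact sum_nonneg hnn
  refine (sum_le_sum step).trans (le_of_eq ?_)
  rw [sum_comm]
  have : ∀ l ∈ LL, ∑ ω ∈ Conf D a b, kap n x ^ N *
      (if S' (flL l ω) then weight n x a (flL l ω) * v (flL l ω) else 0) =
      kap n x ^ N * ∑ ω ∈ Conf D a b, (if S' ω then weight n x a ω * v ω else 0) := by
    intro l hl
    rw [← mul_sum]
    congr 1
    exact sum_flL hD l (hLL l hl).2 (fun ω => if S' ω then weight n x a ω * v ω else 0)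
  rw [sum_congr rfl this, sum_const, nsmul_eq_mul]
  ring

end Pool.Agent.V7H81.ON
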