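import Mathlib
import Pool.Agent.V7H81.ON.Energy

/-! The exploration of the path through disjoint flowers. -/

set_option autoImplicit false

namespace Pool.Agent.V7H81.ON

open Finset

/-- the edge is inside the flower of `h` -/
def inFl (h : Vtx) (e : Edg) : Prop := src e ∈ flowerV h ∧ tgt e ∈ flowerV h

/-- the edge is outside all flowers of `U` -/
def Out (U : Finset Vtx) (e : Edg) : Prop := ∀ h ∈ U, ¬ inFl h e

open Classical in
/-- the edges of the configuration outside the flowers of `U` -/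
noncomputable def RU (U : Finset Vtx) (ω : Finset Edg) : Finset Edg := ω.filter (Out U)

/-- the path meets the flower of `h` -/
def Tch (h a : Vtx) (ω : Finset Edg) : Prop := ∃ v ∈ flowerV h, Conn ω a v

open Classical in
/-- the number of the hexagons of `U` which the path meets in one edge -/
noncomputable def Nn (U : Finset Vtx) (a : Vtx) (ω : Finset Edg) : ℕ :=
  (U.filter fun h => On h a ω).card

open Classical in
/-- the number of the flowers of `U` which the path meets -/
noncomputable def Mm (U : Finset Vtx) (a : Vtx) (ω : Finset Edg) : ℕ :=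
  (U.filter fun h => Tch h a ω).card

theorem mem_RU {U : Finset Vtx} {ω : Finset Edg} {e : Edg} :
    e ∈ RU U ω ↔ e ∈ ω ∧ ∀ h ∈ U, ¬ inFl h e := by
  simp only [RU, mem_filter, Out]

theorem card_filter_erase {U : Finset Vtx} {h : Vtx} (hh : h ∈ U) (p : Vtx → Prop)
    [DecidablePred p] :
    (U.filter p).card = ((U.erase h).filter p).card + if p h then 1 else 0 := by
  rw [card_filter, card_filter, ← sum_erase_add _ _ hh]

theorem inFl_of_hex {h k : Vtx} (hk : k ∈ F7) {e : Edg} (he : e ∈ hex (h + k)) : inFl h e := by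
  have hsub : hexV (h + k) ⊆ flowerV h := subset_biUnion_of_mem (fun k => hexV (h + k)) hk
  exact ⟨hsub (inc_hexV he (src_inc e)), hsub (inc_hexV he (tgt_inc e))⟩

theorem RU_fl {U : Finset Vtx} {h k : Vtx} (hU : h ∈ U) (hk : k ∈ F7) (ω : Finset Edg) :
    RU U (fl (h + k) ω) = RU U ω := by
  ext e
  rw [mem_RU, mem_RU, mem_fl]
  constructor
  · rintro ⟨h1, h2⟩
    have h3 : e ∉ hex (h + k) := fun h3 => h2 h hU (inFl_of_hex hk h3)
    exact ⟨by tauto, h2⟩
  · rintro ⟨h1, h2⟩
    have h3 : e ∉ hex (h + k) := fun h3 => h2 h hU (inFl_of_hex hk h3)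
    exact ⟨by tauto, h2⟩

theorem RU_flL {U : Finset Vtx} {h : Vtx} (hU : h ∈ U) (l : List Vtx)
    (hl : ∀ k ∈ l, ∃ k' ∈ F7, k = h + k') (ω : Finset Edg) : RU U (flL l ω) = RU U ω := by
  induction l with
  | nil => rfl
  | cons k l ih =>
    obtain ⟨k', hk', rfl⟩ := hl k (List.mem_cons_self ..)
    have h1 : flL ((h + k') :: l) ω = fl (h + k') (flL l ω) := rfl
    rw [h1, RU_fl hU hk', ih fun k hk => hl k (List.mem_cons_of_mem _ hk)]

/-- the sequences of flips in the flower of `h` -/
noncomputable def LLf (h : Vtx) : Finset (List Vtx) :=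
  F7.powerset.image fun X => X.toList.map fun k => h + k

theorem card_LLf (h : Vtx) : (LLf h).card ≤ 128 := by
  unfold LLf
  refine card_image_le.trans ?_
  rw [card_powerset, card_F7]
  norm_num

theorem mem_LLf {h : Vtx} {l : List Vtx} (hl : l ∈ LLf h) :
    l.length ≤ 7 ∧ ∀ k ∈ l, ∃ k' ∈ F7, k = h + k' := by
  unfold LLf at hl
  rw [mem_image] at hl
  obtain ⟨X, hX, rfl⟩ := hl
  rw [mem_powerset] at hX
  constructor
  · rw [List.length_map, length_toList]
    have := card_le_card hX
    rwa [card_F7] at this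
  · intro k hk
    rw [List.mem_map] at hk
    obtain ⟨k', hk', rfl⟩ := hk
    exact ⟨k', hX (mem_toList.1 hk'), rfl⟩

theorem LLf_mem {h : Vtx} {X : Finset Vtx} (hX : X ⊆ F7) :
    (X.toList.map fun k => h + k) ∈ LLf h :=
  mem_image.2 ⟨X, mem_powerset.2 hX, rfl⟩

/-- the constant of the finite energy inequality in a flower -/
noncomputable def c0 (n x : ℝ) : ℝ := (128 * kap n x ^ 7)⁻¹

theorem c0_pos {n x : ℝ} (hn : 0 < n) (hx : 0 < x) : 0 < c0 n x := by
  have := one_le_kap hn hx
  unfold c0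
  positivity

theorem c0_le {n x : ℝ} (hn : 0 < n) (hx : 0 < x) : c0 n x ≤ 1 := by
  have h1 := one_le_kap hn hx
  have h2 : 1 ≤ kap n x ^ 7 := one_le_pow₀ h1
  unfold c0
  rw [inv_le_one_iff₀]
  right
  linarith

/-- revealing a flower which the path meets makes its centre switchable with a probability
bounded from below -/
theorem reveal {D : Finset Vtx} (hD : EvenD D) {a b : Vtx} {n x : ℝ} (hn : 0 < n) (hx : 0 < x)
    {U : Finset Vtx} {h : Vtx} (hU : h ∈ U) (hfull : Full D a b h)
    (hdis : ∀ h' ∈ U, h' ≠ h → Disjoint (flowerV h) (flowerV h'))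
    (v : Finset Edg → ℝ) (hv : ∀ ω, 0 ≤ v ω) (hvU : ∀ ω ω', RU U ω = RU U ω' → v ω = v ω')
    (hT : ∀ ω, v ω ≠ 0 → Tch h a (RU U ω))
    (S' : Finset Edg → Prop) [DecidablePred S'] (hS' : ∀ ω f, ω ∩ hex h = {f} →
      Conn (RU (U.erase h) ω) a (src f) → S' ω) :
    c0 n x * ∑ ω ∈ Conf D a b, weight n x a ω * v ω ≤
      ∑ ω ∈ Conf D a b, if S' ω then weight n x a ω * v ω else 0 := by
  classical
  have hk := one_le_kap hn hx
  have key := energy hD (a := a) (b := b) hn hx (LLf h) 7 ?_ (fun ω => v ω ≠ 0) S' v hv ?_ ?_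
  · have h1 : ∑ ω ∈ Conf D a b, (if v ω ≠ 0 then weight n x a ω * v ω else 0) =
        ∑ ω ∈ Conf D a b, weight n x a ω * v ω := by
      refine sum_congr rfl fun ω _ => ?_
      split_ifs with h2
      · rfl
      · push Not at h2
        rw [h2, mul_zero]
    rw [h1] at key
    set B := ∑ ω ∈ Conf D a b, if S' ω then weight n x a ω * v ω else 0 with hB
    have hB0 : 0 ≤ B := sum_nonneg fun ω _ => by
      split_ifs
      · exact mul_nonneg (weight_pos hn hx a ω).le (hv ω)
      · exact le_rfl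
    have h3 : ((LLf h).card : ℝ) ≤ 128 := by exact_mod_cast card_LLf h
    have h4 : ∑ ω ∈ Conf D a b, weight n x a ω * v ω ≤ 128 * kap n x ^ 7 * B :=
      key.trans (mul_le_mul_of_nonneg_right (mul_le_mul_of_nonneg_right h3 (by positivity)) hB0)
    unfold c0
    rw [inv_mul_le_iff₀ (by positivity)]
    exact h4
  · intro l hl
    obtain ⟨h1, h2⟩ := mem_LLf hl
    refine ⟨h1, fun k hk => ?_⟩
    obtain ⟨k', hk', rfl⟩ := h2 k hk
    exact hfull k' hk'
  · intro l hl ω
    exact hvU _ _ (RU_flL hU l (mem_LLf hl).2 ω)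
  · intro ω hω hvω
    obtain ⟨p, hp, hc⟩ := hT ω hvω
    have hRU : RU U ω = ω.filter (Out U) := rfl
    rw [hRU] at hc
    obtain ⟨X, hX, f, hf, hcf⟩ := flower_mod hD hω hfull (Out U) hp hc
    refine ⟨_, LLf_mem hX, ?_⟩
    rw [← flX_eq]
    refine hS' _ f hf (hcf.mono ?_)
    intro e he
    rw [mem_filter] at he
    rw [mem_RU]
    refine ⟨he.1, ?_⟩
    intro h' hh' hin
    rw [mem_erase] at hh'
    rcases he.2 with h1 | h1
    · exact h1 h' hh'.2 hin
    · exact (disjoint_left.1 (hdis h' hh'.2 hh'.1)) h1.1 hin.1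

theorem RU_mono {U U' : Finset Vtx} (h : U' ⊆ U) (ω : Finset Edg) : RU U ω ⊆ RU U' ω := by
  intro e he
  rw [mem_RU] at he ⊢
  exact ⟨he.1, fun h' hh' => he.2 h' (h hh')⟩

theorem RU_sub (U : Finset Vtx) (ω : Finset Edg) : RU U ω ⊆ ω := by
  intro e he
  exact (mem_RU.1 he).1

theorem RU_RU {U U' : Finset Vtx} (h : U' ⊆ U) (ω : Finset Edg) : RU U (RU U' ω) = RU U ω := by
  ext e
  rw [mem_RU, mem_RU, mem_RU]
  constructor
  · rintro ⟨⟨h1, _⟩, h3⟩
    exact ⟨h1, h3⟩
  · rintro ⟨h1, h2⟩
    exact ⟨⟨h1, fun h' hh' => h2 h' (h hh')⟩, h2⟩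

theorem RU_meas {U U' : Finset Vtx} (h : U' ⊆ U) {ω ω' : Finset Edg} (he : RU U' ω = RU U' ω') :
    RU U ω = RU U ω' := by
  rw [← RU_RU h ω, ← RU_RU h ω', he]

/-- if the outer part of the path meets no flower then the path meets no flower -/
theorem no_touch {U : Finset Vtx} {a : Vtx} {ω : Finset Edg}
    (h : ∀ h ∈ U, ¬ Tch h a (RU U ω)) {w : Vtx} (hc : Conn ω a w) : Conn (RU U ω) a w := by
  induction hc with
  | refl => exact Conn.refl _ _
  | @tail y z h1 h2 ih =>
    obtain ⟨e, he, h3, h4⟩ := h2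
    refine ih.trans (Conn.edge ?_ h3 h4)
    rw [mem_RU]
    refine ⟨he, ?_⟩
    rintro h' hh' ⟨h5, h6⟩
    refine h h' hh' ⟨y, ?_, ih⟩
    rcases h3 with h7 | h7
    · rw [h7]; exact h5
    · rw [h7]; exact h6

theorem hex_sub_flower {h : Vtx} {e : Edg} (he : e ∈ hex h) : src e ∈ flowerV h := by
  have h1 : h + (0, 0) = h := by simp [Prod.ext_iff]
  rw [← h1] at he
  exact (inFl_of_hex (by decide) he).1

theorem On.tch {h a : Vtx} {ω : Finset Edg} (hs : On h a ω) : Tch h a ω := by
  obtain ⟨f, hf, hc⟩ := hs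
  exact ⟨src f, hex_sub_flower (mem_of_inter hf).2, hc⟩

theorem inter_RU {U : Finset Vtx} {h : Vtx}
    (hdis : ∀ h' ∈ U, Disjoint (flowerV h) (flowerV h')) (ω : Finset Edg) :
    RU U ω ∩ hex h = ω ∩ hex h := by
  ext e
  rw [mem_inter, mem_inter, mem_RU]
  constructor
  · rintro ⟨⟨h1, _⟩, h2⟩
    exact ⟨h1, h2⟩
  · rintro ⟨h1, h2⟩
    refine ⟨⟨h1, ?_⟩, h2⟩
    intro h' hh' hin
    exact (disjoint_left.1 (hdis h' hh')) (hex_sub_flower h2) hin.1

theorem explore {D : Finset Vtx} (hD : EvenD D) {a b : Vtx} {n x : ℝ} (hn : 0 < n) (hx : 0 < x)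
    {θ : ℝ} (hθ0 : 0 ≤ θ) (hθ1 : θ ≤ 1) {β : ℝ} (hβ : β = 1 - c0 n x * (1 - θ)) (hβ0 : 0 < β)
    (m : ℕ) : ∀ U : Finset Vtx, U.card = m → (∀ h ∈ U, Full D a b h) →
    (∀ h ∈ U, ∀ h' ∈ U, h' ≠ h → Disjoint (flowerV h) (flowerV h')) →
    ∀ v : Finset Edg → ℝ, (∀ ω, 0 ≤ v ω) → (∀ ω ω', RU U ω = RU U ω' → v ω = v ω') →
    ∑ ω ∈ Conf D a b, weight n x a ω * v ω * (θ ^ Nn U a ω * (β⁻¹) ^ Mm U a ω) ≤
      ∑ ω ∈ Conf D a b, weight n x a ω * v ω := by
  classical
  induction m with
  | zero =>
    intro U hU _ _ v _ _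
    rw [card_eq_zero] at hU
    subst hU
    simp [Nn, Mm]
  | succ m ih =>
    intro U hUc hfull hdis v hv hvU
    have hw := fun ω => (weight_pos hn hx a ω).le
    have hβi : 0 < β⁻¹ := inv_pos.2 hβ0
    -- the chosen flower
    set T : Finset Edg → Finset Vtx := fun ω => U.filter fun h => Tch h a (RU U ω) with hT
    have hTm : ∀ ω ω', RU U ω = RU U ω' → T ω = T ω' := by
      intro ω ω' he
      simp only [hT, he]
    set ch : Finset Edg → Vtx := fun ω => if h : (T ω).Nonempty then h.choose else (0, 0) with hch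
    have hchm : ∀ ω ω', RU U ω = RU U ω' → ch ω = ch ω' := by
      intro ω ω' he
      simp only [hch, hTm ω ω' he]
    have hchT : ∀ ω, (T ω).Nonempty → ch ω ∈ T ω := by
      intro ω hne
      simp only [hch, dif_pos hne]
      exact hne.choose_spec
    -- decomposition
    have hdec : ∀ ω (F : ℝ), weight n x a ω * v ω * F =
        (if (T ω).Nonempty then 0 else weight n x a ω * v ω * F) +
        ∑ h ∈ U, weight n x a ω * (if (T ω).Nonempty ∧ ch ω = h then v ω else 0) * F := by
      intro ω F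
      by_cases hne : (T ω).Nonempty
      · rw [if_pos hne, sum_eq_single (ch ω)]
        · rw [if_pos ⟨hne, rfl⟩, zero_add]
        · intro h _ hh
          rw [if_neg (fun h1 => hh h1.2.symm)]
          ring
        · intro h1
          exact absurd (mem_filter.1 (hchT ω hne)).1 h1
      · rw [if_neg hne, sum_eq_zero, add_zero]
        intro h _
        rw [if_neg (fun h1 => hne h1.1)]
        ring
    have hL : ∑ ω ∈ Conf D a b, weight n x a ω * v ω * (θ ^ Nn U a ω * (β⁻¹) ^ Mm U a ω) =
        ∑ ω ∈ Conf D a b, (if (T ω).Nonempty then 0 else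
          weight n x a ω * v ω * (θ ^ Nn U a ω * (β⁻¹) ^ Mm U a ω)) +
        ∑ h ∈ U, ∑ ω ∈ Conf D a b, weight n x a ω *
          (if (T ω).Nonempty ∧ ch ω = h then v ω else 0) *
            (θ ^ Nn U a ω * (β⁻¹) ^ Mm U a ω) := by
      rw [sum_comm, ← sum_add_distrib]
      exact sum_congr rfl fun ω _ => hdec ω _
    have hR : ∑ ω ∈ Conf D a b, weight n x a ω * v ω =
        ∑ ω ∈ Conf D a b, (if (T ω).Nonempty then 0 else weight n x a ω * v ω) +
        ∑ h ∈ U, ∑ ω ∈ Conf D a b, weight n x a ω *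
          (if (T ω).Nonempty ∧ ch ω = h then v ω else 0) := by
      rw [sum_comm, ← sum_add_distrib]
      refine sum_congr rfl fun ω _ => ?_
      have := hdec ω 1
      simp only [mul_one] at this
      exact this
    rw [hL, hR]
    refine add_le_add (sum_le_sum fun ω _ => ?_) (sum_le_sum fun h hh => ?_)
    · split_ifs with hne
      · exact le_rfl
      · have h1 : ∀ h ∈ U, ¬ Tch h a (RU U ω) := by
          intro h hh h2
          exact hne ⟨h, mem_filter.2 ⟨hh, h2⟩⟩
        have h2 : ∀ h ∈ U, ¬ Tch h a ω := by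
          rintro h hh ⟨p, hp, hc⟩
          exact h1 h hh ⟨p, hp, no_touch h1 hc⟩
        have h3 : Mm U a ω = 0 := by
          unfold Mm
          rw [card_eq_zero, filter_eq_empty_iff]
          exact fun h hh => h2 h hh
        have h4 : Nn U a ω = 0 := by
          unfold Nn
          rw [card_eq_zero, filter_eq_empty_iff]
          exact fun h hh h5 => h2 h hh h5.tch
        rw [h3, h4]
        simp
    · -- the flower `h`
      set U' := U.erase h with hU'
      have hsub : U' ⊆ U := erase_subset _ _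
      set vh : Finset Edg → ℝ := fun ω => if (T ω).Nonempty ∧ ch ω = h then v ω else 0 with hvh
      have hvh0 : ∀ ω, 0 ≤ vh ω := by
        intro ω
        simp only [hvh]
        split_ifs
        · exact hv ω
        · exact le_rfl
      have hvhm : ∀ ω ω', RU U ω = RU U ω' → vh ω = vh ω' := by
        intro ω ω' he
        simp only [hvh, hTm ω ω' he, hchm ω ω' he, hvU ω ω' he]
      have hvhT : ∀ ω, vh ω ≠ 0 → Tch h a (RU U ω) := by
        intro ω h1
        simp only [hvh] at h1
        by_cases h2 : (T ω).Nonempty ∧ ch ω = h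
        · have h3 := hchT ω h2.1
          rw [h2.2] at h3
          exact (mem_filter.1 h3).2
        · rw [if_neg h2] at h1
          exact absurd rfl h1
      set G : Finset Edg → Prop := fun ω =>
        ∃ f, RU U' ω ∩ hex h = {f} ∧ Conn (RU U' ω) a (src f) with hG
      have hdis' : ∀ h' ∈ U', Disjoint (flowerV h) (flowerV h') := by
        intro h' hh'
        rw [mem_erase] at hh'
        exact hdis h hh h' hh'.2 hh'.1
      have hGon : ∀ ω, G ω → On h a ω := by
        rintro ω ⟨f, hf, hc⟩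
        rw [inter_RU hdis'] at hf
        exact ⟨f, hf, hc.mono (RU_sub _ _)⟩
      have hrev := reveal hD hn hx hh (hfull h hh) (fun h' hh' hne => hdis h hh h' hh' hne) vh
        hvh0 hvhm hvhT G (by
          intro ω f hf hc
          exact ⟨f, by rw [inter_RU hdis']; exact hf, hc⟩)
      have hIH := ih U' (by rw [hU', card_erase_of_mem hh, hUc]; rfl)
        (fun h' hh' => hfull h' (hsub hh'))
        (fun h1 hh1 h2 hh2 => hdis h1 (hsub hh1) h2 (hsub hh2))
        (fun ω => vh ω * (if G ω then θ else 1))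
        (by
          intro ω
          have := hvh0 ω
          split_ifs
          · positivity
          · positivity)
        (by
          intro ω ω' he
          have h1 : G ω ↔ G ω' := by simp only [hG, he]
          simp only [hvhm ω ω' (RU_meas hsub he), h1])
      have hpt : ∀ ω ∈ Conf D a b, weight n x a ω * vh ω *
          (θ ^ Nn U a ω * (β⁻¹) ^ Mm U a ω) ≤ β⁻¹ * (weight n x a ω *
            (vh ω * (if G ω then θ else 1)) * (θ ^ Nn U' a ω * (β⁻¹) ^ Mm U' a ω)) := by
        intro ω _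
        by_cases h0 : vh ω = 0
        · rw [h0]; simp
        · have hM : Mm U a ω = Mm U' a ω + 1 := by
            have h1 : Tch h a ω := by
              obtain ⟨p, hp, hc⟩ := hvhT ω h0
              exact ⟨p, hp, hc.mono (RU_sub _ _)⟩
            unfold Mm
            rw [card_filter_erase hh, if_pos h1]
          have hN : θ ^ Nn U a ω ≤ (if G ω then θ else 1) * θ ^ Nn U' a ω := by
            have h1 : Nn U a ω = Nn U' a ω + (if On h a ω then 1 else 0) := by
              unfold Nn
              rw [card_filter_erase hh]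
            rw [h1]
            by_cases h2 : G ω
            · rw [if_pos h2, if_pos (hGon ω h2), pow_succ, mul_comm]
            · rw [if_neg h2, one_mul]
              exact pow_le_pow_of_le_one hθ0 hθ1 (Nat.le_add_right _ _)
          rw [hM, pow_succ]
          have h5 : 0 ≤ weight n x a ω * vh ω := mul_nonneg (hw ω) (hvh0 ω)
          have h6 : 0 ≤ (β⁻¹) ^ Mm U' a ω := by positivity
          calc weight n x a ω * vh ω * (θ ^ Nn U a ω * ((β⁻¹) ^ Mm U' a ω * β⁻¹)) =
              (weight n x a ω * vh ω) * (((β⁻¹) ^ Mm U' a ω * β⁻¹) * θ ^ Nn U a ω) := by ring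
            _ ≤ (weight n x a ω * vh ω) * (((β⁻¹) ^ Mm U' a ω * β⁻¹) *
                ((if G ω then θ else 1) * θ ^ Nn U' a ω)) := by
                refine mul_le_mul_of_nonneg_left (mul_le_mul_of_nonneg_left hN ?_) h5
                positivity
            _ = _ := by ring
      have hsplit : ∑ ω ∈ Conf D a b, weight n x a ω * (vh ω * (if G ω then θ else 1)) =
          ∑ ω ∈ Conf D a b, weight n x a ω * vh ω -
            (1 - θ) * ∑ ω ∈ Conf D a b, (if G ω then weight n x a ω * vh ω else 0) := by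
        rw [mul_sum, ← sum_sub_distrib]
        refine sum_congr rfl fun ω _ => ?_
        split_ifs
        · ring
        · ring
      calc ∑ ω ∈ Conf D a b, weight n x a ω * vh ω * (θ ^ Nn U a ω * (β⁻¹) ^ Mm U a ω)
          ≤ ∑ ω ∈ Conf D a b, β⁻¹ * (weight n x a ω *
            (vh ω * (if G ω then θ else 1)) * (θ ^ Nn U' a ω * (β⁻¹) ^ Mm U' a ω)) :=
            sum_le_sum hpt
        _ = β⁻¹ * ∑ ω ∈ Conf D a b, (weight n x a ω *
            (vh ω * (if G ω then θ else 1)) * (θ ^ Nn U' a ω * (β⁻¹) ^ Mm U' a ω)) := by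
            rw [mul_sum]
        _ ≤ β⁻¹ * ∑ ω ∈ Conf D a b, weight n x a ω * (vh ω * (if G ω then θ else 1)) :=
            mul_le_mul_of_nonneg_left hIH hβi.le
        _ ≤ β⁻¹ * (β * ∑ ω ∈ Conf D a b, weight n x a ω * vh ω) := by
            refine mul_le_mul_of_nonneg_left ?_ hβi.le
            rw [hsplit, hβ]
            have h1 : 0 ≤ 1 - θ := by linarith
            nlinarith [mul_le_mul_of_nonneg_left hrev h1]
        _ = ∑ ω ∈ Conf D a b, weight n x a ω * vh ω := by
            rw [← mul_assoc, inv_mul_cancel₀ hβ0.ne', one_mul]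

end Pool.Agent.V7H81.ON
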