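import Mathlib
import Pool.Agent.V7H81.ON.Explore

/-! The path crosses a ladder in its middle part with a probability bounded from below. -/

set_option autoImplicit false

namespace Pool.Agent.V7H81.ON

open Finset

/-! ### The path joins `a` and `b` -/

theorem card_inc (e : Edg) (V : Finset Vtx) (hs : src e ∈ V) (ht : tgt e ∈ V) :
    (V.filter fun v => Inc e v).card = 2 := by
  have h1 : (V.filter fun v => Inc e v) = {src e, tgt e} := by
    ext v
    rw [mem_filter, mem_insert, mem_singleton]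
    constructor
    · rintro ⟨_, h⟩; exact h
    · rintro (h | h)
      · exact ⟨h ▸ hs, Or.inl h⟩
      · exact ⟨h ▸ ht, Or.inr h⟩
  have h2 : src e ≠ tgt e := by
    obtain ⟨i, j, d⟩ := e
    cases d <;> simp [src, tgt]
  rw [h1, card_pair h2]

theorem conn_ab {D : Finset Vtx} {a b : Vtx} {ω : Finset Edg} (hω : ω ∈ Conf D a b) :
    Conn ω a b := by
  classical
  by_contra hab
  have hdeg := (mem_Conf.1 hω).2
  set V : Finset Vtx := ((ω.image src) ∪ (ω.image tgt)).filter fun v => Conn ω a v with hV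
  have hmem : ∀ e ∈ ω, ∀ v, Inc e v → Conn ω a v → v ∈ V := by
    intro e he v hv hc
    rw [hV, mem_filter, mem_union, mem_image, mem_image]
    refine ⟨?_, hc⟩
    rcases hv with h | h
    · exact Or.inl ⟨e, he, h.symm⟩
    · exact Or.inr ⟨e, he, h.symm⟩
  have haV : a ∈ V := by
    have h1 := hdeg a
    rw [if_pos (Or.inl rfl)] at h1
    have h2 : 0 < deg ω a := by omega
    unfold deg at h2
    obtain ⟨e, he⟩ := card_pos.1 h2
    rw [mem_filter] at he
    exact hmem e he.1 a he.2 (Conn.refl _ _)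
  have hsum : ∑ v ∈ V, deg ω v = 2 * (ω.filter fun e => Conn ω a (src e)).card := by
    have h1 : ∀ v ∈ V, deg ω v = ∑ e ∈ ω, if Inc e v then 1 else 0 := by
      intro v _
      unfold deg
      rw [card_filter]
    rw [sum_congr rfl h1, sum_comm]
    have h2 : ∀ e ∈ ω, ∑ v ∈ V, (if Inc e v then 1 else 0) =
        if Conn ω a (src e) then 2 else 0 := by
      intro e he
      rw [← card_filter]
      split_ifs with h3
      · exact card_inc e V (hmem e he _ (src_inc e) h3)
          (hmem e he _ (tgt_inc e) (h3.trans (Conn.edge he (src_inc e) (tgt_inc e))))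
      · rw [card_eq_zero, filter_eq_empty_iff]
        intro v hv hi
        rw [hV, mem_filter] at hv
        exact h3 (hv.2.trans (Conn.edge he hi (src_inc e)))
    rw [sum_congr rfl h2, ← sum_filter, sum_const, smul_eq_mul, mul_comm]
  rw [← sum_erase_add _ _ haV] at hsum
  have h1 := hdeg a
  rw [if_pos (Or.inl rfl)] at h1
  have h2 : Even (∑ v ∈ V.erase a, deg ω v) := by
    refine even_sum _ fun v hv => ?_
    rw [mem_erase] at hv
    have h3 := hdeg v
    have h4 : ¬ (v = a ∨ v = b) := by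
      rintro (h5 | h5)
      · exact hv.1 h5
      · subst h5
        rw [hV, mem_filter] at hv
        exact hab hv.2.2
    rw [if_neg h4] at h3
    rcases h3 with h3 | h3 <;> rw [h3] <;> decide
  rw [h1] at hsum
  obtain ⟨r, hr⟩ := h2
  omega

/-- the path from `a` to `b` uses an edge of a separating set -/
theorem crossing {D : Finset Vtx} {a b : Vtx} {ω : Finset Edg} (hω : ω ∈ Conf D a b)
    (R : Finset Edg) (hR : ¬ Conn (edges D \ R) a b) : ∃ e ∈ ω, e ∈ R ∧ Conn ω a (src e) := by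
  have key : ∀ w, Conn ω a w → Conn (edges D \ R) a w ∨ ∃ e ∈ ω, e ∈ R ∧ Conn ω a (src e) := by
    intro w hw
    induction hw with
    | refl => exact Or.inl (Conn.refl _ _)
    | @tail y z h1 h2 ih =>
      rcases ih with h3 | h3
      · obtain ⟨e, he, h4, h5⟩ := h2
        by_cases hz : e ∈ R
        · exact Or.inr ⟨e, he, hz, Conn.trans h1 (Conn.edge he h4 (src_inc e))⟩
        · refine Or.inl (h3.trans (Conn.edge ?_ h4 h5))
          exact mem_sdiff.2 ⟨(mem_Conf.1 hω).1 he, hz⟩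
      · exact Or.inr h3
  rcases key b (conn_ab hω) with h | h
  · exact absurd h hR
  · exact h

/-! ### The ladders -/

/-- the hexagons of the ladder in the column `k` -/
def lad (k t : ℤ) : Vtx := if Even t then (8 * k, t) else (8 * k + 1, t)

/-- the rungs of the ladder in the column `k` -/
def rung (k t : ℤ) : Edg := (8 * k + 1, t, false)

/-- the hexagons near the vertex `v` are in the domain and do not contain `a` and `b` -/
def DeepV (D : Finset Vtx) (a b v : Vtx) : Prop :=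
  ∀ h : Vtx, Even (h.1 + h.2) → |h.1 - v.1| ≤ 12 → |h.2 - v.2| ≤ 6 →
    h ∈ D ∧ a ∉ hexV h ∧ b ∉ hexV h

open Classical in
/-- A cross cut of the domain in the column `k`, which separates `a` and `b`, with at most `m` rungs
which are not deep, and at least one deep rung. -/
structure CutAt (D : Finset Vtx) (a b : Vtx) (m : ℕ) (k s s' : ℤ) : Prop where
  faces : ∀ t, s ≤ t → t < s' → lad k t ∈ D ∧ a ∉ hexV (lad k t) ∧ b ∉ hexV (lad k t)
  sep : ¬ Conn (edges D \ (Finset.Icc s s').image (rung k)) a b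
  few : ((Finset.Icc s s').filter fun t => ¬ DeepV D a b (8 * k + 1, t)).card ≤ m
  one : ∃ t ∈ Finset.Icc s s', DeepV D a b (8 * k + 1, t)

theorem rung_mem_lad {k k' t t' : ℤ} : rung k' t' ∈ hex (lad k t) ↔
    k' = k ∧ (t' = t ∨ t' = t + 1) := by
  rw [mem_hex]
  unfold rung lad
  split_ifs
  · simp
    omega
  · simp
    omega

theorem DeepV.full {D : Finset Vtx} {a b v : Vtx} (hv : DeepV D a b v) {h : Vtx}
    (he : Even (h.1 + h.2)) (h1 : |h.1 - v.1| ≤ 8) (h2 : |h.2 - v.2| ≤ 5) : Full D a b h := by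
  have key : ∀ c ∈ F7, Even (c.1 + c.2) ∧ -2 ≤ c.1 ∧ c.1 ≤ 2 ∧ -1 ≤ c.2 ∧ c.2 ≤ 1 := by decide
  intro c hc
  obtain ⟨k1, k2, k3, k4, k5⟩ := key c hc
  rw [abs_le] at h1 h2
  apply hv
  · have : (h + c : Vtx).1 + (h + c : Vtx).2 = (h.1 + h.2) + (c.1 + c.2) := by
      simp only [Prod.fst_add, Prod.snd_add]; ring
    rw [this]
    exact he.add k1
  · simp only [Prod.fst_add]
    rw [abs_le]
    omega
  · simp only [Prod.snd_add]
    rw [abs_le]
    omega

theorem mem_path {a : Vtx} {ω : Finset Edg} {e : Edg} :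
    e ∈ path a ω ↔ e ∈ ω ∧ Conn ω a (src e) := by
  simp only [path, mem_filter]

/-- the path does not use the bad rungs -/
def Gd (D : Finset Vtx) (a b : Vtx) (k s s' : ℤ) (ω : Finset Edg) : Prop :=
  ∀ t, s ≤ t → t ≤ s' → ¬ DeepV D a b (8 * k + 1, t) → rung k t ∉ ω

theorem good_rung {D : Finset Vtx} {a b : Vtx} {m : ℕ} {k s s' : ℤ} (hc : CutAt D a b m k s s')
    {ω : Finset Edg} (hω : ω ∈ Conf D a b) (hg : Gd D a b k s s' ω) :
    ∃ t : ℤ, rung k t ∈ path a ω ∧ DeepV D a b (8 * k + 1, t) := by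
  obtain ⟨e, he, heR, hcon⟩ := crossing hω _ hc.sep
  rw [mem_image] at heR
  obtain ⟨t, ht, rfl⟩ := heR
  rw [Finset.mem_Icc] at ht
  refine ⟨t, mem_path.2 ⟨he, hcon⟩, ?_⟩
  by_contra h
  exact hg t ht.1 ht.2 h he

theorem touch {D : Finset Vtx} {a b : Vtx} {m : ℕ} {k s s' : ℤ} (hc : CutAt D a b m k s s')
    {ω : Finset Edg} (hω : ω ∈ Conf D a b) (hg : Gd D a b k s s' ω) :
    ∃ l : ℤ, Full D a b (8 * k, 4 * l) ∧ Tch (8 * k, 4 * l) a ω := by
  obtain ⟨t, ht, h1⟩ := good_rung hc hω hg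
  have hcon := (mem_path.1 ht).2
  obtain ⟨l, hl⟩ : ∃ l : ℤ, 4 * l - 1 ≤ t ∧ t ≤ 4 * l + 2 := ⟨(t + 1) / 4, by omega, by omega⟩
  refine ⟨l, h1.full ?_ ?_ ?_, src (rung k t), ?_, hcon⟩
  · have : ((8 * k, 4 * l) : Vtx).1 + ((8 * k, 4 * l) : Vtx).2 = 2 * (4 * k + 2 * l) := by
      simp only; ring
    rw [this]
    exact even_two_mul _
  · rw [abs_le]; simp only; omega
  · rw [abs_le]; simp only; omega
  rw [sub_mem]
  have h2 : src (rung k t) - (8 * k, 4 * l) = (1, t - 4 * l) := by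
    simp [src, rung]
  rw [h2]
  have h3 : t - 4 * l = -1 ∨ t - 4 * l = 0 ∨ t - 4 * l = 1 ∨ t - 4 * l = 2 := by omega
  rcases h3 with h3 | h3 | h3 | h3 <;> rw [h3] <;> decide

/-! ### Clearing rungs by flips -/

/-- the rungs in `B` can be cleared by one of `c` sequences of at most `N` flips -/
def Clr (k s s' : ℤ) (B : Finset ℤ) (c N : ℕ) : Prop :=
  ∃ LL : Finset (List Vtx), LL.card ≤ c ∧
    (∀ l ∈ LL, l.length ≤ N ∧ ∀ g ∈ l, ∃ u, s ≤ u ∧ u < s' ∧ g = lad k u) ∧
    ∀ ω : Finset Edg, ∃ l ∈ LL, ∀ t ∈ B, rung k t ∉ flL l ω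

theorem Clr.empty (k s s' : ℤ) : Clr k s s' ∅ 1 0 :=
  ⟨{[]}, by simp, by simp, fun ω => ⟨[], by simp, by simp⟩⟩

theorem Clr.step {k s s' : ℤ} {B : Finset ℤ} {c N : ℕ} (h : Clr k s s' B c N) {u t : ℤ}
    (hu : s ≤ u) (hu' : u < s') (ht : t = u ∨ t = u + 1) (hB : ∀ t' ∈ B, t' ≠ u ∧ t' ≠ u + 1) :
    Clr k s s' (insert t B) (c * 2) (N + 1) := by
  classical
  obtain ⟨LL, h1, h2, h3⟩ := h
  refine ⟨LL ∪ LL.image fun l => lad k u :: l, ?_, ?_, ?_⟩
  · refine (card_union_le _ _).trans ?_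
    have := card_image_le (s := LL) (f := fun l => lad k u :: l)
    omega
  · intro l hl
    rw [mem_union, mem_image] at hl
    rcases hl with hl | ⟨l', hl, rfl⟩
    · exact ⟨(h2 l hl).1.trans (Nat.le_succ _), (h2 l hl).2⟩
    · refine ⟨by rw [List.length_cons]; exact Nat.succ_le_succ (h2 l' hl).1, ?_⟩
      intro g hg
      rw [List.mem_cons] at hg
      rcases hg with rfl | hg
      · exact ⟨u, hu, hu', rfl⟩
      · exact (h2 l' hl).2 g hg
  · intro ω
    obtain ⟨l, hl, h4⟩ := h3 ω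
    by_cases h5 : rung k t ∈ flL l ω
    · refine ⟨lad k u :: l, mem_union_right _ (mem_image_of_mem _ hl), ?_⟩
      intro t' ht' h6
      have h7 : flL (lad k u :: l) ω = fl (lad k u) (flL l ω) := rfl
      rw [h7, mem_fl, rung_mem_lad] at h6
      rw [mem_insert] at ht'
      rcases ht' with rfl | ht'
      · tauto
      · have := h4 t' ht'
        have := hB t' ht'
        tauto
    · refine ⟨l, mem_union_left _ hl, ?_⟩
      intro t' ht'
      rw [mem_insert] at ht'
      rcases ht' with rfl | ht'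
      · exact h5
      · exact h4 t' ht'

theorem Clr.lower {k s s' t0 : ℤ} (ht0 : t0 ≤ s') (B : Finset ℤ) :
    (∀ t ∈ B, s ≤ t ∧ t < t0) → Clr k s s' B (2 ^ B.card) B.card := by
  induction B using Finset.induction_on_max with
  | empty => intro _; exact Clr.empty k s s'
  | insert t B hlt ih =>
    intro hB
    have h1 : t ∉ B := fun h => lt_irrefl _ (hlt t h)
    have h2 := hB t (mem_insert_self _ _)
    rw [card_insert_of_notMem h1, pow_succ]
    refine (ih fun t' ht' => hB t' (mem_insert_of_mem ht')).step (u := t) h2.1 (by omega)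
      (Or.inl rfl) ?_
    intro t' ht'
    have := hlt t' ht'
    omega

theorem Clr.upper {k s s' t0 : ℤ} (ht0 : t0 ≤ s') (hs0 : s ≤ t0) (B1 : Finset ℤ)
    (hB1 : ∀ t ∈ B1, s ≤ t ∧ t < t0) (B : Finset ℤ) :
    (∀ t ∈ B, t0 < t ∧ t ≤ s') → Clr k s s' (B ∪ B1) (2 ^ (B1.card + B.card)) (B1.card + B.card) := by
  induction B using Finset.induction_on_min with
  | empty =>
    intro _
    rw [empty_union, card_empty, add_zero]
    exact Clr.lower ht0 B1 hB1
  | insert t B hlt ih =>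
    intro hB
    have h1 : t ∉ B := fun h => lt_irrefl _ (hlt t h)
    have h2 := hB t (mem_insert_self _ _)
    rw [card_insert_of_notMem h1, ← add_assoc, pow_succ, insert_union]
    refine (ih fun t' ht' => hB t' (mem_insert_of_mem ht')).step (u := t - 1) (by omega) (by omega)
      (Or.inr (by omega)) ?_
    intro t' ht'
    rw [mem_union] at ht'
    rcases ht' with h3 | h3
    · have := hlt t' h3
      omega
    · have := hB1 t' h3
      omega

/-- the constant of the finite energy inequality in a ladder -/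
noncomputable def c1 (n x : ℝ) (m : ℕ) : ℝ := ((2 * kap n x) ^ m)⁻¹

theorem c1_pos {n x : ℝ} (hn : 0 < n) (hx : 0 < x) (m : ℕ) : 0 < c1 n x m := by
  have := one_le_kap hn hx
  unfold c1
  positivity

theorem c1_le {n x : ℝ} (hn : 0 < n) (hx : 0 < x) (m : ℕ) : c1 n x m ≤ 1 := by
  have h1 := one_le_kap hn hx
  have h2 : 1 ≤ (2 * kap n x) ^ m := one_le_pow₀ (by linarith)
  unfold c1
  rw [inv_le_one_iff₀]
  right
  exact h2

open Classical in
theorem good_bound {D : Finset Vtx} (hD : EvenD D) {a b : Vtx} {n x : ℝ} (hn : 0 < n) (hx : 0 < x)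
    {m : ℕ} {k s s' : ℤ} (hc : CutAt D a b m k s s') (v : Finset Edg → ℝ) (hv : ∀ ω, 0 ≤ v ω)
    (hvk : ∀ t ω, v (fl (lad k t) ω) = v ω) :
    c1 n x m * ∑ ω ∈ Conf D a b, weight n x a ω * v ω ≤
      ∑ ω ∈ Conf D a b, if Gd D a b k s s' ω then weight n x a ω * v ω else 0 := by
  have hk := one_le_kap hn hx
  obtain ⟨t0, ht0, hdeep⟩ := hc.one
  rw [Finset.mem_Icc] at ht0
  set B := (Finset.Icc s s').filter fun t => ¬ DeepV D a b (8 * k + 1, t) with hB
  set B1 := B.filter fun t => t < t0 with hB1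
  set B2 := B.filter fun t => ¬ t < t0 with hB2
  have hcard : B1.card + B2.card = B.card := by
    rw [hB1, hB2]
    exact card_filter_add_card_filter_not _
  have hun : B2 ∪ B1 = B := by
    rw [union_comm, hB1, hB2]
    exact filter_union_filter_not_eq _ _
  have hclr := Clr.upper (k := k) ht0.2 ht0.1 B1 (by
    intro t ht
    rw [hB1, mem_filter, hB, mem_filter, Finset.mem_Icc] at ht
    exact ⟨ht.1.1.1, ht.2⟩) B2 (by
    intro t ht
    rw [hB2, mem_filter, hB, mem_filter, Finset.mem_Icc] at ht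
    refine ⟨?_, ht.1.1.2⟩
    rcases eq_or_ne t t0 with h1 | h1
    · rw [h1] at ht
      exact absurd hdeep ht.1.2
    · have := ht.2
      omega)
  rw [hun, hcard] at hclr
  obtain ⟨LL, l1, l2, l3⟩ := hclr
  have key := energy hD (a := a) (b := b) hn hx LL B.card ?_ (fun _ => True)
    (Gd D a b k s s') v hv ?_ ?_
  · simp only [if_true] at key
    set S := ∑ ω ∈ Conf D a b, if Gd D a b k s s' ω then weight n x a ω * v ω else 0 with hS
    have hS0 : 0 ≤ S := sum_nonneg fun ω _ => by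
      split_ifs
      · exact mul_nonneg (weight_pos hn hx a ω).le (hv ω)
      · exact le_rfl
    have h3 : (LL.card : ℝ) ≤ 2 ^ B.card := by
      exact_mod_cast l1
    have h4 : ∑ ω ∈ Conf D a b, weight n x a ω * v ω ≤ (2 * kap n x) ^ B.card * S := by
      rw [mul_pow]
      exact key.trans (mul_le_mul_of_nonneg_right
        (mul_le_mul_of_nonneg_right h3 (by positivity)) hS0)
    have h5 : (2 * kap n x) ^ B.card ≤ (2 * kap n x) ^ m :=
      pow_le_pow_right₀ (by linarith) hc.few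
    unfold c1
    rw [inv_mul_le_iff₀ (by positivity)]
    exact h4.trans (mul_le_mul_of_nonneg_right h5 hS0)
  · intro l hl
    obtain ⟨h1, h2⟩ := l2 l hl
    refine ⟨h1, fun k' hk' => ?_⟩
    obtain ⟨u, h3, h4, h5⟩ := h2 k' hk'
    rw [h5]
    exact hc.faces u h3 h4
  · intro l hl
    obtain ⟨-, h2⟩ := l2 l hl
    clear hl
    induction l with
    | nil => intro ω; rfl
    | cons k' l ih =>
      intro ω
      obtain ⟨u, -, -, h5⟩ := h2 k' (List.mem_cons_self ..)
      have h6 : flL (k' :: l) ω = fl k' (flL l ω) := rfl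
      rw [h6, h5, hvk, ih fun k'' hk'' => h2 k'' (List.mem_cons_of_mem _ hk'')]
  · intro ω _ _
    obtain ⟨l, hl, h1⟩ := l3 ω
    refine ⟨l, hl, ?_⟩
    intro t ht ht' hnd
    exact h1 t (mem_filter.2 ⟨Finset.mem_Icc.2 ⟨ht, ht'⟩, hnd⟩)

theorem Gd_fl {D : Finset Vtx} {a b : Vtx} {k k' s s' t : ℤ} (hk : k' ≠ k) (ω : Finset Edg) :
    Gd D a b k' s s' (fl (lad k t) ω) ↔ Gd D a b k' s s' ω := by
  have h1 : ∀ t', rung k' t' ∈ fl (lad k t) ω ↔ rung k' t' ∈ ω := by
    intro t'
    have h2 : rung k' t' ∉ hex (lad k t) := by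
      rw [rung_mem_lad]
      tauto
    rw [mem_fl]
    tauto
  unfold Gd
  simp only [h1]

open Classical in
/-- the number of the good columns -/
noncomputable def Gn (D : Finset Vtx) (a b : Vtx) (K : Finset ℤ) (s s' : ℤ → ℤ)
    (ω : Finset Edg) : ℕ :=
  (K.filter fun k => Gd D a b k (s k) (s' k) ω).card

theorem Gn_fl {D : Finset Vtx} {a b : Vtx} {K : Finset ℤ} {s s' : ℤ → ℤ} {k t : ℤ} (hk : k ∉ K) (ω : Finset Edg) :
    Gn D a b K s s' (fl (lad k t) ω) = Gn D a b K s s' ω := by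
  unfold Gn
  congr 1
  ext k'
  simp only [mem_filter]
  constructor
  · rintro ⟨h1, h2⟩
    have hne : k' ≠ k := by rintro rfl; exact hk h1
    exact ⟨h1, (Gd_fl hne ω).1 h2⟩
  · rintro ⟨h1, h2⟩
    have hne : k' ≠ k := by rintro rfl; exact hk h1
    exact ⟨h1, (Gd_fl hne ω).2 h2⟩

theorem good_prod {D : Finset Vtx} (hD : EvenD D) {a b : Vtx} {n x : ℝ} (hn : 0 < n) (hx : 0 < x)
    {m : ℕ} {s s' : ℤ → ℤ} {lam : ℝ} (hl0 : 0 ≤ lam) (hl1 : lam ≤ 1) (K : Finset ℤ)
    (hc : ∀ k ∈ K, CutAt D a b m k (s k) (s' k)) :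
    ∑ ω ∈ Conf D a b, weight n x a ω * lam ^ Gn D a b K s s' ω ≤
      (1 - c1 n x m * (1 - lam)) ^ K.card * Z n x D a b := by
  classical
  have hc1 := c1_le hn hx m
  have hc1' := c1_pos hn hx m
  have hq : 0 ≤ 1 - c1 n x m * (1 - lam) := by nlinarith
  induction K using Finset.induction_on with
  | empty => simp [Gn, Z]
  | insert k K hk ih =>
    have ih' := ih fun k' hk' => hc k' (mem_insert_of_mem hk')
    have hb := good_bound hD hn hx (hc k (mem_insert_self _ _)) (fun ω => lam ^ Gn D a b K s s' ω)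
      (fun ω => by positivity) (fun t ω => by simp only [Gn_fl hk])
    have h1 : ∀ ω, Gn D a b (insert k K) s s' ω =
        Gn D a b K s s' ω + if Gd D a b k (s k) (s' k) ω then 1 else 0 := by
      intro ω
      unfold Gn
      rw [filter_insert]
      split_ifs with h
      · rw [card_insert_of_notMem (by simp [hk])]
      · rfl
    have h2 : ∑ ω ∈ Conf D a b, weight n x a ω * lam ^ Gn D a b (insert k K) s s' ω =
        ∑ ω ∈ Conf D a b, weight n x a ω * lam ^ Gn D a b K s s' ω - (1 - lam) *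
        ∑ ω ∈ Conf D a b, (if Gd D a b k (s k) (s' k) ω then
          weight n x a ω * lam ^ Gn D a b K s s' ω else 0) := by
      rw [mul_sum, ← sum_sub_distrib]
      refine sum_congr rfl fun ω _ => ?_
      rw [h1]
      split_ifs
      · rw [pow_succ]; ring
      · rw [add_zero]; ring
    rw [h2, card_insert_of_notMem hk, pow_succ]
    have h3 : 0 ≤ 1 - lam := by linarith
    calc _ ≤ (1 - c1 n x m * (1 - lam)) *
        ∑ ω ∈ Conf D a b, weight n x a ω * lam ^ Gn D a b K s s' ω := by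
          nlinarith [mul_le_mul_of_nonneg_left hb h3]
      _ ≤ (1 - c1 n x m * (1 - lam)) *
          ((1 - c1 n x m * (1 - lam)) ^ K.card * Z n x D a b) :=
          mul_le_mul_of_nonneg_left ih' hq
      _ = _ := by ring

open Classical in
/-- the number of the edges of the path in the interior of the domain -/
noncomputable def inner (D : Finset Vtx) (a b : Vtx) (ω : Finset Edg) : ℕ :=
  ((path a ω).filter fun e => DeepV D a b (src e)).card

theorem Gn_le_inner {D : Finset Vtx} {a b : Vtx} {m : ℕ} {s s' : ℤ → ℤ} {K : Finset ℤ}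
    (hc : ∀ k ∈ K, CutAt D a b m k (s k) (s' k)) {ω : Finset Edg} (hω : ω ∈ Conf D a b) :
    Gn D a b K s s' ω ≤ inner D a b ω := by
  classical
  have h1 : ∀ k ∈ K.filter fun k => Gd D a b k (s k) (s' k) ω,
      ∃ t : ℤ, rung k t ∈ (path a ω).filter fun e => DeepV D a b (src e) := by
    intro k hk
    rw [mem_filter] at hk
    obtain ⟨t, h2, h3⟩ := good_rung (hc k hk.1) hω hk.2
    exact ⟨t, mem_filter.2 ⟨h2, h3⟩⟩
  choose! t ht using h1
  unfold Gn inner
  refine card_le_card_of_injOn (fun k => rung k (t k)) ?_ ?_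
  · intro k hk
    exact ht k hk
  · intro k _ k' _ he
    have := congrArg Prod.fst he
    simp only [rung] at this
    omega

/-! ### The family of hexagons -/

open Classical in
/-- the family of the hexagons whose flowers are revealed -/
noncomputable def Fam (D : Finset Vtx) (a b : Vtx) : Finset Vtx :=
  D.filter fun h => Full D a b h ∧ 8 ∣ h.1 ∧ 4 ∣ h.2

theorem mem_Fam {D : Finset Vtx} {a b h : Vtx} : h ∈ Fam D a b ↔
    Full D a b h ∧ 8 ∣ h.1 ∧ 4 ∣ h.2 := by
  simp only [Fam, mem_filter]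
  constructor
  · rintro ⟨_, h⟩; exact h
  · intro h1
    refine ⟨?_, h1⟩
    have := (h1.1 (0, 0) (by decide)).1
    have h00 : h + (0, 0) = h := by simp [Prod.ext_iff]
    rwa [h00] at this

theorem fact_P0 : ∀ v ∈ P0, -2 ≤ v.1 ∧ v.1 ≤ 4 ∧ -1 ≤ v.2 ∧ v.2 ≤ 2 := by decide

theorem Fam_disj {D : Finset Vtx} {a b : Vtx} : ∀ h ∈ Fam D a b, ∀ h' ∈ Fam D a b, h' ≠ h →
    Disjoint (flowerV h) (flowerV h') := by
  intro h hh h' hh' hne
  rw [mem_Fam] at hh hh'
  rw [disjoint_left]
  intro v hv hv'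
  have h1 := fact_P0 _ (sub_mem.1 hv)
  have h2 := fact_P0 _ (sub_mem.1 hv')
  simp only [Prod.fst_sub, Prod.snd_sub] at h1 h2
  apply hne
  obtain ⟨-, h3, h4⟩ := hh
  obtain ⟨-, h5, h6⟩ := hh'
  exact Prod.ext (by omega) (by omega)

theorem Gn_le {D : Finset Vtx} {a b : Vtx} {m : ℕ} {s s' : ℤ → ℤ} {K : Finset ℤ}
    (hc : ∀ k ∈ K, CutAt D a b m k (s k) (s' k)) {ω : Finset Edg} (hω : ω ∈ Conf D a b) :
    Gn D a b K s s' ω ≤ Mm (Fam D a b) a ω := by
  classical
  have h1 : ∀ k ∈ K.filter fun k => Gd D a b k (s k) (s' k) ω,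
      ∃ l : ℤ, (8 * k, 4 * l) ∈ (Fam D a b).filter fun h => Tch h a ω := by
    intro k hk
    rw [mem_filter] at hk
    obtain ⟨l, h2, h3⟩ := touch (hc k hk.1) hω hk.2
    refine ⟨l, mem_filter.2 ⟨mem_Fam.2 ⟨h2, ?_, ?_⟩, h3⟩⟩
    · exact Dvd.intro k rfl
    · exact Dvd.intro l rfl
  choose! l hl using h1
  unfold Gn Mm
  refine card_le_card_of_injOn (fun k => (8 * k, 4 * l k)) ?_ ?_
  · intro k hk
    exact hl k hk
  · intro k _ k' _ he
    have := congrArg Prod.fst he
    simp only at this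
    omega

end Pool.Agent.V7H81.ON
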