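import Mathlib
import Pool.Agent.V7H81.ON.Ladder

/-! The characteristic function of the length of the path. -/

set_option autoImplicit false

namespace Pool.Agent.V7H81.ON

open Finset

theorem sum_flC {D : Finset Vtx} (hD : EvenD D) {a b h : Vtx} (hh : h ∈ D) (ha : a ∉ hexV h)
    (hb : b ∉ hexV h) (F : Finset Edg → ℂ) :
    ∑ ω ∈ Conf D a b, F (fl h ω) = ∑ ω ∈ Conf D a b, F ω := by
  refine sum_bij' (fun ω _ => fl h ω) (fun ω _ => fl h ω) ?_ ?_ ?_ ?_ ?_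
  · intro ω hω; exact Conf.fl hD hω hh ha hb
  · intro ω hω; exact Conf.fl hD hω hh ha hb
  · intro ω _; exact fl_fl h ω
  · intro ω _; exact fl_fl h ω
  · intro ω _; rfl

/-- the complex exponential of the length -/
noncomputable def ex (t : ℝ) (a : Vtx) (ω : Finset Edg) : ℂ :=
  Complex.exp (Complex.I * t * (path a ω).card)

open Classical in
/-- the mean of the exponentials over the two states of a hexagon -/
noncomputable def kp (x t : ℝ) (a h : Vtx) (ω : Finset Edg) : ℂ :=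
  if On h a ω then (1 + x ^ 4 * Complex.exp (Complex.I * t * 4)) / (1 + x ^ 4)
  else if Fi h a ω then (Complex.exp (-(Complex.I * t * 4)) + x ^ 4) / (1 + x ^ 4) else 1

theorem char_step {D : Finset Vtx} (hD : EvenD D) {a b h : Vtx} {n x : ℝ} (hx : 0 < x)
    (t : ℝ) (hh : h ∈ D) (ha : a ∉ hexV h) (hb : b ∉ hexV h) (g : Finset Edg → ℂ)
    (hg : ∀ ω ∈ Conf D a b, On h a ω → g (fl h ω) = g ω) :
    ∑ ω ∈ Conf D a b, (weight n x a ω : ℂ) * ex t a ω * (kp x t a h ω * g ω) =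
      ∑ ω ∈ Conf D a b, (weight n x a ω : ℂ) * ex t a ω * g ω := by
  classical
  have hx4 : (1 + (x : ℂ) ^ 4) ≠ 0 := by
    have h1 : (1 + (x : ℂ) ^ 4) = ((1 + x ^ 4 : ℝ) : ℂ) := by push_cast; ring
    rw [h1]
    have : (1 + x ^ 4 : ℝ) ≠ 0 := by positivity
    exact_mod_cast this
  set q : ℂ := Complex.exp (Complex.I * t * 4) with hq
  have hq0 : q ≠ 0 := Complex.exp_ne_zero _
  have hqi : Complex.exp (-(Complex.I * t * 4)) = q⁻¹ := Complex.exp_neg _
  have key : ∑ ω ∈ Conf D a b, ((weight n x a ω : ℂ) * ex t a ω * (kp x t a h ω * g ω) -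
      (weight n x a ω : ℂ) * ex t a ω * g ω) = 0 := by
    have h1 : ∀ ω ∈ Conf D a b, ((weight n x a ω : ℂ) * ex t a ω * (kp x t a h ω * g ω) -
        (weight n x a ω : ℂ) * ex t a ω * g ω) =
        (if On h a ω then (weight n x a ω : ℂ) * ex t a ω * g ω *
          ((x : ℂ) ^ 4 * (q - 1) / (1 + x ^ 4)) else 0) +
        (if Fi h a ω then (weight n x a ω : ℂ) * ex t a ω * g ω *
          ((q⁻¹ - 1) / (1 + x ^ 4)) else 0) := by
      intro ω _
      unfold kp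
      rw [hqi, ← hq]
      by_cases h2 : On h a ω
      · have h3 : ¬ Fi h a ω := fun h3 => not_on_fi h2 h3
        rw [if_pos h2, if_pos h2, if_neg h3, add_zero]
        field_simp
        ring
      · by_cases h3 : Fi h a ω
        · rw [if_neg h2, if_neg h2, if_pos h3, if_pos h3, zero_add]
          field_simp
          ring
        · rw [if_neg h2, if_neg h2, if_neg h3, if_neg h3]
          ring
    rw [sum_congr rfl h1, sum_add_distrib]
    have h2 : ∑ ω ∈ Conf D a b, (if Fi h a ω then (weight n x a ω : ℂ) * ex t a ω * g ω *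
          ((q⁻¹ - 1) / (1 + x ^ 4)) else 0) =
        ∑ ω ∈ Conf D a b, (if On h a ω then (x : ℂ) ^ 4 * (weight n x a ω : ℂ) *
          (ex t a ω * q) * g ω * ((q⁻¹ - 1) / (1 + x ^ 4)) else 0) := by
      rw [← sum_flC hD hh ha hb]
      refine sum_congr rfl fun ω hω => ?_
      have H := Conf.loc hD hω hh ha hb
      by_cases h2 : On h a ω
      · rw [if_pos h2, if_pos ((On.fi H).1 h2), weight_fl H h2, hg ω hω h2]
        have h3 : ex t a (fl h ω) = ex t a ω * q := by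
          unfold ex
          rw [card_path_fl H h2, hq, ← Complex.exp_add]
          congr 1
          push_cast
          ring
        rw [h3]
        push_cast
        ring
      · rw [if_neg h2, if_neg (fun h3 => h2 ((On.fi H).2 h3))]
    rw [h2, ← sum_add_distrib]
    refine sum_eq_zero fun ω _ => ?_
    split_ifs
    · field_simp
      ring
    · ring
  rw [sum_sub_distrib] at key
  exact sub_eq_zero.1 key

theorem kp_other {a h h' : Vtx} {x t : ℝ} {ω : Finset Edg} (hd : Disjoint (hexV h) (hexV h'))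
    (H : Loc h a ω) (hs : On h a ω) : kp x t a h' (fl h ω) = kp x t a h' ω := by
  classical
  have h1 := on_other hd H hs
  have h2 := fi_other hd H hs
  unfold kp
  by_cases h3 : On h' a ω
  · rw [if_pos h3, if_pos (h1.2 h3)]
  · rw [if_neg h3, if_neg (fun h4 => h3 (h1.1 h4))]
    by_cases h5 : Fi h' a ω
    · rw [if_pos h5, if_pos (h2.2 h5)]
    · rw [if_neg h5, if_neg (fun h4 => h5 (h2.1 h4))]

theorem char_prod {D : Finset Vtx} (hD : EvenD D) {a b : Vtx} {n x : ℝ} (hx : 0 < x) (t : ℝ)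
    (F : Finset Edg → ℂ) (C : Finset Vtx) (hC : ∀ h ∈ C, h ∈ D ∧ a ∉ hexV h ∧ b ∉ hexV h)
    (hdis : ∀ h ∈ C, ∀ h' ∈ C, h ≠ h' → Disjoint (hexV h) (hexV h'))
    (hF : ∀ ω ∈ Conf D a b, ∀ h ∈ C, On h a ω → F (fl h ω) = F ω) :
    ∑ ω ∈ Conf D a b, (weight n x a ω : ℂ) * ex t a ω * ((∏ h ∈ C, kp x t a h ω) * F ω) =
      ∑ ω ∈ Conf D a b, (weight n x a ω : ℂ) * ex t a ω * F ω := by
  classical
  induction C using Finset.induction_on with
  | empty => simp
  | insert h C hk ih =>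
    rw [← ih (fun h' hh' => hC h' (mem_insert_of_mem hh'))
      (fun h1 hh1 h2 hh2 => hdis h1 (mem_insert_of_mem hh1) h2 (mem_insert_of_mem hh2))
      (fun ω hω h' hh' => hF ω hω h' (mem_insert_of_mem hh'))]
    obtain ⟨h1, h2, h3⟩ := hC h (mem_insert_self _ _)
    have h4 : ∀ ω, (∏ h ∈ insert h C, kp x t a h ω) * F ω =
        kp x t a h ω * ((∏ h ∈ C, kp x t a h ω) * F ω) := by
      intro ω
      rw [prod_insert hk]
      ring
    simp only [h4]
    refine char_step hD hx t h1 h2 h3 (fun ω => (∏ h ∈ C, kp x t a h ω) * F ω) ?_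
    intro ω hω hs
    have h6 : ∀ h' ∈ C, kp x t a h' (fl h ω) = kp x t a h' ω := by
      intro h' hh'
      have hne : h ≠ h' := by rintro rfl; exact hk hh'
      exact kp_other (hdis h (mem_insert_self _ _) h' (mem_insert_of_mem hh') hne)
        (Conf.loc hD hω h1 h2 h3) hs
    rw [prod_congr rfl h6, hF ω hω h (mem_insert_self _ _) hs]

/-- the modulus of the mean of the exponentials -/
noncomputable def rho (x t : ℝ) : ℝ := ‖1 + (x : ℂ) ^ 4 * Complex.exp (Complex.I * t * 4)‖ / (1 + x ^ 4)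

theorem rho_nonneg {x : ℝ} (hx : 0 < x) (t : ℝ) : 0 ≤ rho x t := by
  unfold rho; positivity

theorem norm_exp_I (t : ℝ) : ‖Complex.exp (Complex.I * t * 4)‖ = 1 := by
  rw [Complex.norm_exp]
  simp

theorem rho_le {x : ℝ} (hx : 0 < x) (t : ℝ) : rho x t ≤ 1 := by
  unfold rho
  rw [div_le_one (by positivity)]
  refine (norm_add_le _ _).trans ?_
  rw [norm_mul, norm_exp_I, norm_pow, Complex.norm_real, Real.norm_of_nonneg hx.le]
  simp

theorem rho_sq {x : ℝ} (hx : 0 < x) (t : ℝ) :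
    rho x t ^ 2 = 1 - 4 * x ^ 4 * Real.sin (2 * t) ^ 2 / (1 + x ^ 4) ^ 2 := by
  have hz : (1 + (x : ℂ) ^ 4 * Complex.exp (Complex.I * t * 4)) =
      ((1 + x ^ 4 * Real.cos (4 * t) : ℝ) : ℂ) + ((x ^ 4 * Real.sin (4 * t) : ℝ) : ℂ) *
        Complex.I := by
    have h1 : Complex.I * t * 4 = ((4 * t : ℝ) : ℂ) * Complex.I := by push_cast; ring
    rw [h1, Complex.exp_mul_I]
    push_cast
    ring
  unfold rho
  rw [div_pow, Complex.sq_norm, hz, Complex.normSq_add_mul_I]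
  have h2 : Real.cos (4 * t) = 1 - 2 * Real.sin (2 * t) ^ 2 := by
    have h3 : 4 * t = 2 * (2 * t) := by ring
    rw [h3, Real.cos_two_mul']
    have := Real.sin_sq_add_cos_sq (2 * t)
    linarith
  have h4 := Real.sin_sq_add_cos_sq (4 * t)
  have h5 : (1 + x ^ 4 : ℝ) ≠ 0 := by positivity
  generalize Real.sin (2 * t) = S at h2 ⊢
  generalize Real.cos (4 * t) = C at h2 h4 ⊢
  generalize Real.sin (4 * t) = T at h4 ⊢
  subst h2
  field_simp
  linear_combination (x ^ 8) * h4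

theorem norm_kp_le {x : ℝ} (hx : 0 < x) (t : ℝ) (a h : Vtx) (ω : Finset Edg) :
    ‖kp x t a h ω‖ ≤ 1 ∧ (On h a ω → ‖kp x t a h ω‖ = rho x t) := by
  have h0 : ‖(1 : ℂ) + (x : ℂ) ^ 4‖ = 1 + x ^ 4 := by
    have h1 : (1 + (x : ℂ) ^ 4) = ((1 + x ^ 4 : ℝ) : ℂ) := by push_cast; ring
    rw [h1, Complex.norm_real, Real.norm_of_nonneg (by positivity)]
  constructor
  · unfold kp
    split_ifs
    · rw [norm_div, h0]
      exact rho_le hx t
    · rw [norm_div, h0, div_le_one (by positivity)]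
      refine (norm_add_le _ _).trans ?_
      rw [Complex.exp_neg, norm_inv, norm_exp_I, norm_pow, Complex.norm_real,
        Real.norm_of_nonneg hx.le]
      simp
    · simp
  · intro h1
    unfold kp
    rw [if_pos h1, norm_div, h0]
    rfl

theorem norm_prod_le {x : ℝ} (hx : 0 < x) (t : ℝ) (a : Vtx) (C : Finset Vtx) (ω : Finset Edg) :
    ‖∏ h ∈ C, kp x t a h ω‖ ≤ rho x t ^ Nn C a ω := by
  classical
  rw [norm_prod]
  unfold Nn
  rw [← prod_const, prod_filter]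
  refine prod_le_prod (fun _ _ => norm_nonneg _) fun h _ => ?_
  split_ifs with h1
  · exact ((norm_kp_le hx t a h ω).2 h1).le
  · exact (norm_kp_le hx t a h ω).1

theorem norm_ex (t : ℝ) (a : Vtx) (ω : Finset Edg) : ‖ex t a ω‖ = 1 := by
  unfold ex
  rw [Complex.norm_exp]
  simp

theorem char_le {D : Finset Vtx} (hD : EvenD D) {a b : Vtx} {n x : ℝ} (hn : 0 < n) (hx : 0 < x)
    (t : ℝ) (F : Finset Edg → ℂ) (C : Finset Vtx)
    (hC : ∀ h ∈ C, h ∈ D ∧ a ∉ hexV h ∧ b ∉ hexV h)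
    (hdis : ∀ h ∈ C, ∀ h' ∈ C, h ≠ h' → Disjoint (hexV h) (hexV h'))
    (hF : ∀ ω ∈ Conf D a b, ∀ h ∈ C, On h a ω → F (fl h ω) = F ω) (hF1 : ∀ ω, ‖F ω‖ ≤ 1) :
    ‖∑ ω ∈ Conf D a b, (weight n x a ω : ℂ) * ex t a ω * F ω‖ ≤
      ∑ ω ∈ Conf D a b, weight n x a ω * rho x t ^ Nn C a ω := by
  rw [← char_prod hD hx t F C hC hdis hF]
  refine norm_sum_le_of_le _ fun ω _ => ?_
  rw [norm_mul, norm_mul, norm_ex, mul_one, Complex.norm_real,
    Real.norm_of_nonneg (weight_pos hn hx a ω).le, norm_mul]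
  refine mul_le_mul_of_nonneg_left ?_ (weight_pos hn hx a ω).le
  have h1 := norm_prod_le hx t a C ω
  have h2 := hF1 ω
  calc ‖∏ h ∈ C, kp x t a h ω‖ * ‖F ω‖ ≤ rho x t ^ Nn C a ω * 1 :=
        mul_le_mul h1 h2 (norm_nonneg _) (pow_nonneg (rho_nonneg hx t) _)
    _ = _ := mul_one _

theorem c0_lt {n x : ℝ} (hn : 0 < n) (hx : 0 < x) : c0 n x < 1 := by
  have h1 := one_le_kap hn hx
  have h2 : 1 ≤ kap n x ^ 7 := one_le_pow₀ h1
  unfold c0
  rw [inv_lt_one_iff₀]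
  right
  linarith

theorem Fam_hyp {D : Finset Vtx} {a b : Vtx} : ∀ h ∈ Fam D a b, h ∈ D ∧ a ∉ hexV h ∧ b ∉ hexV h := by
  intro h hh
  rw [mem_Fam] at hh
  have := hh.1 (0, 0) (by decide)
  have h00 : h + (0, 0) = h := by simp [Prod.ext_iff]
  rwa [h00] at this

theorem hexV_sub_flower (h : Vtx) : hexV h ⊆ flowerV h := by
  have h00 : h + (0, 0) = h := by simp [Prod.ext_iff]
  have : hexV (h + (0, 0)) ⊆ flowerV h :=
    subset_biUnion_of_mem (fun k => hexV (h + k)) (by decide : ((0, 0) : Vtx) ∈ F7)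
  rwa [h00] at this

theorem Fam_disj' {D : Finset Vtx} {a b : Vtx} : ∀ h ∈ Fam D a b, ∀ h' ∈ Fam D a b, h ≠ h' →
    Disjoint (hexV h) (hexV h') := by
  intro h hh h' hh' hne
  exact (Fam_disj h hh h' hh' (Ne.symm hne)).mono (hexV_sub_flower h) (hexV_sub_flower h')

theorem Z_nonneg {n x : ℝ} (hn : 0 < n) (hx : 0 < x) (D : Finset Vtx) (a b : Vtx) :
    0 ≤ Z n x D a b := sum_nonneg fun ω _ => (weight_pos hn hx a ω).le

/-- the main estimate -/
theorem theta_bound {D : Finset Vtx} (hD : EvenD D) {a b : Vtx} {n x : ℝ} (hn : 0 < n)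
    (hx : 0 < x) {m : ℕ} {s s' : ℤ → ℤ} (K : Finset ℤ)
    (hc : ∀ k ∈ K, CutAt D a b m k (s k) (s' k)) {r : ℝ} (hr0 : 0 ≤ r) (hr1 : r ≤ 1) :
    ∑ ω ∈ Conf D a b, weight n x a ω * r ^ Nn (Fam D a b) a ω ≤
      Real.exp (-(c0 n x * c1 n x m * (1 - r ^ 2) * K.card / 2)) * Z n x D a b := by
  set β := 1 - c0 n x * (1 - r ^ 2) with hβ
  have h0 := c0_pos hn hx
  have h0' := c0_lt hn hx
  have h1 := c1_pos hn hx m
  have h1' := c1_le hn hx m
  have hr2 : r ^ 2 ≤ 1 := pow_le_one₀ hr0 hr1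
  have hr2' : 0 ≤ r ^ 2 := sq_nonneg r
  have hβ0 : 0 < β := by rw [hβ]; nlinarith
  have hβ1 : β ≤ 1 := by rw [hβ]; nlinarith
  have hw := fun ω => (weight_pos hn hx a ω).le
  -- the exploration
  have e1 := explore hD (a := a) (b := b) hn hx hr2' hr2 hβ hβ0 _ (Fam D a b) rfl
    (fun h hh => (mem_Fam.1 hh).1) Fam_disj (fun _ => 1) (fun _ => zero_le_one) (fun _ _ _ => rfl)
  simp only [mul_one] at e1
  -- the good columns
  have e2 : ∑ ω ∈ Conf D a b, weight n x a ω * β ^ Mm (Fam D a b) a ω ≤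
      (1 - c1 n x m * (1 - β)) ^ K.card * Z n x D a b := by
    refine le_trans (sum_le_sum fun ω hω => ?_) (good_prod hD hn hx hβ0.le hβ1 K hc)
    exact mul_le_mul_of_nonneg_left (pow_le_pow_of_le_one hβ0.le hβ1 (Gn_le hc hω)) (hw ω)
  -- Cauchy-Schwarz
  have cs := sum_mul_sq_le_sq_mul_sq (Conf D a b)
    (fun ω => Real.sqrt (weight n x a ω) *
      Real.sqrt ((r ^ 2) ^ Nn (Fam D a b) a ω * (β⁻¹) ^ Mm (Fam D a b) a ω))
    (fun ω => Real.sqrt (weight n x a ω) * Real.sqrt (β ^ Mm (Fam D a b) a ω))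
  have s1 : ∀ ω, (Real.sqrt (weight n x a ω) *
      Real.sqrt ((r ^ 2) ^ Nn (Fam D a b) a ω * (β⁻¹) ^ Mm (Fam D a b) a ω)) *
      (Real.sqrt (weight n x a ω) * Real.sqrt (β ^ Mm (Fam D a b) a ω)) =
      weight n x a ω * r ^ Nn (Fam D a b) a ω := by
    intro ω
    have t1 : Real.sqrt ((r ^ 2) ^ Nn (Fam D a b) a ω * (β⁻¹) ^ Mm (Fam D a b) a ω) *
        Real.sqrt (β ^ Mm (Fam D a b) a ω) = r ^ Nn (Fam D a b) a ω := by
      rw [← Real.sqrt_mul (by positivity), mul_assoc, ← mul_pow, inv_mul_cancel₀ hβ0.ne',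
        one_pow, mul_one, ← pow_mul, mul_comm 2, pow_mul, Real.sqrt_sq (by positivity)]
    calc _ = (Real.sqrt (weight n x a ω) * Real.sqrt (weight n x a ω)) *
        (Real.sqrt ((r ^ 2) ^ Nn (Fam D a b) a ω * (β⁻¹) ^ Mm (Fam D a b) a ω) *
        Real.sqrt (β ^ Mm (Fam D a b) a ω)) := by ring
      _ = _ := by rw [t1, Real.mul_self_sqrt (hw ω)]
  have s2 : ∀ ω, (Real.sqrt (weight n x a ω) *
      Real.sqrt ((r ^ 2) ^ Nn (Fam D a b) a ω * (β⁻¹) ^ Mm (Fam D a b) a ω)) ^ 2 =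
      weight n x a ω * ((r ^ 2) ^ Nn (Fam D a b) a ω * (β⁻¹) ^ Mm (Fam D a b) a ω) := by
    intro ω
    rw [mul_pow, Real.sq_sqrt (hw ω), Real.sq_sqrt (by positivity)]
  have s3 : ∀ ω, (Real.sqrt (weight n x a ω) * Real.sqrt (β ^ Mm (Fam D a b) a ω)) ^ 2 =
      weight n x a ω * β ^ Mm (Fam D a b) a ω := by
    intro ω
    rw [mul_pow, Real.sq_sqrt (hw ω), Real.sq_sqrt (by positivity)]
  simp only [s1, s2, s3] at cs
  have hZ := Z_nonneg hn hx D a b
  set E := Real.exp (-(c0 n x * c1 n x m * (1 - r ^ 2) * K.card / 2)) with hE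
  have hE0 : 0 < E := Real.exp_pos _
  have e3 : (1 - c1 n x m * (1 - β)) ^ K.card ≤ E ^ 2 := by
    have t1 : 1 - c1 n x m * (1 - β) ≤ Real.exp (-(c1 n x m * (1 - β))) := by
      have := Real.add_one_le_exp (-(c1 n x m * (1 - β)))
      linarith
    have t0 : 0 ≤ 1 - c1 n x m * (1 - β) := by nlinarith
    have t2 := pow_le_pow_left₀ t0 t1 K.card
    refine t2.trans (le_of_eq ?_)
    rw [hE, ← Real.exp_nat_mul, ← Real.exp_nat_mul]
    congr 1
    rw [hβ]
    push_cast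
    ring
  have hZ1 : ∑ ω ∈ Conf D a b, weight n x a ω *
      ((r ^ 2) ^ Nn (Fam D a b) a ω * (β⁻¹) ^ Mm (Fam D a b) a ω) ≤ Z n x D a b := e1
  have hnn : 0 ≤ ∑ ω ∈ Conf D a b, weight n x a ω * β ^ Mm (Fam D a b) a ω :=
    sum_nonneg fun ω _ => mul_nonneg (hw ω) (by positivity)
  have hfin : (∑ ω ∈ Conf D a b, weight n x a ω * r ^ Nn (Fam D a b) a ω) ^ 2 ≤
      (E * Z n x D a b) ^ 2 := by
    calc _ ≤ (∑ ω ∈ Conf D a b, weight n x a ω *
      ((r ^ 2) ^ Nn (Fam D a b) a ω * (β⁻¹) ^ Mm (Fam D a b) a ω)) *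
        (∑ ω ∈ Conf D a b, weight n x a ω * β ^ Mm (Fam D a b) a ω) := cs
      _ ≤ Z n x D a b * (E ^ 2 * Z n x D a b) := by
        refine mul_le_mul hZ1 (e2.trans (mul_le_mul_of_nonneg_right e3 hZ)) hnn hZ
      _ = _ := by ring
  exact abs_le_of_sq_le_sq' hfin (by positivity) |>.2

/-- the constant of the final estimates -/
noncomputable def cf (n x : ℝ) (m : ℕ) : ℝ := 2 * c0 n x * c1 n x m * x ^ 4 / (1 + x ^ 4) ^ 2

theorem cf_pos {n x : ℝ} (hn : 0 < n) (hx : 0 < x) (m : ℕ) : 0 < cf n x m := by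
  have h0 := c0_pos hn hx
  have h1 := c1_pos hn hx m
  unfold cf
  positivity

theorem char_bound {D : Finset Vtx} (hD : EvenD D) {a b : Vtx} {n x : ℝ} (hn : 0 < n)
    (hx : 0 < x) {m : ℕ} {s s' : ℤ → ℤ} (K : Finset ℤ)
    (hc : ∀ k ∈ K, CutAt D a b m k (s k) (s' k)) (t : ℝ) (F : Finset Edg → ℂ)
    (hF : ∀ ω ∈ Conf D a b, ∀ h ∈ Fam D a b, On h a ω → F (fl h ω) = F ω)
    (hF1 : ∀ ω, ‖F ω‖ ≤ 1) :
    ‖∑ ω ∈ Conf D a b, (weight n x a ω : ℂ) * ex t a ω * F ω‖ ≤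
      Real.exp (-(cf n x m * K.card * Real.sin (2 * t) ^ 2)) * Z n x D a b := by
  refine (char_le hD hn hx t F (Fam D a b) Fam_hyp Fam_disj' hF hF1).trans ?_
  refine (theta_bound hD hn hx K hc (rho_nonneg hx t) (rho_le hx t)).trans (le_of_eq ?_)
  rw [rho_sq hx t]
  congr 2
  unfold cf
  ring

end Pool.Agent.V7H81.ON
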