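import Mathlib
import Pool.Agent.V7H81.ON.Char

/-! Consequences: the fluctuations of the length of the path. -/

set_option autoImplicit false

namespace Pool.Agent.V7H81.ON

open Finset

/-! ### The number of the switchable hexagons -/

/-- the exponent of the tail estimates -/
noncomputable def cA (n x : ℝ) (m : ℕ) : ℝ := c0 n x * c1 n x m / 2

theorem cA_pos {n x : ℝ} (hn : 0 < n) (hx : 0 < x) (m : ℕ) : 0 < cA n x m := by
  have h0 := c0_pos hn hx
  have h1 := c1_pos hn hx m
  unfold cA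
  positivity

section

variable {D : Finset Vtx} {a b : Vtx} {n x : ℝ}

theorem theta_bound' (hD : EvenD D) (hn : 0 < n) (hx : 0 < x) {m : ℕ} {s s' : ℤ → ℤ}
    (K : Finset ℤ) (hc : ∀ k ∈ K, CutAt D a b m k (s k) (s' k)) {r : ℝ} (hr0 : 0 ≤ r)
    (hr1 : r ≤ 1) :
    ∑ ω ∈ Conf D a b, weight n x a ω * r ^ Nn (Fam D a b) a ω ≤
      Real.exp (-(cA n x m * (1 - r) * K.card)) * Z n x D a b := by
  refine (theta_bound hD hn hx K hc hr0 hr1).trans ?_
  refine mul_le_mul_of_nonneg_right ?_ (Z_nonneg hn hx D a b)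
  rw [Real.exp_le_exp, neg_le_neg_iff]
  have h1 : 1 - r ≤ 1 - r ^ 2 := by nlinarith
  have h2 := cA_pos hn hx m
  have h3 : c0 n x * c1 n x m * (1 - r ^ 2) * K.card / 2 = cA n x m * (1 - r ^ 2) * K.card := by
    unfold cA; ring
  rw [h3]
  exact mul_le_mul_of_nonneg_right (mul_le_mul_of_nonneg_left h1 h2.le) (Nat.cast_nonneg _)

open Classical in
/-- Markov's inequality for `r ^ N` -/
theorem markov (hn : 0 < n) (hx : 0 < x) (N : Finset Edg → ℕ) {r E y : ℝ} (hr0 : 1 / 2 ≤ r)
    (h : ∑ ω ∈ Conf D a b, weight n x a ω * r ^ N ω ≤ Real.exp (-E) * Z n x D a b) :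
    ∑ ω ∈ Conf D a b, (if (N ω : ℝ) ≤ y then weight n x a ω else 0) ≤
      Real.exp (y - E) * Z n x D a b := by
  have hr : 0 < r := by linarith
  have h1 : ∀ ω ∈ Conf D a b, (if (N ω : ℝ) ≤ y then weight n x a ω else 0) ≤
      Real.exp y * (weight n x a ω * r ^ N ω) := by
    intro ω _
    have hw := (weight_pos hn hx a ω).le
    split_ifs with h2
    · have h3 : 1 ≤ Real.exp y * r ^ N ω := by
        have h4 : Real.exp (-(N ω : ℝ)) ≤ r ^ N ω := by
          have h5 : Real.exp (-1) ≤ r := by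
            have h6 : Real.exp (-1) ≤ 1 / 2 := by
              have h7 := Real.add_one_le_exp (1 : ℝ)
              rw [Real.exp_neg, inv_le_comm₀ (Real.exp_pos _) (by norm_num)]
              norm_num
              linarith
            linarith
          have h8 : Real.exp (-(N ω : ℝ)) = Real.exp (-1) ^ N ω := by
            rw [← Real.exp_nat_mul]
            congr 1
            ring
          rw [h8]
          exact pow_le_pow_left₀ (Real.exp_pos _).le h5 _
        calc 1 ≤ Real.exp (y + -(N ω : ℝ)) := Real.one_le_exp (by linarith)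
          _ = Real.exp y * Real.exp (-(N ω : ℝ)) := Real.exp_add _ _
          _ ≤ _ := mul_le_mul_of_nonneg_left h4 (Real.exp_pos _).le
      calc weight n x a ω = weight n x a ω * 1 := (mul_one _).symm
        _ ≤ weight n x a ω * (Real.exp y * r ^ N ω) := mul_le_mul_of_nonneg_left h3 hw
        _ = _ := by ring
    · positivity
  refine (sum_le_sum h1).trans ?_
  rw [← mul_sum]
  calc _ ≤ Real.exp y * (Real.exp (-E) * Z n x D a b) :=
        mul_le_mul_of_nonneg_left h (Real.exp_pos _).le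
    _ = _ := by rw [← mul_assoc, ← Real.exp_add]; rfl

open Classical in
theorem sum_fi (hD : EvenD D) {h : Vtx} (hh : h ∈ D) (ha : a ∉ hexV h) (hb : b ∉ hexV h)
    (φ : Finset Edg → ℝ) :
    ∑ ω ∈ Conf D a b, (if Fi h a ω then weight n x a ω * φ ω else 0) =
      ∑ ω ∈ Conf D a b, if On h a ω then x ^ 4 * weight n x a ω * φ (fl h ω) else 0 := by
  rw [← sum_fl hD hh ha hb]
  refine sum_congr rfl fun ω hω => ?_
  have H := Conf.loc hD hω hh ha hb
  by_cases h2 : On h a ω
  · rw [if_pos h2, if_pos ((On.fi H).1 h2), weight_fl H h2]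
  · rw [if_neg h2, if_neg (fun h3 => h2 ((On.fi H).2 h3))]

open Classical in
theorem fi_on_step (hD : EvenD D) {h : Vtx} (hh : h ∈ D) (ha : a ∉ hexV h) (hb : b ∉ hexV h)
    {θ θ' : ℝ} (hθ : θ' - 1 = x ^ 4 * (θ - 1)) (g : Finset Edg → ℝ)
    (hg : ∀ ω ∈ Conf D a b, On h a ω → g (fl h ω) = g ω) :
    ∑ ω ∈ Conf D a b, weight n x a ω * ((if Fi h a ω then θ else 1) * g ω) =
      ∑ ω ∈ Conf D a b, weight n x a ω * ((if On h a ω then θ' else 1) * g ω) := by
  have h1 : ∑ ω ∈ Conf D a b, weight n x a ω * ((if Fi h a ω then θ else 1) * g ω) =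
      ∑ ω ∈ Conf D a b, weight n x a ω * g ω +
      ∑ ω ∈ Conf D a b, (if Fi h a ω then weight n x a ω * ((θ - 1) * g ω) else 0) := by
    rw [← sum_add_distrib]
    refine sum_congr rfl fun ω _ => ?_
    split_ifs
    · ring
    · ring
  have h2 : ∑ ω ∈ Conf D a b, weight n x a ω * ((if On h a ω then θ' else 1) * g ω) =
      ∑ ω ∈ Conf D a b, weight n x a ω * g ω +
      ∑ ω ∈ Conf D a b,
        (if On h a ω then x ^ 4 * weight n x a ω * ((θ - 1) * g (fl h ω)) else 0) := by
    rw [← sum_add_distrib]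
    refine sum_congr rfl fun ω hω => ?_
    split_ifs with h3
    · rw [hg ω hω h3]
      have : θ' = 1 + x ^ 4 * (θ - 1) := by linarith
      rw [this]
      ring
    · ring
  rw [h1, h2, sum_fi hD hh ha hb (fun ω => (θ - 1) * g ω)]

open Classical in
/-- the number of the hexagons which the path meets in five edges -/
noncomputable def Nf (U : Finset Vtx) (a : Vtx) (ω : Finset Edg) : ℕ :=
  (U.filter fun h => Fi h a ω).card

open Classical in
theorem fi_on (hD : EvenD D) {θ θ' : ℝ} (hθ : θ' - 1 = x ^ 4 * (θ - 1)) (C : Finset Vtx)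
    (hC : ∀ h ∈ C, h ∈ D ∧ a ∉ hexV h ∧ b ∉ hexV h)
    (hdis : ∀ h ∈ C, ∀ h' ∈ C, h ≠ h' → Disjoint (hexV h) (hexV h')) :
    ∀ g : Finset Edg → ℝ, (∀ ω ∈ Conf D a b, ∀ h ∈ C, On h a ω → g (fl h ω) = g ω) →
    ∑ ω ∈ Conf D a b, weight n x a ω * ((∏ h ∈ C, if Fi h a ω then θ else 1) * g ω) =
      ∑ ω ∈ Conf D a b, weight n x a ω * ((∏ h ∈ C, if On h a ω then θ' else 1) * g ω) := by
  induction C using Finset.induction_on with
  | empty => intro g _; simp
  | insert h C hk ih =>
    intro g hg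
    obtain ⟨h1, h2, h3⟩ := hC h (mem_insert_self _ _)
    have hne : ∀ h' ∈ C, h ≠ h' := by
      rintro h' hh' rfl
      exact hk hh'
    have e1 : ∀ ω, (∏ h ∈ insert h C, if Fi h a ω then θ else 1) * g ω =
        (if Fi h a ω then θ else 1) * ((∏ h ∈ C, if Fi h a ω then θ else 1) * g ω) := by
      intro ω
      rw [prod_insert hk]
      ring
    have e2 : ∀ ω, (∏ h ∈ insert h C, if On h a ω then θ' else 1) * g ω =
        (∏ h ∈ C, if On h a ω then θ' else 1) * ((if On h a ω then θ' else 1) * g ω) := by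
      intro ω
      rw [prod_insert hk]
      ring
    have e3 : ∀ ω, (if On h a ω then θ' else 1) *
        ((∏ h ∈ C, if Fi h a ω then θ else 1) * g ω) =
        (∏ h ∈ C, if Fi h a ω then θ else 1) * ((if On h a ω then θ' else 1) * g ω) := by
      intro ω
      ring
    simp only [e1, e2]
    rw [fi_on_step hD h1 h2 h3 hθ (fun ω => (∏ h ∈ C, if Fi h a ω then θ else 1) * g ω)]
    · simp only [e3]
      refine ih (fun h' hh' => hC h' (mem_insert_of_mem hh'))
        (fun h1 hh1 h2 hh2 => hdis h1 (mem_insert_of_mem hh1) h2 (mem_insert_of_mem hh2))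
        (fun ω => (if On h a ω then θ' else 1) * g ω) ?_
      intro ω hω h' hh' hs
      obtain ⟨k1, k2, k3⟩ := hC h' (mem_insert_of_mem hh')
      have h4 := on_other (hdis h' (mem_insert_of_mem hh') h (mem_insert_self _ _)
        (hne h' hh').symm) (Conf.loc hD hω k1 k2 k3) hs
      simp only [h4, hg ω hω h' (mem_insert_of_mem hh') hs]
    · intro ω hω hs
      have h5 : ∀ h' ∈ C, (if Fi h' a (fl h ω) then θ else 1) = if Fi h' a ω then θ else 1 := by
        intro h' hh'
        have h4 := fi_other (hdis h (mem_insert_self _ _) h' (mem_insert_of_mem hh') (hne h' hh'))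
          (Conf.loc hD hω h1 h2 h3) hs
        simp only [h4]
      rw [prod_congr rfl h5, hg ω hω h (mem_insert_self _ _) hs]

theorem pow_prod (C : Finset Vtx) (p : Vtx → Prop) [DecidablePred p] (θ : ℝ) :
    ∏ h ∈ C, (if p h then θ else 1) = θ ^ (C.filter p).card := by
  rw [← prod_const, prod_filter]

theorem sum_Nf (hD : EvenD D) {θ θ' : ℝ} (hθ : θ' - 1 = x ^ 4 * (θ - 1)) (C : Finset Vtx)
    (hC : ∀ h ∈ C, h ∈ D ∧ a ∉ hexV h ∧ b ∉ hexV h)
    (hdis : ∀ h ∈ C, ∀ h' ∈ C, h ≠ h' → Disjoint (hexV h) (hexV h')) :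
    ∑ ω ∈ Conf D a b, weight n x a ω * θ ^ Nf C a ω =
      ∑ ω ∈ Conf D a b, weight n x a ω * θ' ^ Nn C a ω := by
  classical
  have h1 := fi_on (n := n) hD hθ C hC hdis (fun _ => 1) (fun _ _ _ _ _ => rfl)
  simp only [mul_one, pow_prod] at h1
  exact h1

/-- there is a configuration with a path which is shorter by four edges for each hexagon met in
five edges -/
theorem shorten (hD : EvenD D) (C : Finset Vtx)
    (hC : ∀ h ∈ C, h ∈ D ∧ a ∉ hexV h ∧ b ∉ hexV h)
    (hdis : ∀ h ∈ C, ∀ h' ∈ C, h ≠ h' → Disjoint (hexV h) (hexV h')) :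
    ∀ ω ∈ Conf D a b, ∃ ω' ∈ Conf D a b, (path a ω').card + 4 * Nf C a ω = (path a ω).card := by
  classical
  induction C using Finset.induction_on with
  | empty => intro ω hω; exact ⟨ω, hω, by simp [Nf]⟩
  | insert h C hk ih =>
    intro ω hω
    have ih' := ih (fun h' hh' => hC h' (mem_insert_of_mem hh'))
      (fun h1 hh1 h2 hh2 => hdis h1 (mem_insert_of_mem hh1) h2 (mem_insert_of_mem hh2))
    obtain ⟨h1, h2, h3⟩ := hC h (mem_insert_self _ _)
    have H := Conf.loc hD hω h1 h2 h3
    have hne : ∀ h' ∈ C, h ≠ h' := by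
      rintro h' hh' rfl
      exact hk hh'
    have hN : Nf (insert h C) a ω = Nf C a ω + if Fi h a ω then 1 else 0 := by
      unfold Nf
      rw [filter_insert]
      split_ifs
      · rw [card_insert_of_notMem (by simp [hk])]
      · rfl
    by_cases hf : Fi h a ω
    · have hon := (Fi.on H).1 hf
      have hωf := Conf.fl hD hω h1 h2 h3
      obtain ⟨ω', hω', h4⟩ := ih' (fl h ω) hωf
      refine ⟨ω', hω', ?_⟩
      have h5 : (path a ω).card = (path a (fl h ω)).card + 4 := by
        have := card_path_fl H.fl hon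
        rwa [fl_fl] at this
      have h6 : Nf C a (fl h ω) = Nf C a ω := by
        unfold Nf
        congr 1
        ext h'
        simp only [mem_filter]
        refine and_congr_right fun hh' => ?_
        have := fi_other (hdis h (mem_insert_self _ _) h' (mem_insert_of_mem hh') (hne h' hh'))
          H.fl hon
        rw [fl_fl] at this
        exact this.symm
      rw [hN, if_pos hf, h5, ← h4, h6]
      ring
    · obtain ⟨ω', hω', h4⟩ := ih' ω hω
      refine ⟨ω', hω', ?_⟩
      rw [hN, if_neg hf, add_zero]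
      exact h4

/-- there is a configuration with a path which is longer by four edges for each hexagon met in
one edge -/
theorem lengthen (hD : EvenD D) (C : Finset Vtx)
    (hC : ∀ h ∈ C, h ∈ D ∧ a ∉ hexV h ∧ b ∉ hexV h)
    (hdis : ∀ h ∈ C, ∀ h' ∈ C, h ≠ h' → Disjoint (hexV h) (hexV h')) :
    ∀ ω ∈ Conf D a b, ∃ ω' ∈ Conf D a b, (path a ω').card = (path a ω).card + 4 * Nn C a ω := by
  classical
  induction C using Finset.induction_on with
  | empty => intro ω hω; exact ⟨ω, hω, by simp [Nn]⟩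
  | insert h C hk ih =>
    intro ω hω
    have ih' := ih (fun h' hh' => hC h' (mem_insert_of_mem hh'))
      (fun h1 hh1 h2 hh2 => hdis h1 (mem_insert_of_mem hh1) h2 (mem_insert_of_mem hh2))
    obtain ⟨h1, h2, h3⟩ := hC h (mem_insert_self _ _)
    have H := Conf.loc hD hω h1 h2 h3
    have hne : ∀ h' ∈ C, h ≠ h' := by
      rintro h' hh' rfl
      exact hk hh'
    have hN : Nn (insert h C) a ω = Nn C a ω + if On h a ω then 1 else 0 := by
      unfold Nn
      rw [filter_insert]
      split_ifs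
      · rw [card_insert_of_notMem (by simp [hk])]
      · rfl
    by_cases hf : On h a ω
    · have hωf := Conf.fl hD hω h1 h2 h3
      obtain ⟨ω', hω', h4⟩ := ih' (fl h ω) hωf
      refine ⟨ω', hω', ?_⟩
      have h5 := card_path_fl H hf
      have h6 : Nn C a (fl h ω) = Nn C a ω := by
        unfold Nn
        congr 1
        ext h'
        simp only [mem_filter]
        refine and_congr_right fun hh' => ?_
        exact on_other (hdis h (mem_insert_self _ _) h' (mem_insert_of_mem hh') (hne h' hh')) H hf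
      rw [hN, if_pos hf, h4, h5, h6]
      ring
    · obtain ⟨ω', hω', h4⟩ := ih' ω hω
      refine ⟨ω', hω', ?_⟩
      rw [hN, if_neg hf, add_zero]
      exact h4

/-- the constant of the tail estimates -/
noncomputable def cB (n x : ℝ) (m : ℕ) : ℝ := cA n x m * min (x ^ 4) 1 / 4

theorem cB_pos (hn : 0 < n) (hx : 0 < x) (m : ℕ) : 0 < cB n x m := by
  have h1 := cA_pos hn hx m
  have h2 : 0 < min (x ^ 4) 1 := lt_min (by positivity) one_pos
  unfold cB
  positivity

open Classical in
theorem tail_on (hD : EvenD D) (hn : 0 < n) (hx : 0 < x) {m : ℕ} {s s' : ℤ → ℤ}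
    (K : Finset ℤ) (hc : ∀ k ∈ K, CutAt D a b m k (s k) (s' k)) :
    ∑ ω ∈ Conf D a b, (if (Nn (Fam D a b) a ω : ℝ) ≤ cB n x m * K.card then
      weight n x a ω else 0) ≤ Real.exp (-(cB n x m * K.card)) * Z n x D a b := by
  have hA := cA_pos hn hx m
  have hB := cB_pos hn hx m
  have hKc : (0 : ℝ) ≤ K.card := Nat.cast_nonneg _
  have h1 := theta_bound' hD hn hx K hc (r := 1 / 2) (by norm_num) (by norm_num)
  have h2 := markov hn hx (Nn (Fam D a b) a) (y := cB n x m * K.card) (le_refl _) h1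
  refine h2.trans (mul_le_mul_of_nonneg_right ?_ (Z_nonneg hn hx D a b))
  rw [Real.exp_le_exp]
  have h3 : cB n x m ≤ cA n x m / 4 := by
    unfold cB
    have : min (x ^ 4) 1 ≤ 1 := min_le_right _ _
    nlinarith
  nlinarith [mul_le_mul_of_nonneg_right h3 hKc]

open Classical in
theorem tail_fi (hD : EvenD D) (hn : 0 < n) (hx : 0 < x) {m : ℕ} {s s' : ℤ → ℤ}
    (K : Finset ℤ) (hc : ∀ k ∈ K, CutAt D a b m k (s k) (s' k)) :
    ∑ ω ∈ Conf D a b, (if (Nf (Fam D a b) a ω : ℝ) ≤ cB n x m * K.card then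
      weight n x a ω else 0) ≤ Real.exp (-(cB n x m * K.card)) * Z n x D a b := by
  have hA := cA_pos hn hx m
  have hB := cB_pos hn hx m
  have hKc : (0 : ℝ) ≤ K.card := Nat.cast_nonneg _
  have hx4 : 0 < x ^ 4 := by positivity
  set q := min (x ^ 4) 1 with hq
  have hq0 : 0 < q := lt_min hx4 one_pos
  have hq1 : q ≤ 1 := min_le_right _ _
  have hqx : q ≤ x ^ 4 := min_le_left _ _
  set θ' := 1 - q / 2 with hθ'
  set θ := 1 - q / (2 * x ^ 4) with hθ
  have e1 : θ' - 1 = x ^ 4 * (θ - 1) := by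
    rw [hθ', hθ]
    field_simp
    ring
  have e2 : q / (2 * x ^ 4) ≤ 1 / 2 := by
    rw [div_le_div_iff₀ (by positivity) (by norm_num)]
    linarith
  have e3 : 0 ≤ q / (2 * x ^ 4) := by positivity
  have h0 := sum_Nf (n := n) hD e1 (Fam D a b) Fam_hyp Fam_disj'
  have h1 := theta_bound' hD hn hx K hc (r := θ') (by rw [hθ']; linarith) (by rw [hθ']; linarith)
  rw [← h0] at h1
  have h2 := markov hn hx (Nf (Fam D a b) a) (y := cB n x m * K.card) (by rw [hθ]; linarith) h1
  refine h2.trans (mul_le_mul_of_nonneg_right ?_ (Z_nonneg hn hx D a b))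
  rw [Real.exp_le_exp]
  have h3 : cA n x m * (1 - θ') * K.card = 2 * (cB n x m * K.card) := by
    rw [hθ']
    unfold cB
    rw [← hq]
    ring
  rw [h3]
  linarith

/-! ### The mean number of switchable hexagons -/

theorem sum_wOn (C : Finset Vtx) :
    ∑ h ∈ C, wOn n x D a b h = ∑ ω ∈ Conf D a b, weight n x a ω * Nn C a ω := by
  classical
  unfold wOn
  rw [sum_comm]
  refine sum_congr rfl fun ω _ => ?_
  unfold Nn
  rw [← sum_filter, sum_const, nsmul_eq_mul, mul_comm]

theorem tch_RU {h a : Vtx} {ω : Finset Edg} (ht : Tch h a ω) : Tch h a (RU {h} ω) := by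
  by_contra hcon
  obtain ⟨p, hp, hc⟩ := ht
  refine hcon ⟨p, hp, no_touch ?_ hc⟩
  intro h' hh'
  rw [mem_singleton] at hh'
  subst hh'
  exact hcon

open Classical in
theorem tch_on (hD : EvenD D) (hn : 0 < n) (hx : 0 < x) {h : Vtx} (hfull : Full D a b h) :
    c0 n x * ∑ ω ∈ Conf D a b, (if Tch h a ω then weight n x a ω else 0) ≤ wOn n x D a b h := by
  have h1 := reveal hD hn hx (U := {h}) (mem_singleton_self h) hfull
    (by
      intro h' hh' hne
      rw [mem_singleton] at hh'
      exact absurd hh' hne)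
    (fun ω => if Tch h a (RU {h} ω) then 1 else 0)
    (fun ω => by split_ifs <;> norm_num)
    (fun ω ω' he => by simp only [he])
    (fun ω hω => by
      by_contra h2
      rw [if_neg h2] at hω
      exact hω rfl)
    (fun ω => On h a ω)
    (fun ω f hf hc => ⟨f, hf, hc.mono (RU_sub _ _)⟩)
  refine le_trans ?_ (h1.trans ?_)
  · refine mul_le_mul_of_nonneg_left (sum_le_sum fun ω _ => ?_) (c0_pos hn hx).le
    have hw := (weight_pos hn hx a ω).le
    split_ifs with h2 h3 h3
    · rw [mul_one]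
    · exact absurd (tch_RU h2) h3
    · rw [mul_one]; exact hw
    · rw [mul_zero]
  · unfold wOn
    refine sum_le_sum fun ω _ => ?_
    have hw := (weight_pos hn hx a ω).le
    split_ifs
    · rw [mul_one]
    · rw [mul_zero]; exact hw
    · exact le_rfl

theorem mean_on (hD : EvenD D) (hn : 0 < n) (hx : 0 < x) {m : ℕ} {s s' : ℤ → ℤ}
    (K : Finset ℤ) (hc : ∀ k ∈ K, CutAt D a b m k (s k) (s' k)) :
    c0 n x * (c1 n x m * K.card) * Z n x D a b ≤ ∑ h ∈ Fam D a b, wOn n x D a b h := by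
  classical
  have h0 := c0_pos hn hx
  have h1 : c0 n x * ∑ ω ∈ Conf D a b, weight n x a ω * Mm (Fam D a b) a ω ≤
      ∑ h ∈ Fam D a b, wOn n x D a b h := by
    have h2 : ∑ ω ∈ Conf D a b, weight n x a ω * Mm (Fam D a b) a ω =
        ∑ h ∈ Fam D a b, ∑ ω ∈ Conf D a b, (if Tch h a ω then weight n x a ω else 0) := by
      rw [sum_comm]
      refine sum_congr rfl fun ω _ => ?_
      unfold Mm
      rw [← sum_filter, sum_const, nsmul_eq_mul, mul_comm]
    rw [h2, mul_sum]
    exact sum_le_sum fun h hh => tch_on hD hn hx (mem_Fam.1 hh).1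
  have h3 : c1 n x m * K.card * Z n x D a b ≤
      ∑ ω ∈ Conf D a b, weight n x a ω * Gn D a b K s s' ω := by
    have h4 : ∑ ω ∈ Conf D a b, weight n x a ω * Gn D a b K s s' ω =
        ∑ k ∈ K, ∑ ω ∈ Conf D a b,
          (if Gd D a b k (s k) (s' k) ω then weight n x a ω * 1 else 0) := by
      rw [sum_comm]
      refine sum_congr rfl fun ω _ => ?_
      unfold Gn
      rw [← sum_filter, sum_const, nsmul_eq_mul, mul_comm, mul_one]
    rw [h4]
    have h5 : ∀ k ∈ K, c1 n x m * Z n x D a b ≤ ∑ ω ∈ Conf D a b,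
        (if Gd D a b k (s k) (s' k) ω then weight n x a ω * 1 else 0) := by
      intro k hk
      have := good_bound hD hn hx (hc k hk) (fun _ => 1) (fun _ => zero_le_one) (fun _ _ => rfl)
      simpa only [mul_one, Z] using this
    calc c1 n x m * K.card * Z n x D a b = ∑ _k ∈ K, c1 n x m * Z n x D a b := by
          rw [sum_const, nsmul_eq_mul]; ring
      _ ≤ _ := sum_le_sum h5
  have h6 : ∑ ω ∈ Conf D a b, weight n x a ω * Gn D a b K s s' ω ≤
      ∑ ω ∈ Conf D a b, weight n x a ω * Mm (Fam D a b) a ω := by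
    refine sum_le_sum fun ω hω => mul_le_mul_of_nonneg_left ?_ (weight_pos hn hx a ω).le
    exact_mod_cast Gn_le hc hω
  calc c0 n x * (c1 n x m * K.card) * Z n x D a b = c0 n x * (c1 n x m * K.card * Z n x D a b) := by
        ring
    _ ≤ c0 n x * ∑ ω ∈ Conf D a b, weight n x a ω * Mm (Fam D a b) a ω :=
        mul_le_mul_of_nonneg_left (h3.trans h6) h0.le
    _ ≤ _ := h1

theorem variance (hD : EvenD D) (hn : 0 < n) (hx : 0 < x) {m : ℕ} {s s' : ℤ → ℤ}
    (K : Finset ℤ) (hc : ∀ k ∈ K, CutAt D a b m k (s k) (s' k)) (y : ℝ) :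
    (16 * x ^ 4 * c0 n x * c1 n x m / (x ^ 4 + 1)) * K.card * Z n x D a b ≤
      ∑ ω ∈ Conf D a b, weight n x a ω * (((path a ω).card : ℝ) - y) ^ 2 := by
  have h1 := variance_bound hn hx hD (Fam D a b) Fam_hyp Fam_disj' y
  have h2 := mean_on hD hn hx K hc
  have hx4 : 0 < x ^ 4 := by positivity
  set V := ∑ ω ∈ Conf D a b, weight n x a ω * (((path a ω).card : ℝ) - y) ^ 2
  have h3 : (16 * x ^ 4 * c0 n x * c1 n x m / (x ^ 4 + 1)) * K.card * Z n x D a b =
      (16 * x ^ 4 * (c0 n x * (c1 n x m * K.card) * Z n x D a b)) / (x ^ 4 + 1) := by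
    field_simp
  rw [h3, div_le_iff₀ (by positivity), mul_comm V]
  refine le_trans ?_ h1
  exact mul_le_mul_of_nonneg_left h2 (by positivity)

end

end Pool.Agent.V7H81.ON
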