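import Mathlib
import Pool.Agent.V7H81.ON.Fluct

/-! The law of the length is smooth in total variation. -/

set_option autoImplicit false

namespace Pool.Agent.V7H81.ON

open Finset

open Classical in
/-- the number of the switchable hexagons -/
noncomputable def Sn (C : Finset Vtx) (a : Vtx) (ω : Finset Edg) : ℕ :=
  (C.filter fun h => On h a ω ∨ Fi h a ω).card

/-- the sum of the test functions -/
noncomputable def GG (x : ℝ) (C : Finset Vtx) (a : Vtx) (ω : Finset Edg) : ℝ :=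
  ∑ h ∈ C, gt x a h ω

/-- the inverse of the number of the switchable hexagons -/
noncomputable def RR (C : Finset Vtx) (a : Vtx) (ω : Finset Edg) : ℝ :=
  (max (Sn C a ω : ℝ) 1)⁻¹

theorem RR_pos (C : Finset Vtx) (a : Vtx) (ω : Finset Edg) : 0 < RR C a ω := by
  unfold RR
  exact inv_pos.2 (lt_of_lt_of_le one_pos (le_max_right _ _))

theorem RR_le (C : Finset Vtx) (a : Vtx) (ω : Finset Edg) : RR C a ω ≤ 1 := by
  unfold RR
  exact inv_le_one_of_one_le₀ (le_max_right _ _)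

theorem Nn_le_Sn (C : Finset Vtx) (a : Vtx) (ω : Finset Edg) : Nn C a ω ≤ Sn C a ω := by
  unfold Nn Sn
  refine card_le_card fun h hh => ?_
  simp only [mem_filter] at hh ⊢
  exact ⟨hh.1, Or.inl hh.2⟩

theorem Nn_RR (C : Finset Vtx) (a : Vtx) (ω : Finset Edg) : (Nn C a ω : ℝ) * RR C a ω ≤ 1 := by
  unfold RR
  rw [← div_eq_mul_inv, div_le_one (lt_of_lt_of_le one_pos (le_max_right _ _))]
  have : (Nn C a ω : ℝ) ≤ Sn C a ω := by exact_mod_cast Nn_le_Sn C a ω
  exact this.trans (le_max_left _ _)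

theorem Sn_RR (C : Finset Vtx) (a : Vtx) (ω : Finset Edg) :
    (Sn C a ω : ℝ) * RR C a ω = 1 - if Sn C a ω = 0 then 1 else 0 := by
  unfold RR
  split_ifs with h
  · rw [h]; simp
  · have h1 : (1 : ℝ) ≤ Sn C a ω := by exact_mod_cast Nat.one_le_iff_ne_zero.2 h
    rw [max_eq_left h1, mul_inv_cancel₀ (by positivity), sub_zero]

theorem Nn_eq (x : ℝ) (C : Finset Vtx) (a : Vtx) (ω : Finset Edg) :
    (1 + x ^ 4) * (Nn C a ω : ℝ) = Sn C a ω + GG x C a ω := by
  classical
  unfold Nn Sn GG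
  rw [card_filter, card_filter]
  push_cast
  rw [mul_sum, ← sum_add_distrib]
  refine sum_congr rfl fun h _ => ?_
  unfold gt
  by_cases h1 : On h a ω
  · rw [if_pos h1, if_pos (Or.inl h1), if_pos h1]
    ring
  · by_cases h2 : Fi h a ω
    · rw [if_neg h1, if_pos (Or.inr h2), if_neg h1, if_pos h2]
      ring
    · rw [if_neg h1, if_neg (by tauto), if_neg h1, if_neg h2]
      ring

section

variable {D : Finset Vtx} {a b : Vtx} {n x : ℝ}

theorem Sn_fl {C : Finset Vtx} (hdis : ∀ h ∈ C, ∀ h' ∈ C, h ≠ h' → Disjoint (hexV h) (hexV h'))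
    {h : Vtx} (hh : h ∈ C) {ω : Finset Edg} (H : Loc h a ω) (hs : On h a ω) :
    Sn C a (fl h ω) = Sn C a ω := by
  classical
  unfold Sn
  congr 1
  ext h'
  simp only [mem_filter]
  refine and_congr_right fun hh' => ?_
  by_cases he : h = h'
  · subst he
    exact ⟨fun _ => Or.inl hs, fun _ => Or.inr ((On.fi H).1 hs)⟩
  · rw [on_other (hdis h hh h' hh' he) H hs, fi_other (hdis h hh h' hh' he) H hs]

theorem RR_fl {C : Finset Vtx} (hdis : ∀ h ∈ C, ∀ h' ∈ C, h ≠ h' → Disjoint (hexV h) (hexV h'))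
    {h : Vtx} (hh : h ∈ C) {ω : Finset Edg} (H : Loc h a ω) (hs : On h a ω) :
    RR C a (fl h ω) = RR C a ω := by
  unfold RR
  rw [Sn_fl hdis hh H hs]

theorem GG_fl {C : Finset Vtx} (hdis : ∀ h ∈ C, ∀ h' ∈ C, h ≠ h' → Disjoint (hexV h) (hexV h'))
    {h : Vtx} (hh : h ∈ C) {ω : Finset Edg} (H : Loc h a ω) (hs : On h a ω) :
    GG x C a ω - GG x C a (fl h ω) = x ^ 4 + 1 := by
  classical
  unfold GG
  rw [← sum_sub_distrib, sum_eq_single h]
  · have h6 : ¬ On h a (fl h ω) := fun h7 => not_on_fi h7 ((On.fi H).1 hs)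
    unfold gt
    rw [if_pos hs, if_neg h6, if_pos ((On.fi H).1 hs)]
    ring
  · intro h' hh' hne
    have hd := hdis h hh h' hh' (Ne.symm hne)
    unfold gt
    simp only [on_other hd H hs, fi_other hd H hs, sub_self]
  · intro h6
    exact absurd hh h6

open Classical in
theorem sum_GG (hD : EvenD D) (C : Finset Vtx) (hC : ∀ h ∈ C, h ∈ D ∧ a ∉ hexV h ∧ b ∉ hexV h)
    (φ ψ : Finset Edg → ℝ)
    (hφ : ∀ ω ∈ Conf D a b, ∀ h ∈ C, On h a ω → φ ω - φ (fl h ω) = ψ ω) :
    ∑ ω ∈ Conf D a b, weight n x a ω * GG x C a ω * φ ω =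
      ∑ ω ∈ Conf D a b, x ^ 4 * weight n x a ω * (Nn C a ω * ψ ω) := by
  have h1 : ∀ ω ∈ Conf D a b, weight n x a ω * GG x C a ω * φ ω =
      ∑ h ∈ C, weight n x a ω * gt x a h ω * φ ω := by
    intro ω _
    unfold GG
    rw [mul_sum, sum_mul]
  have h2 : ∀ ω ∈ Conf D a b, x ^ 4 * weight n x a ω * (Nn C a ω * ψ ω) =
      ∑ h ∈ C, if On h a ω then x ^ 4 * weight n x a ω * ψ ω else 0 := by
    intro ω _
    unfold Nn
    rw [← sum_filter, sum_const, nsmul_eq_mul]
    ring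
  rw [sum_congr rfl h1, sum_congr rfl h2, sum_comm, sum_comm (s := Conf D a b)]
  refine sum_congr rfl fun h hh => ?_
  obtain ⟨k1, k2, k3⟩ := hC h hh
  rw [sum_gt hD k1 k2 k3 φ]
  refine sum_congr rfl fun ω hω => ?_
  split_ifs with h3
  · rw [hφ ω hω h hh h3]
  · rfl

/-- the mean of the inverse of the number of the switchable hexagons -/
theorem mean_RR (hD : EvenD D) (hn : 0 < n) (hx : 0 < x) {m : ℕ} {s s' : ℤ → ℤ}
    (K : Finset ℤ) (hK : K.Nonempty) (hc : ∀ k ∈ K, CutAt D a b m k (s k) (s' k)) :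
    ∑ ω ∈ Conf D a b, weight n x a ω * RR (Fam D a b) a ω ≤
      2 / (cB n x m * K.card) * Z n x D a b := by
  classical
  have hB := cB_pos hn hx m
  have hKc : (0 : ℝ) < K.card := by exact_mod_cast card_pos.2 hK
  have hy : 0 < cB n x m * K.card := by positivity
  set y := cB n x m * K.card with hydef
  have h1 : ∀ ω ∈ Conf D a b, weight n x a ω * RR (Fam D a b) a ω ≤
      1 / y * weight n x a ω + (if (Nn (Fam D a b) a ω : ℝ) ≤ y then weight n x a ω else 0) := by
    intro ω _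
    have hw := (weight_pos hn hx a ω).le
    split_ifs with h2
    · have := RR_le (Fam D a b) a ω
      have h3 : weight n x a ω * RR (Fam D a b) a ω ≤ weight n x a ω * 1 :=
        mul_le_mul_of_nonneg_left this hw
      have h4 : 0 ≤ 1 / y * weight n x a ω := by positivity
      linarith
    · push Not at h2
      have h3 : RR (Fam D a b) a ω ≤ 1 / y := by
        unfold RR
        rw [one_div]
        refine inv_anti₀ hy ?_
        have h4 : (Nn (Fam D a b) a ω : ℝ) ≤ Sn (Fam D a b) a ω := by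
          exact_mod_cast Nn_le_Sn _ a ω
        exact h2.le.trans (h4.trans (le_max_left _ _))
      have := mul_le_mul_of_nonneg_left h3 hw
      linarith
  refine (sum_le_sum h1).trans ?_
  rw [sum_add_distrib, ← mul_sum]
  have h2 := tail_on hD hn hx K hc
  rw [← hydef] at h2
  have h3 : Real.exp (-y) ≤ 1 / y := by
    rw [Real.exp_neg, one_div]
    refine inv_anti₀ hy ?_
    have := Real.add_one_le_exp y
    linarith
  have hZ := Z_nonneg hn hx D a b
  have h4 := h2.trans (mul_le_mul_of_nonneg_right h3 hZ)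
  have h5 : 1 / y * ∑ ω ∈ Conf D a b, weight n x a ω = 1 / y * Z n x D a b := rfl
  rw [h5]
  have h6 : 2 / y * Z n x D a b = 1 / y * Z n x D a b + 1 / y * Z n x D a b := by ring
  rw [h6]
  linarith

/-- Cauchy's inequality with weights -/
theorem cauchy (hn : 0 < n) (hx : 0 < x) (u v : Finset Edg → ℝ) :
    (∑ ω ∈ Conf D a b, weight n x a ω * (u ω * v ω)) ^ 2 ≤
      (∑ ω ∈ Conf D a b, weight n x a ω * u ω ^ 2) *
        ∑ ω ∈ Conf D a b, weight n x a ω * v ω ^ 2 := by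
  have cs := sum_mul_sq_le_sq_mul_sq (Conf D a b) (fun ω => Real.sqrt (weight n x a ω) * u ω)
    (fun ω => Real.sqrt (weight n x a ω) * v ω)
  have h0 := fun ω => (weight_pos hn hx a ω).le
  have s1 : ∀ ω, (Real.sqrt (weight n x a ω) * u ω) * (Real.sqrt (weight n x a ω) * v ω) =
      weight n x a ω * (u ω * v ω) := by
    intro ω
    calc _ = (Real.sqrt (weight n x a ω) * Real.sqrt (weight n x a ω)) * (u ω * v ω) := by ring
      _ = _ := by rw [Real.mul_self_sqrt (h0 ω)]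
  have s2 : ∀ (u : Finset Edg → ℝ) (ω : Finset Edg), (Real.sqrt (weight n x a ω) * u ω) ^ 2 =
      weight n x a ω * u ω ^ 2 := by
    intro u ω
    rw [mul_pow, Real.sq_sqrt (h0 ω)]
  simp only [s1, s2] at cs
  exact cs

/-- the constant of the total variation bound -/
noncomputable def cC (n x : ℝ) (m : ℕ) : ℝ :=
  ((1 + 3 * x ^ 4) * Real.sqrt (x ^ 4 * (x ^ 4 + 1)) / x ^ 4 + 2) * Real.sqrt (2 / cB n x m)

theorem cC_pos (hn : 0 < n) (hx : 0 < x) (m : ℕ) : 0 < cC n x m := by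
  have h1 := cB_pos hn hx m
  unfold cC
  positivity

theorem tv_bound (hD : EvenD D) (hn : 0 < n) (hx : 0 < x) {m : ℕ} {s s' : ℤ → ℤ}
    (K : Finset ℤ) (hK : K.Nonempty) (hc : ∀ k ∈ K, CutAt D a b m k (s k) (s' k))
    (F : Finset Edg → ℝ) (hF : ∀ ω ∈ Conf D a b, ∀ h ∈ Fam D a b, On h a ω → F (fl h ω) = F ω)
    (hF1 : ∀ ω, |F ω| ≤ 1) (g : ℕ → ℝ) (hg : ∀ i, |g i| ≤ 1) :
    |∑ ω ∈ Conf D a b, weight n x a ω *
      (F ω * (g (path a ω).card - g ((path a ω).card + 4)))| ≤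
      cC n x m / Real.sqrt K.card * Z n x D a b := by
  classical
  set C := Fam D a b with hC
  have hB := cB_pos hn hx m
  have hKc : (0 : ℝ) < K.card := by exact_mod_cast card_pos.2 hK
  have hZ := Z_nonneg hn hx D a b
  have hw := fun ω => (weight_pos hn hx a ω).le
  have hx4 : 0 < x ^ 4 := by positivity
  have hloc : ∀ ω ∈ Conf D a b, ∀ h ∈ C, Loc h a ω := by
    intro ω hω h hh
    obtain ⟨k1, k2, k3⟩ := Fam_hyp h hh
    exact Conf.loc hD hω k1 k2 k3
  set Δ : Finset Edg → ℝ := fun ω => g (path a ω).card - g ((path a ω).card + 4) with hΔ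
  have hΔ2 : ∀ ω, |Δ ω| ≤ 2 := by
    intro ω
    simp only [hΔ]
    refine (abs_sub _ _).trans ?_
    have h1 := hg (path a ω).card
    have h2 := hg ((path a ω).card + 4)
    linarith
  set T1 := ∑ ω ∈ Conf D a b, weight n x a ω * (|GG x C a ω| * RR C a ω) with hT1
  set T0 := ∑ ω ∈ Conf D a b, weight n x a ω * (if Sn C a ω = 0 then 1 else 0) with hT0
  set Q := ∑ ω ∈ Conf D a b, weight n x a ω * RR C a ω with hQ
  have hT1n : 0 ≤ T1 := sum_nonneg fun ω _ =>
    mul_nonneg (hw ω) (mul_nonneg (abs_nonneg _) (RR_pos C a ω).le)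
  have hT0n : 0 ≤ T0 := sum_nonneg fun ω _ => mul_nonneg (hw ω) (by split_ifs <;> norm_num)
  have hQn : 0 ≤ Q := sum_nonneg fun ω _ => mul_nonneg (hw ω) (RR_pos C a ω).le
  -- the first identity
  have i1 := sum_GG (n := n) (x := x) hD C Fam_hyp (fun ω => F ω * g (path a ω).card * RR C a ω)
    (fun ω => F ω * Δ ω * RR C a ω) (by
      intro ω hω h hh hs
      simp only [hΔ]
      rw [hF ω hω h hh hs, RR_fl Fam_disj' hh (hloc ω hω h hh) hs,
        card_path_fl (hloc ω hω h hh) hs]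
      ring)
  -- the second identity
  have i2 := sum_GG (n := n) (x := x) hD C Fam_hyp (fun ω => GG x C a ω * RR C a ω)
    (fun ω => (x ^ 4 + 1) * RR C a ω) (by
      intro ω hω h hh hs
      rw [RR_fl Fam_disj' hh (hloc ω hω h hh) hs, ← sub_mul,
        GG_fl Fam_disj' hh (hloc ω hω h hh) hs])
  -- the bound of `T1`
  have b1 : T1 ^ 2 ≤ (x ^ 4 * (x ^ 4 + 1) * Z n x D a b) * Q := by
    have c1 := cauchy (D := D) (a := a) (b := b) hn hx
      (fun ω => |GG x C a ω| * Real.sqrt (RR C a ω)) (fun ω => Real.sqrt (RR C a ω))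
    have c2 : ∀ ω, (|GG x C a ω| * Real.sqrt (RR C a ω)) * Real.sqrt (RR C a ω) =
        |GG x C a ω| * RR C a ω := by
      intro ω
      rw [mul_assoc, Real.mul_self_sqrt (RR_pos C a ω).le]
    have c3 : ∀ ω, (|GG x C a ω| * Real.sqrt (RR C a ω)) ^ 2 = GG x C a ω * (GG x C a ω * RR C a ω) := by
      intro ω
      rw [mul_pow, Real.sq_sqrt (RR_pos C a ω).le, sq_abs]
      ring
    have c4 : ∀ ω, Real.sqrt (RR C a ω) ^ 2 = RR C a ω := fun ω =>
      Real.sq_sqrt (RR_pos C a ω).le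
    simp only [c2, c3, c4] at c1
    refine c1.trans (mul_le_mul_of_nonneg_right ?_ hQn)
    have c5 : ∑ ω ∈ Conf D a b, weight n x a ω * (GG x C a ω * (GG x C a ω * RR C a ω)) =
        ∑ ω ∈ Conf D a b, weight n x a ω * GG x C a ω * (GG x C a ω * RR C a ω) :=
      sum_congr rfl fun ω _ => by ring
    rw [c5, i2]
    unfold Z
    rw [mul_sum]
    refine sum_le_sum fun ω _ => ?_
    have c6 := Nn_RR C a ω
    calc x ^ 4 * weight n x a ω * (Nn C a ω * ((x ^ 4 + 1) * RR C a ω)) =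
        (x ^ 4 * (x ^ 4 + 1) * weight n x a ω) * (Nn C a ω * RR C a ω) := by ring
      _ ≤ (x ^ 4 * (x ^ 4 + 1) * weight n x a ω) * 1 := by
        refine mul_le_mul_of_nonneg_left c6 ?_
        have := hw ω
        positivity
      _ = _ := by ring
  -- the bound of `T0`
  have b0 : T0 ^ 2 ≤ Z n x D a b * Q := by
    have c1 : T0 ≤ Z n x D a b := by
      refine sum_le_sum fun ω _ => ?_
      have := hw ω
      split_ifs
      · rw [mul_one]
      · rw [mul_zero]; exact this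
    have c2 : T0 ≤ Q := by
      refine sum_le_sum fun ω _ => mul_le_mul_of_nonneg_left ?_ (hw ω)
      split_ifs with h1
      · unfold RR
        rw [h1]
        simp
      · exact (RR_pos C a ω).le
    rw [pow_two]
    exact mul_le_mul c1 c2 hT0n hZ
  -- the bound of `Q`
  have b2 : Q ≤ 2 / (cB n x m * K.card) * Z n x D a b := mean_RR hD hn hx K hK hc
  set ε := 2 / (cB n x m * K.card) with hε
  have hε0 : 0 < ε := by positivity
  have b3 : T1 ≤ Real.sqrt (x ^ 4 * (x ^ 4 + 1)) * Real.sqrt ε * Z n x D a b := by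
    refine abs_le_of_sq_le_sq' ?_ (by positivity) |>.2
    calc T1 ^ 2 ≤ (x ^ 4 * (x ^ 4 + 1) * Z n x D a b) * Q := b1
      _ ≤ (x ^ 4 * (x ^ 4 + 1) * Z n x D a b) * (ε * Z n x D a b) :=
        mul_le_mul_of_nonneg_left b2 (by positivity)
      _ = _ := by
        rw [mul_pow, mul_pow, Real.sq_sqrt (by positivity), Real.sq_sqrt hε0.le]
        ring
  have b4 : T0 ≤ Real.sqrt ε * Z n x D a b := by
    refine abs_le_of_sq_le_sq' ?_ (by positivity) |>.2
    calc T0 ^ 2 ≤ Z n x D a b * Q := b0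
      _ ≤ Z n x D a b * (ε * Z n x D a b) := mul_le_mul_of_nonneg_left b2 hZ
      _ = _ := by
        rw [mul_pow, Real.sq_sqrt hε0.le]
        ring
  -- the decomposition
  set A := ∑ ω ∈ Conf D a b, weight n x a ω * (F ω * Δ ω) with hA
  set A1 := ∑ ω ∈ Conf D a b, weight n x a ω * GG x C a ω * (F ω * g (path a ω).card * RR C a ω)
    with hA1
  set A2 := ∑ ω ∈ Conf D a b, weight n x a ω * (F ω * Δ ω * (GG x C a ω * RR C a ω)) with hA2
  set A3 := ∑ ω ∈ Conf D a b, weight n x a ω * (F ω * Δ ω * (if Sn C a ω = 0 then 1 else 0))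
    with hA3
  have dec : x ^ 4 * A = (1 + x ^ 4) * A1 - x ^ 4 * A2 + x ^ 4 * A3 := by
    rw [i1, hA, hA2, hA3, mul_sum, mul_sum, mul_sum, mul_sum, ← sum_sub_distrib,
      ← sum_add_distrib]
    refine sum_congr rfl fun ω _ => ?_
    have e1 := Nn_eq x C a ω
    have e2 := Sn_RR C a ω
    linear_combination (x ^ 4 * weight n x a ω * F ω * Δ ω) * (-e2) -
      (x ^ 4 * weight n x a ω * F ω * Δ ω * RR C a ω) * e1
  have m1 : |A1| ≤ T1 := by
    refine (abs_sum_le_sum_abs _ _).trans (sum_le_sum fun ω _ => ?_)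
    rw [abs_mul, abs_mul, abs_of_nonneg (hw ω), abs_mul, abs_mul, abs_of_pos (RR_pos C a ω),
      mul_assoc]
    refine mul_le_mul_of_nonneg_left ?_ (hw ω)
    refine mul_le_mul_of_nonneg_left ?_ (abs_nonneg _)
    calc |F ω| * |g (path a ω).card| * RR C a ω ≤ 1 * RR C a ω := by
          refine mul_le_mul_of_nonneg_right ?_ (RR_pos C a ω).le
          exact mul_le_one₀ (hF1 ω) (abs_nonneg _) (hg _)
      _ = _ := one_mul _
  have hFΔ : ∀ ω, |F ω * Δ ω| ≤ 2 := by
    intro ω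
    rw [abs_mul]
    calc |F ω| * |Δ ω| ≤ 1 * 2 := mul_le_mul (hF1 ω) (hΔ2 ω) (abs_nonneg _) zero_le_one
      _ = 2 := by norm_num
  have m2 : |A2| ≤ 2 * T1 := by
    rw [hT1, mul_sum]
    refine (abs_sum_le_sum_abs _ _).trans (sum_le_sum fun ω _ => ?_)
    rw [abs_mul, abs_of_nonneg (hw ω), abs_mul, abs_mul (GG x C a ω), abs_of_pos (RR_pos C a ω)]
    have h1 : 0 ≤ |GG x C a ω| * RR C a ω := mul_nonneg (abs_nonneg _) (RR_pos C a ω).le
    have h2 := mul_le_mul_of_nonneg_right (hFΔ ω) h1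
    have h3 := mul_le_mul_of_nonneg_left h2 (hw ω)
    linarith
  have m3 : |A3| ≤ 2 * T0 := by
    rw [hT0, mul_sum]
    refine (abs_sum_le_sum_abs _ _).trans (sum_le_sum fun ω _ => ?_)
    rw [abs_mul, abs_of_nonneg (hw ω), abs_mul]
    have h1 : |(if Sn C a ω = 0 then (1 : ℝ) else 0)| = if Sn C a ω = 0 then (1 : ℝ) else 0 := by
      split_ifs <;> simp
    rw [h1]
    have h0 : (0 : ℝ) ≤ if Sn C a ω = 0 then (1 : ℝ) else 0 := by split_ifs <;> norm_num
    have h2 := mul_le_mul_of_nonneg_right (hFΔ ω) h0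
    have h3 := mul_le_mul_of_nonneg_left h2 (hw ω)
    linarith
  have fin1 : x ^ 4 * |A| ≤ (1 + 3 * x ^ 4) * T1 + 2 * x ^ 4 * T0 := by
    have h1 : x ^ 4 * |A| = |x ^ 4 * A| := by rw [abs_mul, abs_of_pos hx4]
    rw [h1, dec]
    calc |(1 + x ^ 4) * A1 - x ^ 4 * A2 + x ^ 4 * A3| ≤
        |(1 + x ^ 4) * A1 - x ^ 4 * A2| + |x ^ 4 * A3| := abs_add_le _ _
      _ ≤ |(1 + x ^ 4) * A1| + |x ^ 4 * A2| + |x ^ 4 * A3| := by
        have := abs_sub ((1 + x ^ 4) * A1) (x ^ 4 * A2)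
        linarith
      _ = (1 + x ^ 4) * |A1| + x ^ 4 * |A2| + x ^ 4 * |A3| := by
        rw [abs_mul, abs_mul, abs_mul, abs_of_pos hx4, abs_of_pos (by positivity : 0 < 1 + x ^ 4)]
      _ ≤ (1 + x ^ 4) * T1 + x ^ 4 * (2 * T1) + x ^ 4 * (2 * T0) := by
        have k1 := mul_le_mul_of_nonneg_left m1 (by positivity : 0 ≤ 1 + x ^ 4)
        have k2 := mul_le_mul_of_nonneg_left m2 hx4.le
        have k3 := mul_le_mul_of_nonneg_left m3 hx4.le
        linarith
      _ = _ := by ring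
  have hsq : Real.sqrt ε = Real.sqrt (2 / cB n x m) / Real.sqrt K.card := by
    rw [hε, ← Real.sqrt_div (by positivity), div_div]
  have fin2 : x ^ 4 * |A| ≤ x ^ 4 * (cC n x m / Real.sqrt K.card * Z n x D a b) := by
    calc x ^ 4 * |A| ≤ (1 + 3 * x ^ 4) * T1 + 2 * x ^ 4 * T0 := fin1
      _ ≤ (1 + 3 * x ^ 4) * (Real.sqrt (x ^ 4 * (x ^ 4 + 1)) * Real.sqrt ε * Z n x D a b) +
          2 * x ^ 4 * (Real.sqrt ε * Z n x D a b) := by
        have k1 := mul_le_mul_of_nonneg_left b3 (by positivity : 0 ≤ 1 + 3 * x ^ 4)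
        have k2 := mul_le_mul_of_nonneg_left b4 (by positivity : 0 ≤ 2 * x ^ 4)
        linarith
      _ = _ := by
        rw [hsq]
        unfold cC
        field_simp
  exact le_of_mul_le_mul_left fin2 hx4

/-- the law of the length has small atoms -/
theorem atom_bound (hD : EvenD D) (hn : 0 < n) (hx : 0 < x) {m : ℕ} {s s' : ℤ → ℤ}
    (K : Finset ℤ) (hK : K.Nonempty) (hc : ∀ k ∈ K, CutAt D a b m k (s k) (s' k)) (j : ℕ) :
    ∑ ω ∈ Conf D a b, weight n x a ω * (if (path a ω).card = j then 1 else 0) ≤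
      cC n x m / Real.sqrt K.card * Z n x D a b := by
  have h1 := tv_bound hD hn hx K hK hc (fun _ => 1) (fun _ _ _ _ _ => rfl) (fun _ => by simp)
    (fun i => if i ≤ j ∧ 4 ∣ j - i then 1 else 0) (fun i => by split_ifs <;> simp)
  refine le_trans (le_of_eq ?_) ((le_abs_self _).trans h1)
  refine sum_congr rfl fun ω _ => ?_
  congr 1
  rw [one_mul]
  generalize (path a ω).card = l
  by_cases h2 : l = j
  · subst h2
    simp
  · rw [if_neg h2]
    by_cases h3 : l ≤ j ∧ 4 ∣ j - l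
    · have h4 : l + 4 ≤ j ∧ 4 ∣ j - (l + 4) := by omega
      rw [if_pos h3, if_pos h4]
      norm_num
    · have h4 : ¬ (l + 4 ≤ j ∧ 4 ∣ j - (l + 4)) := by omega
      rw [if_neg h3, if_neg h4]
      norm_num

end

end Pool.Agent.V7H81.ON
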