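import Mathlib
import Pool.Agent.V7H81.ON.Tv

/-! The binomial mixture formula for the length of the path. -/

set_option autoImplicit false

namespace Pool.Agent.V7H81.ON

open Finset

/-- the binomial mean of `φ` -/
noncomputable def Bm (p : ℝ) (N : ℕ) (φ : ℕ → ℝ) : ℝ :=
  ∑ k ∈ range (N + 1), (N.choose k : ℝ) * p ^ k * (1 - p) ^ (N - k) * φ k

theorem Bm_zero (p : ℝ) (φ : ℕ → ℝ) : Bm p 0 φ = φ 0 := by
  simp [Bm]

theorem Bm_succ (p : ℝ) (N : ℕ) (φ : ℕ → ℝ) :
    Bm p (N + 1) φ = (1 - p) * Bm p N φ + p * Bm p N (fun k => φ (k + 1)) := by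
  unfold Bm
  rw [sum_range_succ']
  have h1 : ∀ k ∈ range (N + 1), ((N + 1).choose (k + 1) : ℝ) * p ^ (k + 1) *
      (1 - p) ^ (N + 1 - (k + 1)) * φ (k + 1) =
      p * ((N.choose k : ℝ) * p ^ k * (1 - p) ^ (N - k) * φ (k + 1)) +
      (N.choose (k + 1) : ℝ) * p ^ (k + 1) * (1 - p) ^ (N - k) * φ (k + 1) := by
    intro k _
    rw [Nat.choose_succ_succ, Nat.add_sub_add_right]
    push_cast
    ring
  rw [sum_congr rfl h1, sum_add_distrib, ← mul_sum, add_assoc, add_comm]
  congr 1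
  rw [mul_sum, sum_range_succ (fun k => (N.choose (k + 1) : ℝ) * p ^ (k + 1) *
    (1 - p) ^ (N - k) * φ (k + 1)), sum_range_succ' (fun k => (1 - p) *
    ((N.choose k : ℝ) * p ^ k * (1 - p) ^ (N - k) * φ k))]
  have h2 : (N.choose (N + 1) : ℝ) = 0 := by
    rw [Nat.choose_succ_self]; simp
  rw [h2]
  have h3 : ∀ k ∈ range N, (N.choose (k + 1) : ℝ) * p ^ (k + 1) * (1 - p) ^ (N - k) * φ (k + 1) =
      (1 - p) * ((N.choose (k + 1) : ℝ) * p ^ (k + 1) * (1 - p) ^ (N - (k + 1)) * φ (k + 1)) := by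
    intro k hk
    rw [mem_range] at hk
    have : N - k = (N - (k + 1)) + 1 := by omega
    rw [this, pow_succ]
    ring
  rw [sum_congr rfl h3]
  simp only [Nat.choose_zero_right, Nat.cast_one, pow_zero, one_mul, Nat.sub_zero, mul_one]
  rw [pow_succ]
  ring

/-- the probability of the long state of a switchable hexagon -/
noncomputable def pp (x : ℝ) : ℝ := x ^ 4 / (1 + x ^ 4)

section

variable {D : Finset Vtx} {a b : Vtx} {n x : ℝ}

open Classical in
theorem single (hD : EvenD D) (hx : 0 < x) {h : Vtx} (hh : h ∈ D) (ha : a ∉ hexV h)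
    (hb : b ∉ hexV h) (G0 G1 : Finset Edg → ℝ)
    (h0 : ∀ ω ∈ Conf D a b, On h a ω → G0 (fl h ω) = G0 ω)
    (h1 : ∀ ω ∈ Conf D a b, On h a ω → G1 (fl h ω) = G1 ω) :
    ∑ ω ∈ Conf D a b, weight n x a ω *
      ((if Fi h a ω then G1 ω else 0) + (if On h a ω then G0 ω else 0)) =
    ∑ ω ∈ Conf D a b, weight n x a ω *
      (if On h a ω ∨ Fi h a ω then (1 - pp x) * G0 ω + pp x * G1 ω else 0) := by
  have hx4 : (1 + x ^ 4 : ℝ) ≠ 0 := by positivity
  have f1 := sum_fi (n := n) (x := x) hD hh ha hb G1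
  have f2 := sum_fi (n := n) (x := x) hD hh ha hb (fun ω => (1 - pp x) * G0 ω + pp x * G1 ω)
  have e1 : ∑ ω ∈ Conf D a b, weight n x a ω *
      ((if Fi h a ω then G1 ω else 0) + (if On h a ω then G0 ω else 0)) =
      ∑ ω ∈ Conf D a b, (if Fi h a ω then weight n x a ω * G1 ω else 0) +
      ∑ ω ∈ Conf D a b, (if On h a ω then weight n x a ω * G0 ω else 0) := by
    rw [← sum_add_distrib]
    refine sum_congr rfl fun ω _ => ?_
    split_ifs <;> ring
  have e2 : ∑ ω ∈ Conf D a b, weight n x a ω *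
      (if On h a ω ∨ Fi h a ω then (1 - pp x) * G0 ω + pp x * G1 ω else 0) =
      ∑ ω ∈ Conf D a b,
        (if Fi h a ω then weight n x a ω * ((1 - pp x) * G0 ω + pp x * G1 ω) else 0) +
      ∑ ω ∈ Conf D a b,
        (if On h a ω then weight n x a ω * ((1 - pp x) * G0 ω + pp x * G1 ω) else 0) := by
    rw [← sum_add_distrib]
    refine sum_congr rfl fun ω _ => ?_
    by_cases h2 : On h a ω
    · have h3 : ¬ Fi h a ω := fun h3 => not_on_fi h2 h3
      rw [if_pos (Or.inl h2), if_pos h2, if_neg h3, zero_add]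
    · by_cases h3 : Fi h a ω
      · rw [if_pos (Or.inr h3), if_pos h3, if_neg h2, add_zero]
      · rw [if_neg (by tauto), if_neg h3, if_neg h2]
        ring
  rw [e1, e2, f1, f2, ← sum_add_distrib, ← sum_add_distrib]
  refine sum_congr rfl fun ω hω => ?_
  split_ifs with h2
  · rw [h0 ω hω h2, h1 ω hω h2]
    unfold pp
    field_simp
    ring
  · rfl

theorem Bm_ite (p : ℝ) (N : ℕ) (c : Prop) [Decidable c] (φ : ℕ → ℝ) :
    Bm p N (fun k => if c then φ k else 0) = if c then Bm p N φ else 0 := by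
  split_ifs with h
  · rfl
  · simp [Bm]

open Classical in
theorem mixture (hD : EvenD D) (hx : 0 < x) (C : Finset Vtx)
    (hC : ∀ h ∈ C, h ∈ D ∧ a ∉ hexV h ∧ b ∉ hexV h)
    (hdis : ∀ h ∈ C, ∀ h' ∈ C, h ≠ h' → Disjoint (hexV h) (hexV h')) :
    ∀ Φ : Finset Edg → ℕ → ℝ,
      (∀ ω ∈ Conf D a b, ∀ h ∈ C, On h a ω → ∀ k, Φ (fl h ω) k = Φ ω k) →
    ∑ ω ∈ Conf D a b, weight n x a ω * Φ ω (Nf C a ω) =
      ∑ ω ∈ Conf D a b, weight n x a ω * Bm (pp x) (Sn C a ω) (Φ ω) := by
  induction C using Finset.induction_on with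
  | empty =>
    intro Φ _
    simp [Nf, Sn, Bm_zero]
  | insert h C hk ih =>
    intro Φ hF
    have ih' := ih (fun h' hh' => hC h' (mem_insert_of_mem hh'))
      (fun h1 hh1 h2 hh2 => hdis h1 (mem_insert_of_mem hh1) h2 (mem_insert_of_mem hh2))
    obtain ⟨h1, h2, h3⟩ := hC h (mem_insert_self _ _)
    have hne : ∀ h' ∈ C, h ≠ h' := by
      rintro h' hh' rfl
      exact hk hh'
    have hd : ∀ h' ∈ C, Disjoint (hexV h) (hexV h') := fun h' hh' =>
      hdis h (mem_insert_self _ _) h' (mem_insert_of_mem hh') (hne h' hh')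
    have hFC : ∀ ω ∈ Conf D a b, ∀ h' ∈ C, On h' a ω → ∀ k, Φ (fl h' ω) k = Φ ω k :=
      fun ω hω h' hh' => hF ω hω h' (mem_insert_of_mem hh')
    have hN : ∀ ω, Nf (insert h C) a ω = Nf C a ω + if Fi h a ω then 1 else 0 := by
      intro ω
      unfold Nf
      rw [filter_insert]
      split_ifs
      · rw [card_insert_of_notMem (by simp [hk])]
      · rfl
    have hS : ∀ ω, Sn (insert h C) a ω = Sn C a ω + if On h a ω ∨ Fi h a ω then 1 else 0 := by
      intro ω
      unfold Sn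
      rw [filter_insert]
      split_ifs
      · rw [card_insert_of_notMem (by simp [hk])]
      · rfl
    have hinv : ∀ ω ∈ Conf D a b, ∀ h' ∈ C, On h' a ω →
        (On h a (fl h' ω) ↔ On h a ω) ∧ (Fi h a (fl h' ω) ↔ Fi h a ω) := by
      intro ω hω h' hh' hs
      obtain ⟨k1, k2, k3⟩ := hC h' (mem_insert_of_mem hh')
      exact ⟨on_other (hd h' hh').symm (Conf.loc hD hω k1 k2 k3) hs,
        fi_other (hd h' hh').symm (Conf.loc hD hω k1 k2 k3) hs⟩
    have hSfl : ∀ ω ∈ Conf D a b, On h a ω → Sn C a (fl h ω) = Sn C a ω := by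
      intro ω hω hs
      unfold Sn
      congr 1
      ext h'
      simp only [mem_filter]
      refine and_congr_right fun hh' => ?_
      rw [on_other (hd h' hh') (Conf.loc hD hω h1 h2 h3) hs,
        fi_other (hd h' hh') (Conf.loc hD hω h1 h2 h3) hs]
    -- split
    have i0 := ih' (fun ω k => if ¬ (On h a ω ∨ Fi h a ω) then Φ ω k else 0) (by
      intro ω hω h' hh' hs k
      obtain ⟨k1, k2⟩ := hinv ω hω h' hh' hs
      simp only [k1, k2, hFC ω hω h' hh' hs])
    have i1 := ih' (fun ω k => if On h a ω then Φ ω k else 0) (by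
      intro ω hω h' hh' hs k
      obtain ⟨k1, k2⟩ := hinv ω hω h' hh' hs
      simp only [k1, hFC ω hω h' hh' hs])
    have i2 := ih' (fun ω k => if Fi h a ω then Φ ω (k + 1) else 0) (by
      intro ω hω h' hh' hs k
      obtain ⟨k1, k2⟩ := hinv ω hω h' hh' hs
      simp only [k2, hFC ω hω h' hh' hs])
    have hF' := fun ω hω hs => hF ω hω h (mem_insert_self _ _) hs
    have hBfl : ∀ ω ∈ Conf D a b, On h a ω → ∀ r, Bm (pp x) (Sn C a (fl h ω))
        (fun k => Φ (fl h ω) (k + r)) = Bm (pp x) (Sn C a ω) (fun k => Φ ω (k + r)) := by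
      intro ω hω hs r
      rw [hSfl ω hω hs]
      congr 1
      funext k
      exact hF' ω hω hs (k + r)
    have i3 := single (n := n) hD hx h1 h2 h3 (fun ω => Bm (pp x) (Sn C a ω) (Φ ω))
      (fun ω => Bm (pp x) (Sn C a ω) (fun k => Φ ω (k + 1)))
      (fun ω hω hs => hBfl ω hω hs 0)
      (fun ω hω hs => hBfl ω hω hs 1)
    have e1 : ∑ ω ∈ Conf D a b, weight n x a ω * Φ ω (Nf (insert h C) a ω) =
        ∑ ω ∈ Conf D a b, weight n x a ω *
          (if ¬ (On h a ω ∨ Fi h a ω) then Φ ω (Nf C a ω) else 0) +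
        ∑ ω ∈ Conf D a b, weight n x a ω * (if On h a ω then Φ ω (Nf C a ω) else 0) +
        ∑ ω ∈ Conf D a b, weight n x a ω * (if Fi h a ω then Φ ω (Nf C a ω + 1) else 0) := by
      rw [← sum_add_distrib, ← sum_add_distrib]
      refine sum_congr rfl fun ω _ => ?_
      rw [hN]
      by_cases k1 : On h a ω
      · have k2 : ¬ Fi h a ω := fun k2 => not_on_fi k1 k2
        have k3 : ¬ ¬ (On h a ω ∨ Fi h a ω) := by tauto
        rw [if_neg k3, if_pos k1, if_neg k2, if_neg k2, add_zero]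
        ring
      · by_cases k2 : Fi h a ω
        · have k3 : ¬ ¬ (On h a ω ∨ Fi h a ω) := by tauto
          rw [if_neg k3, if_neg k1, if_pos k2, if_pos k2]
          ring
        · have k3 : ¬ (On h a ω ∨ Fi h a ω) := by tauto
          rw [if_pos k3, if_neg k1, if_neg k2, if_neg k2, add_zero]
          ring
    simp only [Bm_ite] at i0 i1 i2
    rw [e1, i0, i1, i2]
    have e2 : ∑ ω ∈ Conf D a b, weight n x a ω *
          (if On h a ω then Bm (pp x) (Sn C a ω) (Φ ω) else 0) +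
        ∑ ω ∈ Conf D a b, weight n x a ω *
          (if Fi h a ω then Bm (pp x) (Sn C a ω) (fun k => Φ ω (k + 1)) else 0) =
        ∑ ω ∈ Conf D a b, weight n x a ω *
          ((if Fi h a ω then Bm (pp x) (Sn C a ω) (fun k => Φ ω (k + 1)) else 0) +
            (if On h a ω then Bm (pp x) (Sn C a ω) (Φ ω) else 0)) := by
      rw [← sum_add_distrib]
      refine sum_congr rfl fun ω _ => ?_
      ring
    rw [add_assoc, e2, i3, ← sum_add_distrib]
    refine sum_congr rfl fun ω _ => ?_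
    rw [hS]
    by_cases k1 : On h a ω ∨ Fi h a ω
    · rw [if_neg (not_not.2 k1), if_pos k1, if_pos k1, Bm_succ]
      ring
    · rw [if_pos k1, if_neg k1, if_neg k1, add_zero]
      ring

end

end Pool.Agent.V7H81.ON
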