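import Mathlib
import Pool.Agent.V7H81.ON.Mixture

/-! The number of flowers which the path meets is at least a multiple of its length in the
interior of the domain. -/

set_option autoImplicit false

namespace Pool.Agent.V7H81.ON

open Finset

/-- a component of the complement of the flowers -/
def S0 : Finset Vtx := {(5, 1), (5, 2), (4, 2), (6, 2), (4, 3), (6, 3), (5, 3), (5, 4)}

/-- the neighbouring flowers of `S0` -/
def G4 : Finset Vtx := {(0, 0), (8, 0), (0, 4), (8, 4)}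

theorem fact_cell : ∀ x ∈ Finset.Icc (-2 : ℤ) 5, ∀ y ∈ Finset.Icc (-1 : ℤ) 2,
    (x, y) ∈ P0 ∨ ∃ g ∈ G4, ((x, y) : Vtx) + g ∈ S0 := by decide

theorem fact_exit : ∀ u ∈ S0, ∀ e ∈ [e1 u, e2 u, e3 u], ∀ w ∈ [src e, tgt e], w ∈ S0 ∨
    ∃ g ∈ G4, w - g ∈ P0 := by decide

theorem fact_S0 : ∀ u ∈ S0, 4 ≤ u.1 ∧ u.1 ≤ 6 ∧ 1 ≤ u.2 ∧ u.2 ≤ 4 := by decide

theorem fact_G4 : ∀ g ∈ G4, (g.1 = 0 ∨ g.1 = 8) ∧ (g.2 = 0 ∨ g.2 = 4) := by decide

variable {D : Finset Vtx} {a b : Vtx}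

theorem not_a_near {v : Vtx} (hv : DeepV D a b v) (h1 : |a.1 - v.1| ≤ 11) (h2 : |a.2 - v.2| ≤ 6) :
    False := by
  rw [abs_le] at h1 h2
  have h3 : ∃ h : Vtx, Even (h.1 + h.2) ∧ |h.1 - v.1| ≤ 12 ∧ |h.2 - v.2| ≤ 6 ∧ a ∈ hexV h := by
    by_cases he : Even (a.1 + a.2)
    · refine ⟨a, he, ?_, ?_, ?_⟩
      · rw [abs_le]; omega
      · rw [abs_le]; omega
      · rw [mem_hexV]; omega
    · refine ⟨(a.1 - 1, a.2), ?_, ?_, ?_, ?_⟩
      · rw [Int.even_iff] at he ⊢
        simp only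
        omega
      · rw [abs_le]; simp only; omega
      · rw [abs_le]; simp only; omega
      · rw [mem_hexV]
        exact ⟨Or.inr (Or.inl (by simp)), Or.inl rfl⟩
  obtain ⟨h, k1, k2, k3, k4⟩ := h3
  exact (hv h k1 k2 k3).2.1 k4

/-- a deep vertex of the path is near a flower which the path meets -/
theorem near_flower (hD : EvenD D) {ω : Finset Edg} (hω : ω ∈ Conf D a b) {v : Vtx}
    (hv : DeepV D a b v) (hc : Conn ω a v) :
    ∃ h ∈ Fam D a b, Tch h a ω ∧ |h.1 - v.1| ≤ 8 ∧ |h.2 - v.2| ≤ 5 := by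
  obtain ⟨i, j⟩ := v
  obtain ⟨k, hk1, hk2⟩ : ∃ k : ℤ, 8 * k - 2 ≤ i ∧ i ≤ 8 * k + 5 :=
    ⟨(i + 2) / 8, by omega, by omega⟩
  obtain ⟨l, hl1, hl2⟩ : ∃ l : ℤ, 4 * l - 1 ≤ j ∧ j ≤ 4 * l + 2 :=
    ⟨(j + 1) / 4, by omega, by omega⟩
  have hFam : ∀ k' l' : ℤ, |8 * k' - i| ≤ 8 → |4 * l' - j| ≤ 5 →
      ((8 * k', 4 * l') : Vtx) ∈ Fam D a b := by
    intro k' l' q1 q2
    rw [mem_Fam]
    refine ⟨hv.full ?_ q1 q2, Dvd.intro k' rfl, Dvd.intro l' rfl⟩
    have : ((8 * k', 4 * l') : Vtx).1 + ((8 * k', 4 * l') : Vtx).2 = 2 * (4 * k' + 2 * l') := by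
      simp only; ring
    rw [this]
    exact even_two_mul _
  rcases fact_cell (i - 8 * k) (Finset.mem_Icc.2 ⟨by omega, by omega⟩) (j - 4 * l)
    (Finset.mem_Icc.2 ⟨by omega, by omega⟩) with h1 | ⟨g, hg, h1⟩
  · refine ⟨(8 * k, 4 * l), hFam k l ?_ ?_, ⟨(i, j), ?_, hc⟩, ?_, ?_⟩
    · rw [abs_le]; omega
    · rw [abs_le]; omega
    · rw [sub_mem]; exact h1
    · rw [abs_le]; simp only; omega
    · rw [abs_le]; simp only; omega
  · -- the base point of the component
    have hg4 := fact_G4 g hg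
    have hS := fact_S0 _ h1
    simp only [Prod.fst_add, Prod.snd_add] at hS
    obtain ⟨k0, l0, hg0⟩ : ∃ k0 l0 : ℤ, ((8 * k, 4 * l) : Vtx) - g = (8 * k0, 4 * l0) := by
      refine ⟨k - g.1 / 8, l - g.2 / 4, ?_⟩
      refine Prod.ext ?_ ?_
      · simp only [Prod.fst_sub]
        rcases hg4.1 with h2 | h2 <;> rw [h2] <;> (norm_num; try ring)
      · simp only [Prod.snd_sub]
        rcases hg4.2 with h2 | h2 <;> rw [h2] <;> (norm_num; try ring)
    set h0 : Vtx := (8 * k0, 4 * l0) with hh0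
    have he0 : Even (h0.1 + h0.2) := by
      have : h0.1 + h0.2 = 2 * (4 * k0 + 2 * l0) := by
        rw [hh0]; simp only; ring
      rw [this]
      exact even_two_mul _
    have hv0 : ((i, j) : Vtx) - h0 ∈ S0 := by
      rw [← hg0]
      convert h1 using 1
      refine Prod.ext ?_ ?_
      · simp only [Prod.fst_sub, Prod.fst_add]; ring
      · simp only [Prod.snd_sub, Prod.snd_add]; ring
    set P : Finset Vtx := S0.image fun u => u + h0 with hP
    have hmemP : ∀ w : Vtx, w ∈ P ↔ w - h0 ∈ S0 := by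
      intro w
      rw [hP, mem_image]
      constructor
      · rintro ⟨u, hu, rfl⟩
        rwa [add_sub_cancel_right]
      · intro hw
        exact ⟨w - h0, hw, sub_add_cancel _ _⟩
    have hb := fact_S0 _ hv0
    simp only [Prod.fst_sub, Prod.snd_sub] at hb
    have haP : a ∉ P := by
      intro ha
      rw [hmemP] at ha
      have h2 := fact_S0 _ ha
      simp only [Prod.fst_sub, Prod.snd_sub] at h2
      exact not_a_near hv (by rw [abs_le]; simp only; omega) (by rw [abs_le]; simp only; omega)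
    obtain ⟨p0, p, e, he, q1, q2, q3, q4, q5⟩ := first_touch haP ((hmemP _).2 hv0) hc
    have hcp := q5 ω (Agree.refl _ _)
    have hval := Conf.valid hD hω
    obtain ⟨u, rfl⟩ : ∃ u, p = u + h0 := ⟨p - h0, by simp⟩
    have hu : u ∈ S0 := by
      have := (hmemP _).1 q2
      rwa [add_sub_cancel_right] at this
    have hE : ∃ e' ∈ [e1 u, e2 u, e3 u], e = sh h0 e' := by
      rcases inc_cases (hval e he) q4 with h2 | h2 | h2
      · exact ⟨e1 u, by simp, by rw [h2, e1_sh]⟩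
      · exact ⟨e2 u, by simp, by rw [h2, e2_sh]⟩
      · exact ⟨e3 u, by simp, by rw [h2, e3_sh he0]⟩
    obtain ⟨e', he', rfl⟩ := hE
    have hw : ∃ w ∈ [src e', tgt e'], p0 = w + h0 := by
      rcases q3 with h2 | h2
      · exact ⟨src e', by simp, by rw [h2, src_sh]⟩
      · exact ⟨tgt e', by simp, by rw [h2, tgt_sh]⟩
    obtain ⟨w, hw1, rfl⟩ := hw
    rcases fact_exit u hu e' he' w hw1 with h2 | ⟨g', hg', h2⟩
    · exfalso
      apply q1
      rw [hmemP, add_sub_cancel_right]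
      exact h2
    · have hg4' := fact_G4 g' hg'
      obtain ⟨k1, l1, hg1⟩ : ∃ k1 l1 : ℤ, h0 + g' = (8 * k1, 4 * l1) := by
        refine ⟨k0 + g'.1 / 8, l0 + g'.2 / 4, ?_⟩
        refine Prod.ext ?_ ?_
        · simp only [hh0, Prod.fst_add]
          rcases hg4'.1 with h3 | h3 <;> rw [h3] <;> (norm_num; try ring)
        · simp only [hh0, Prod.snd_add]
          rcases hg4'.2 with h3 | h3 <;> rw [h3] <;> (norm_num; try ring)
      have hfst := congrArg Prod.fst hg1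
      have hsnd := congrArg Prod.snd hg1
      simp only [hh0, Prod.fst_add, Prod.snd_add] at hfst hsnd hb
      refine ⟨(8 * k1, 4 * l1), hFam k1 l1 ?_ ?_, ⟨w + h0, ?_, hcp⟩, ?_, ?_⟩
      · rw [abs_le]; omega
      · rw [abs_le]; omega
      · rw [sub_mem, ← hg1]
        have : w + h0 - (h0 + g') = w - g' := by abel
        rw [this]
        exact h2
      · rw [abs_le]; simp only; omega
      · rw [abs_le]; simp only; omega

/-- the edges near `h` -/
noncomputable def boxE (h : Vtx) : Finset Edg :=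
  (Finset.Icc (h.1 - 8) (h.1 + 8)) ×ˢ ((Finset.Icc (h.2 - 5) (h.2 + 5)) ×ˢ
    (Finset.univ : Finset Bool))

theorem card_boxE (h : Vtx) : (boxE h).card = 374 := by
  unfold boxE
  rw [card_product, card_product, Int.card_Icc, Int.card_Icc]
  have h1 : (h.1 + 8 + 1 - (h.1 - 8)).toNat = 17 := by omega
  have h2 : (h.2 + 5 + 1 - (h.2 - 5)).toNat = 11 := by omega
  rw [h1, h2]
  rfl

theorem inner_le (hD : EvenD D) {ω : Finset Edg} (hω : ω ∈ Conf D a b) :
    inner D a b ω ≤ 374 * Mm (Fam D a b) a ω := by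
  classical
  unfold inner Mm
  have hsub : ((path a ω).filter fun e => DeepV D a b (src e)) ⊆
      ((Fam D a b).filter fun h => Tch h a ω).biUnion boxE := by
    intro e he
    rw [mem_filter, mem_path] at he
    obtain ⟨h, h1, h2, h3, h4⟩ := near_flower hD hω he.2 he.1.2
    rw [mem_biUnion]
    refine ⟨h, mem_filter.2 ⟨h1, h2⟩, ?_⟩
    rw [abs_le] at h3 h4
    unfold boxE
    rw [mem_product, mem_product, Finset.mem_Icc, Finset.mem_Icc]
    simp only [src] at h3 h4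
    exact ⟨⟨by omega, by omega⟩, ⟨by omega, by omega⟩, mem_univ _⟩
  refine (card_le_card hsub).trans ?_
  refine (card_biUnion_le_card_mul _ _ 374 fun h _ => (card_boxE h).le).trans (le_of_eq ?_)
  rw [mul_comm]

end Pool.Agent.V7H81.ON
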