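import Mathlib
import Pool.Agent.V7H81.ON.Tv

/-! Every path has an exponentially small probability. -/

set_option autoImplicit false

namespace Pool.Agent.V7H81.ON

open Finset

section

variable {D : Finset Vtx} {a b : Vtx} {n x : ℝ} {h : Vtx} {ω : Finset Edg}

theorem path_inter_on (hs : On h a ω) : (path a ω ∩ hex h).card = 1 := by
  obtain ⟨f, hf, hc⟩ := hs
  have : path a ω ∩ hex h = {f} := by
    ext e
    rw [mem_inter, mem_path, mem_singleton]
    constructor
    · rintro ⟨⟨h1, _⟩, h2⟩
      exact eq_of_inter hf h1 h2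
    · rintro rfl
      exact ⟨⟨(mem_of_inter hf).1, hc⟩, (mem_of_inter hf).2⟩
  rw [this, card_singleton]

theorem path_out (H : Loc h a ω) (hs : On h a ω) {e : Edg} (he : e ∉ hex h) :
    e ∈ path a (fl h ω) ↔ e ∈ path a ω := by
  obtain ⟨f, hf, hc⟩ := hs
  rw [path_fl H hf hc, mem_union, mem_erase, mem_erase]
  have hne : e ≠ f := by
    rintro rfl
    exact he (mem_of_inter hf).2
  tauto

theorem path_inter_fi (H : Loc h a ω) (hs : Fi h a ω) : (path a ω ∩ hex h).card = 5 := by
  have hon := (Fi.on H).1 hs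
  obtain ⟨f, hf, hc⟩ := hon
  have h1 := path_fl H.fl hf hc
  rw [fl_fl] at h1
  have : path a ω ∩ hex h = (hex h).erase f := by
    rw [h1]
    ext e
    rw [mem_inter, mem_union, mem_erase, mem_erase]
    constructor
    · rintro ⟨h2 | h2, h3⟩
      · exact absurd (eq_of_inter hf (mem_path.1 h2.2).1 h3) h2.1
      · exact h2
    · intro h2
      exact ⟨Or.inr h2, h2.2⟩
  rw [this, card_erase_of_mem (mem_of_inter hf).2, card_hex]

/-- the path agrees with `γ` outside the hexagons of `C` -/
def Ag (a : Vtx) (γ : Finset Edg) (C : Finset Vtx) (ω : Finset Edg) : Prop :=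
  ∀ e, (∀ h ∈ C, e ∉ hex h) → (e ∈ path a ω ↔ e ∈ γ)

theorem Ag.insert {γ : Finset Edg} {C : Finset Vtx} (hA : Ag a γ C ω) (h : Vtx) :
    Ag a γ (insert h C) ω := fun e he => hA e fun h' hh' => he h' (mem_insert_of_mem hh')

theorem Ag.inter {γ : Finset Edg} {C : Finset Vtx} (hA : Ag a γ C ω)
    (hd : ∀ h' ∈ C, Disjoint (hexV h) (hexV h')) : path a ω ∩ hex h = γ ∩ hex h := by
  ext e
  rw [mem_inter, mem_inter]
  refine and_congr_left fun he => hA e fun h' hh' he' => ?_
  exact hex_disj (hd h' hh') he' he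

open Classical in
/-- the inverse of the largest probability of a state of a hexagon -/
noncomputable def mui (x : ℝ) : ℝ := min (1 + x ^ 4) (1 + (x ^ 4)⁻¹)

theorem one_lt_mui (hx : 0 < x) : 1 < mui x := by
  have : 0 < x ^ 4 := by positivity
  unfold mui
  rw [lt_min_iff]
  constructor
  · linarith
  · have : 0 < (x ^ 4)⁻¹ := by positivity
    linarith

open Classical in
theorem ent_step (hD : EvenD D) (hn : 0 < n) (hx : 0 < x) (hh : h ∈ D) (ha : a ∉ hexV h)
    (hb : b ∉ hexV h) (γ : Finset Edg) (C : Finset Vtx)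
    (hd : ∀ h' ∈ C, Disjoint (hexV h) (hexV h')) (v : Finset Edg → ℝ) (hv : ∀ ω, 0 ≤ v ω)
    (hvh : ∀ ω ∈ Conf D a b, On h a ω → v (fl h ω) = v ω) :
    ∑ ω ∈ Conf D a b, (if Ag a γ C ω then
      weight n x a ω * ((if On h a ω ∨ Fi h a ω then mui x else 1) * v ω) else 0) ≤
    ∑ ω ∈ Conf D a b, if Ag a γ (insert h C) ω then weight n x a ω * v ω else 0 := by
  have hx4 : 0 < x ^ 4 := by positivity
  have hloc : ∀ ω ∈ Conf D a b, Loc h a ω := fun ω hω => Conf.loc hD hω hh ha hb
  have hw := fun ω => (weight_pos hn hx a ω).le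
  by_cases hP : (γ ∩ hex h).card = 1
  · have hnf : ∀ ω ∈ Conf D a b, Ag a γ C ω → ¬ Fi h a ω := by
      intro ω hω hA hf
      have h1 := path_inter_fi (hloc ω hω) hf
      rw [hA.inter hd, hP] at h1
      omega
    have h1 := sum_fi (n := n) (x := x) hD hh ha hb
      (fun ω => v ω * if Ag a γ C (fl h ω) then 1 else 0)
    have h2 : ∀ ω ∈ Conf D a b, (if Ag a γ C ω then
        weight n x a ω * ((if On h a ω ∨ Fi h a ω then mui x else 1) * v ω) else 0) ≤
        (if Ag a γ C ω then weight n x a ω * v ω else 0) + (if On h a ω then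
          x ^ 4 * weight n x a ω * (v (fl h ω) * if Ag a γ C (fl h (fl h ω)) then 1 else 0)
          else 0) := by
      intro ω hω
      rw [fl_fl]
      by_cases hA : Ag a γ C ω
      · rw [if_pos hA, if_pos hA]
        by_cases hs : On h a ω
        · rw [if_pos (Or.inl hs), if_pos hs, if_pos hA, hvh ω hω hs]
          have h3 : mui x ≤ 1 + x ^ 4 := min_le_left _ _
          have h4 := mul_le_mul_of_nonneg_right h3 (mul_nonneg (hw ω) (hv ω))
          linarith
        · rw [if_neg (by have := hnf ω hω hA; tauto), if_neg hs]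
          linarith
      · rw [if_neg hA, if_neg hA, if_neg hA]
        split_ifs
        · simp
        · simp
    refine (sum_le_sum h2).trans ?_
    rw [sum_add_distrib, ← h1, ← sum_add_distrib]
    refine sum_le_sum fun ω hω => ?_
    have hwv := mul_nonneg (hw ω) (hv ω)
    by_cases hA : Ag a γ C ω
    · rw [if_pos hA, if_neg (hnf ω hω hA), if_pos (hA.insert h), add_zero]
    · rw [if_neg hA, zero_add]
      by_cases hf : Fi h a ω
      · rw [if_pos hf]
        by_cases hA' : Ag a γ C (fl h ω)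
        · have h5 : Ag a γ (insert h C) ω := by
            intro e he
            have h6 := path_out (hloc ω hω).fl ((Fi.on (hloc ω hω)).1 hf)
              (he h (mem_insert_self _ _))
            rw [fl_fl] at h6
            rw [h6]
            exact hA' e fun h' hh' => he h' (mem_insert_of_mem hh')
          rw [if_pos hA', if_pos h5]
          linarith
        · rw [if_neg hA']
          split_ifs
          · simpa using hwv
          · simp
      · rw [if_neg hf]
        split_ifs
        · exact hwv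
        · exact le_rfl
  · have hno : ∀ ω ∈ Conf D a b, Ag a γ C ω → ¬ On h a ω := by
      intro ω hω hA hf
      have h1 := path_inter_on hf
      rw [hA.inter hd] at h1
      exact hP h1
    have h1 := sum_fi (n := n) (x := x) hD hh ha hb
      (fun ω => v ω * if Ag a γ C ω then 1 else 0)
    have h2 : ∀ ω ∈ Conf D a b, (if Ag a γ C ω then
        weight n x a ω * ((if On h a ω ∨ Fi h a ω then mui x else 1) * v ω) else 0) ≤
        (if Ag a γ C ω then weight n x a ω * v ω else 0) + (x ^ 4)⁻¹ * (if Fi h a ω then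
          weight n x a ω * (v ω * if Ag a γ C ω then 1 else 0) else 0) := by
      intro ω hω
      by_cases hA : Ag a γ C ω
      · rw [if_pos hA, if_pos hA]
        by_cases hs : Fi h a ω
        · rw [if_pos (Or.inr hs), if_pos hs, if_pos hA]
          have h3 : mui x ≤ 1 + (x ^ 4)⁻¹ := min_le_right _ _
          have h4 := mul_le_mul_of_nonneg_right h3 (mul_nonneg (hw ω) (hv ω))
          linarith
        · rw [if_neg (by have := hno ω hω hA; tauto), if_neg hs]
          linarith
      · rw [if_neg hA, if_neg hA, if_neg hA]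
        split_ifs
        · simp
        · simp
    refine (sum_le_sum h2).trans ?_
    rw [sum_add_distrib, ← mul_sum, h1, mul_sum, ← sum_add_distrib]
    refine sum_le_sum fun ω hω => ?_
    have hwv := mul_nonneg (hw ω) (hv ω)
    by_cases hA : Ag a γ C ω
    · rw [if_pos hA, if_neg (hno ω hω hA), if_pos (hA.insert h), mul_zero, add_zero]
    · rw [if_neg hA, zero_add]
      by_cases hf : On h a ω
      · rw [if_pos hf, hvh ω hω hf]
        by_cases hA' : Ag a γ C (fl h ω)
        · have h5 : Ag a γ (insert h C) ω := by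
            intro e he
            have h6 := path_out (hloc ω hω) hf (he h (mem_insert_self _ _))
            rw [← h6]
            exact hA' e fun h' hh' => he h' (mem_insert_of_mem hh')
          rw [if_pos hA', if_pos h5]
          refine le_of_eq ?_
          field_simp
        · rw [if_neg hA']
          split_ifs
          · simpa using hwv
          · simp
      · rw [if_neg hf, mul_zero]
        split_ifs
        · exact hwv
        · exact le_rfl

open Classical in
theorem ent_prod (hD : EvenD D) (hn : 0 < n) (hx : 0 < x) (γ : Finset Edg) (C : Finset Vtx)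
    (hC : ∀ h ∈ C, h ∈ D ∧ a ∉ hexV h ∧ b ∉ hexV h)
    (hdis : ∀ h ∈ C, ∀ h' ∈ C, h ≠ h' → Disjoint (hexV h) (hexV h')) :
    ∀ v : Finset Edg → ℝ, (∀ ω, 0 ≤ v ω) →
      (∀ ω ∈ Conf D a b, ∀ h ∈ C, On h a ω → v (fl h ω) = v ω) →
    ∑ ω ∈ Conf D a b, (if Ag a γ ∅ ω then
      weight n x a ω * ((∏ h ∈ C, if On h a ω ∨ Fi h a ω then mui x else 1) * v ω) else 0) ≤
    ∑ ω ∈ Conf D a b, if Ag a γ C ω then weight n x a ω * v ω else 0 := by
  have hmu := one_lt_mui hx
  induction C using Finset.induction_on with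
  | empty => intro v _ _; simp
  | insert h C hk ih =>
    intro v hv hvC
    obtain ⟨h1, h2, h3⟩ := hC h (mem_insert_self _ _)
    have hne : ∀ h' ∈ C, h ≠ h' := by
      rintro h' hh' rfl
      exact hk hh'
    have hd : ∀ h' ∈ C, Disjoint (hexV h) (hexV h') := fun h' hh' =>
      hdis h (mem_insert_self _ _) h' (mem_insert_of_mem hh') (hne h' hh')
    have e1 : ∀ ω, (∏ h ∈ insert h C, if On h a ω ∨ Fi h a ω then mui x else 1) * v ω =
        (∏ h ∈ C, if On h a ω ∨ Fi h a ω then mui x else 1) *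
          ((if On h a ω ∨ Fi h a ω then mui x else 1) * v ω) := by
      intro ω
      rw [prod_insert hk]
      ring
    simp only [e1]
    refine (ih (fun h' hh' => hC h' (mem_insert_of_mem hh'))
      (fun h1 hh1 h2 hh2 => hdis h1 (mem_insert_of_mem hh1) h2 (mem_insert_of_mem hh2))
      (fun ω => (if On h a ω ∨ Fi h a ω then mui x else 1) * v ω) ?_ ?_).trans ?_
    · intro ω
      refine mul_nonneg ?_ (hv ω)
      split_ifs
      · linarith
      · exact zero_le_one
    · intro ω hω h' hh' hs
      obtain ⟨k1, k2, k3⟩ := hC h' (mem_insert_of_mem hh')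
      have h4 := on_other (hd h' hh').symm (Conf.loc hD hω k1 k2 k3) hs
      have h5 := fi_other (hd h' hh').symm (Conf.loc hD hω k1 k2 k3) hs
      simp only [h4, h5, hvC ω hω h' (mem_insert_of_mem hh') hs]
    · exact ent_step hD hn hx h1 h2 h3 γ C hd v hv
        (fun ω hω hs => hvC ω hω h (mem_insert_self _ _) hs)

open Classical in
theorem ent_bound (hD : EvenD D) (hn : 0 < n) (hx : 0 < x) {m : ℕ} {s s' : ℤ → ℤ}
    (K : Finset ℤ) (hc : ∀ k ∈ K, CutAt D a b m k (s k) (s' k)) (γ : Finset Edg) :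
    ∑ ω ∈ Conf D a b, weight n x a ω * (if path a ω = γ then 1 else 0) ≤
      Real.exp (-(cA n x m * (1 - (mui x)⁻¹) / 2 * K.card)) * Z n x D a b := by
  have hmu := one_lt_mui hx
  have hmu0 : 0 < mui x := by linarith
  have hr0 : 0 ≤ (mui x)⁻¹ := (inv_pos.2 hmu0).le
  have hr1 : (mui x)⁻¹ ≤ 1 := inv_le_one_of_one_le₀ hmu.le
  have hw := fun ω => (weight_pos hn hx a ω).le
  have hZ := Z_nonneg hn hx D a b
  have h1 := ent_prod (n := n) hD hn hx γ (Fam D a b) Fam_hyp Fam_disj' (fun _ => 1)
    (fun _ => zero_le_one) (fun _ _ _ _ _ => rfl)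
  simp only [mul_one, pow_prod] at h1
  have hAg : ∀ ω, Ag a γ ∅ ω ↔ path a ω = γ := by
    intro ω
    constructor
    · intro hA
      ext e
      exact hA e (by simp)
    · rintro rfl e _
      exact Iff.rfl
  have hSn : ∀ ω, ((Fam D a b).filter fun h => On h a ω ∨ Fi h a ω).card = Sn (Fam D a b) a ω :=
    fun ω => rfl
  simp only [hAg, hSn] at h1
  have h2 : ∑ ω ∈ Conf D a b, (if Ag a γ (Fam D a b) ω then weight n x a ω else 0) ≤
      Z n x D a b := by
    refine sum_le_sum fun ω _ => ?_
    split_ifs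
    · exact le_rfl
    · exact hw ω
  have h3 := h1.trans h2
  have h4 := theta_bound' hD hn hx K hc hr0 hr1
  have h5 : ∑ ω ∈ Conf D a b, weight n x a ω * ((mui x)⁻¹) ^ Sn (Fam D a b) a ω ≤
      Real.exp (-(cA n x m * (1 - (mui x)⁻¹) * K.card)) * Z n x D a b := by
    refine (sum_le_sum fun ω _ => ?_).trans h4
    exact mul_le_mul_of_nonneg_left (pow_le_pow_of_le_one hr0 hr1 (Nn_le_Sn _ a ω)) (hw ω)
  have cs := cauchy (D := D) (a := a) (b := b) hn hx
    (fun ω => (if path a ω = γ then 1 else 0) * Real.sqrt (mui x ^ Sn (Fam D a b) a ω))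
    (fun ω => Real.sqrt (((mui x)⁻¹) ^ Sn (Fam D a b) a ω))
  have s1 : ∀ ω, ((if path a ω = γ then 1 else 0) * Real.sqrt (mui x ^ Sn (Fam D a b) a ω)) *
      Real.sqrt (((mui x)⁻¹) ^ Sn (Fam D a b) a ω) = if path a ω = γ then 1 else 0 := by
    intro ω
    rw [mul_assoc, ← Real.sqrt_mul (by positivity), ← mul_pow, mul_inv_cancel₀ hmu0.ne', one_pow,
      Real.sqrt_one, mul_one]
  have s2 : ∀ ω, weight n x a ω *
      ((if path a ω = γ then 1 else 0) * Real.sqrt (mui x ^ Sn (Fam D a b) a ω)) ^ 2 =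
      if path a ω = γ then weight n x a ω * mui x ^ Sn (Fam D a b) a ω else 0 := by
    intro ω
    rw [mul_pow, Real.sq_sqrt (by positivity)]
    split_ifs
    · ring
    · ring
  have s3 : ∀ ω, Real.sqrt (((mui x)⁻¹) ^ Sn (Fam D a b) a ω) ^ 2 =
      ((mui x)⁻¹) ^ Sn (Fam D a b) a ω := fun ω => Real.sq_sqrt (by positivity)
  simp only [s1, s2, s3] at cs
  have hnn : 0 ≤ ∑ ω ∈ Conf D a b, weight n x a ω * ((mui x)⁻¹) ^ Sn (Fam D a b) a ω :=
    sum_nonneg fun ω _ => mul_nonneg (hw ω) (by positivity)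
  refine abs_le_of_sq_le_sq' ?_ (by positivity) |>.2
  refine cs.trans ?_
  calc _ ≤ Z n x D a b * (Real.exp (-(cA n x m * (1 - (mui x)⁻¹) * K.card)) * Z n x D a b) :=
        mul_le_mul h3 h5 hnn hZ
    _ = _ := by
      rw [mul_pow, ← Real.exp_nat_mul]
      have : -(cA n x m * (1 - (mui x)⁻¹) * K.card) =
          ((2 : ℕ) : ℝ) * -(cA n x m * (1 - (mui x)⁻¹) / 2 * K.card) := by push_cast; ring
      rw [this]
      ring

end

end Pool.Agent.V7H81.ON
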