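import Mathlib
import Pool.Agent.V7H81.ON.Entropy

/-! Straight corridors have many cross cuts. -/

set_option autoImplicit false

namespace Pool.Agent.V7H81.ON

open Finset

/-- Between the columns `p` and `q` the domain is a straight corridor, with the rows from `s` to
`s'`; the vertex `a` is on the left and `b` on the right of the corridor. -/
structure Corridor (D : Finset Vtx) (a b : Vtx) (p q s s' : ℤ) : Prop where
  mem : ∀ i j : ℤ, p ≤ i → i ≤ q → ((i, j) ∈ D ↔ Even (i + j) ∧ s ≤ j ∧ j ≤ s')
  len : s + 12 ≤ s'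
  left : a.1 ≤ p
  right : q + 2 ≤ b.1

variable {D : Finset Vtx} {a b : Vtx} {p q s s' : ℤ}

theorem Corridor.deep (H : Corridor D a b p q s s') {k t : ℤ} (h1 : p + 12 ≤ 8 * k)
    (h2 : 8 * k + 14 ≤ q) (h3 : s + 6 ≤ t) (h4 : t + 6 ≤ s') :
    DeepV D a b (8 * k + 1, t) := by
  rintro ⟨i, j⟩ he hi hj
  simp only at he hi hj
  rw [abs_le] at hi hj
  have hleft := H.left
  have hright := H.right
  refine ⟨(H.mem i j (by omega) (by omega)).2 ⟨he, by omega, by omega⟩, ?_, ?_⟩
  · rw [mem_hexV]
    simp only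
    omega
  · rw [mem_hexV]
    simp only
    omega

theorem Corridor.sep (H : Corridor D a b p q s s') {k : ℤ} (h1 : p + 12 ≤ 8 * k)
    (h2 : 8 * k + 14 ≤ q) :
    ¬ Conn (edges D \ (Finset.Icc s (s' + 1)).image (rung k)) a b := by
  intro hc
  have hleft := H.left
  have hright := H.right
  have key : ∀ w, Conn (edges D \ (Finset.Icc s (s' + 1)).image (rung k)) a w →
      w.1 ≤ 8 * k + 1 := by
    intro w hw
    induction hw with
    | refl => omega
    | @tail y z _ h4 ih =>
      obtain ⟨e, he, h5, h6⟩ := h4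
      by_contra hz
      rw [mem_sdiff, mem_image] at he
      obtain ⟨he1, he2⟩ := he
      rw [inc_iff] at h5 h6
      have h7 : e.2.2 = false ∧ e.1 = 8 * k + 1 := by
        rcases h5 with h5 | h5 | h5 <;> rcases h6 with h6 | h6 | h6
        · omega
        · omega
        · exact ⟨h6.1, by omega⟩
        · omega
        · omega
        · exact absurd h5.1 (by rw [h6.1]; decide)
        · omega
        · exact absurd h6.1 (by rw [h5.1]; decide)
        · omega
      apply he2
      unfold edges at he1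
      rw [mem_biUnion] at he1
      obtain ⟨⟨i, j⟩, hg, heg⟩ := he1
      rw [mem_hex] at heg
      simp only at heg
      have h8 : (e.1 = i ∨ e.1 = i + 1) ∧ (e.2.1 = j ∨ e.2.1 = j + 1) := by
        rcases heg with ⟨_, h9, h10⟩ | ⟨h9, _⟩
        · exact ⟨h9, h10⟩
        · rw [h7.1] at h9
          exact absurd h9 (by decide)
      have h9 := (H.mem i j (by omega) (by omega)).1 hg
      refine ⟨e.2.1, Finset.mem_Icc.2 ⟨by omega, by omega⟩, ?_⟩
      unfold rung
      exact Prod.ext h7.2.symm (Prod.ext rfl h7.1.symm)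
  have := key b hc
  omega

theorem Corridor.cut (H : Corridor D a b p q s s') {k : ℤ} (h1 : p + 12 ≤ 8 * k)
    (h2 : 8 * k + 14 ≤ q) : CutAt D a b 13 k s (s' + 1) where
  faces := by
    intro t ht ht'
    have hleft := H.left
    have hright := H.right
    unfold lad
    split_ifs with he
    · refine ⟨(H.mem _ _ (by omega) (by omega)).2 ⟨?_, by omega, by omega⟩, ?_, ?_⟩
      · rw [Int.even_iff] at he ⊢
        omega
      · rw [mem_hexV]; simp only; omega
      · rw [mem_hexV]; simp only; omega
    · refine ⟨(H.mem _ _ (by omega) (by omega)).2 ⟨?_, by omega, by omega⟩, ?_, ?_⟩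
      · rw [Int.even_iff] at he ⊢
        omega
      · rw [mem_hexV]; simp only; omega
      · rw [mem_hexV]; simp only; omega
  sep := H.sep h1 h2
  few := by
    classical
    have hlen := H.len
    have hsub : ((Finset.Icc s (s' + 1)).filter fun t => ¬ DeepV D a b (8 * k + 1, t)) ⊆
        Finset.Icc s (s + 5) ∪ Finset.Icc (s' - 5) (s' + 1) := by
      intro t ht
      simp only [mem_filter, Finset.mem_Icc] at ht
      obtain ⟨⟨h3, h4⟩, h5⟩ := ht
      have h6 : ¬ (s + 6 ≤ t ∧ t + 6 ≤ s') := fun h6 => h5 (H.deep h1 h2 h6.1 h6.2)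
      simp only [mem_union, Finset.mem_Icc]
      omega
    refine (card_le_card hsub).trans ((card_union_le _ _).trans ?_)
    rw [Int.card_Icc, Int.card_Icc]
    omega
  one := by
    have hlen := H.len
    exact ⟨s + 6, Finset.mem_Icc.2 ⟨by omega, by omega⟩,
      H.deep h1 h2 (by omega) (by omega)⟩

theorem Corridor.cuts (H : Corridor D a b p q s s') :
    ∃ K : Finset ℤ, q - p ≤ 8 * K.card + 32 ∧ ∀ k ∈ K, ∃ s s', CutAt D a b 13 k s s' := by
  refine ⟨Finset.Icc ((p + 19) / 8) ((q - 14) / 8), ?_, ?_⟩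
  · rw [Int.card_Icc]
    omega
  · intro k hk
    rw [Finset.mem_Icc] at hk
    exact ⟨s, s' + 1, H.cut (by omega) (by omega)⟩

end Pool.Agent.V7H81.ON
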