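import Mathlib
import Pool.Agent.V7H81.ON.Corridor

/-! The estimates in terms of mean values. -/

set_option autoImplicit false

namespace Pool.Agent.V7H81.ON

open Finset

section

variable {D : Finset Vtx} {a b : Vtx} {n x : ℝ}

theorem Z_pos (hn : 0 < n) (hx : 0 < x) (hne : (Conf D a b).Nonempty) : 0 < Z n x D a b :=
  sum_pos (fun ω _ => weight_pos hn hx a ω) hne

theorem mean_le (hZ : 0 < Z n x D a b) {f : Finset Edg → ℝ} {B : ℝ}
    (h : ∑ ω ∈ Conf D a b, weight n x a ω * f ω ≤ B * Z n x D a b) : mean n x D a b f ≤ B := by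
  unfold mean
  rwa [div_le_iff₀ hZ]

theorem le_mean (hZ : 0 < Z n x D a b) {f : Finset Edg → ℝ} {B : ℝ}
    (h : B * Z n x D a b ≤ ∑ ω ∈ Conf D a b, weight n x a ω * f ω) : B ≤ mean n x D a b f := by
  unfold mean
  rwa [le_div_iff₀ hZ]

theorem abs_mean_le (hZ : 0 < Z n x D a b) {f : Finset Edg → ℝ} {B : ℝ}
    (h : |∑ ω ∈ Conf D a b, weight n x a ω * f ω| ≤ B * Z n x D a b) :
    |mean n x D a b f| ≤ B := by
  unfold mean
  rw [abs_div, abs_of_pos hZ]
  rwa [div_le_iff₀ hZ]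

/-- the bound for the cosines -/
theorem cos_le (hD : EvenD D) (hn : 0 < n) (hx : 0 < x) (t φ : ℝ)
    (F : Finset Edg → ℝ) (hF : ∀ ω ∈ Conf D a b, ∀ h ∈ Fam D a b, On h a ω → F (fl h ω) = F ω)
    (hF1 : ∀ ω, |F ω| ≤ 1) :
    |∑ ω ∈ Conf D a b, weight n x a ω * (F ω * Real.cos (t * (path a ω).card + φ))| ≤
      ∑ ω ∈ Conf D a b, weight n x a ω * rho x t ^ Nn (Fam D a b) a ω := by
  have h1 := char_le (n := n) hD hn hx t
    (fun ω => (F ω : ℂ)) (Fam D a b) Fam_hyp Fam_disj'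
    (fun ω hω h hh hs => by rw [hF ω hω h hh hs])
    (fun ω => by rw [Complex.norm_real]; exact hF1 ω)
  have h2 : ∑ ω ∈ Conf D a b, weight n x a ω * (F ω * Real.cos (t * (path a ω).card + φ)) =
      (Complex.exp (φ * Complex.I) *
        ∑ ω ∈ Conf D a b, (weight n x a ω : ℂ) * ex t a ω * (F ω : ℂ)).re := by
    rw [mul_sum, Complex.re_sum]
    refine sum_congr rfl fun ω _ => ?_
    have h3 : Complex.exp (φ * Complex.I) * ((weight n x a ω : ℂ) * ex t a ω * (F ω : ℂ)) =
        ((weight n x a ω * F ω : ℝ) : ℂ) *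
          Complex.exp (((t * (path a ω).card + φ : ℝ) : ℂ) * Complex.I) := by
      unfold ex
      push_cast
      rw [add_mul, Complex.exp_add]
      have : Complex.I * (t : ℂ) * ((path a ω).card : ℂ) =
          (t : ℂ) * ((path a ω).card : ℂ) * Complex.I := by ring
      rw [this]
      ring
    rw [h3, Complex.re_ofReal_mul, Complex.exp_ofReal_mul_I_re]
    ring
  rw [h2]
  refine (Complex.abs_re_le_norm _).trans ?_
  rw [norm_mul]
  have h4 : ‖Complex.exp (φ * Complex.I)‖ = 1 := Complex.norm_exp_ofReal_mul_I φ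
  rw [h4, one_mul]
  exact h1

theorem cos_bound (hD : EvenD D) (hn : 0 < n) (hx : 0 < x) {m : ℕ} {s s' : ℤ → ℤ}
    (K : Finset ℤ) (hc : ∀ k ∈ K, CutAt D a b m k (s k) (s' k)) (t φ : ℝ)
    (F : Finset Edg → ℝ) (hF : ∀ ω ∈ Conf D a b, ∀ h ∈ Fam D a b, On h a ω → F (fl h ω) = F ω)
    (hF1 : ∀ ω, |F ω| ≤ 1) :
    |∑ ω ∈ Conf D a b, weight n x a ω * (F ω * Real.cos (t * (path a ω).card + φ))| ≤
      Real.exp (-(cf n x m * K.card * Real.sin (2 * t) ^ 2)) * Z n x D a b := by
  refine (cos_le hD hn hx t φ F hF hF1).trans ?_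
  refine (theta_bound hD hn hx K hc (rho_nonneg hx t) (rho_le hx t)).trans (le_of_eq ?_)
  rw [rho_sq hx t]
  congr 2
  unfold cf
  ring

open Classical in
theorem short_bound (hD : EvenD D) (hn : 0 < n) (hx : 0 < x) {m : ℕ} {s s' : ℤ → ℤ}
    (K : Finset ℤ) (hc : ∀ k ∈ K, CutAt D a b m k (s k) (s' k)) (d : ℝ)
    (hd : ∀ ω ∈ Conf D a b, d ≤ (path a ω).card) :
    ∑ ω ∈ Conf D a b, weight n x a ω *
      (if ((path a ω).card : ℝ) < d + cB n x m * K.card then 1 else 0) ≤
      Real.exp (-(cB n x m * K.card)) * Z n x D a b := by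
  refine le_trans (sum_le_sum fun ω hω => ?_) (tail_fi hD hn hx K hc)
  have hw := (weight_pos hn hx a ω).le
  have hB := cB_pos hn hx m
  split_ifs with h1 h2 h2
  · rw [mul_one]
  · exfalso
    obtain ⟨ω', hω', h3⟩ := shorten hD (Fam D a b) Fam_hyp Fam_disj' ω hω
    have h4 := hd ω' hω'
    have h5 : ((path a ω').card : ℝ) + 4 * Nf (Fam D a b) a ω = (path a ω).card := by
      exact_mod_cast h3
    push Not at h2
    have h6 : (0 : ℝ) ≤ Nf (Fam D a b) a ω := Nat.cast_nonneg _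
    linarith
  · rw [mul_zero]; exact hw
  · rw [mul_zero]

open Classical in
theorem long_bound (hD : EvenD D) (hn : 0 < n) (hx : 0 < x) {m : ℕ} {s s' : ℤ → ℤ}
    (K : Finset ℤ) (hc : ∀ k ∈ K, CutAt D a b m k (s k) (s' k)) (d : ℝ)
    (hd : ∀ ω ∈ Conf D a b, ((path a ω).card : ℝ) ≤ d) :
    ∑ ω ∈ Conf D a b, weight n x a ω *
      (if d - cB n x m * K.card < (path a ω).card then 1 else 0) ≤
      Real.exp (-(cB n x m * K.card)) * Z n x D a b := by
  refine le_trans (sum_le_sum fun ω hω => ?_) (tail_on hD hn hx K hc)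
  have hw := (weight_pos hn hx a ω).le
  have hB := cB_pos hn hx m
  split_ifs with h1 h2 h2
  · rw [mul_one]
  · exfalso
    obtain ⟨ω', hω', h3⟩ := lengthen hD (Fam D a b) Fam_hyp Fam_disj' ω hω
    have h4 := hd ω' hω'
    have h5 : ((path a ω').card : ℝ) = (path a ω).card + 4 * Nn (Fam D a b) a ω := by
      exact_mod_cast h3
    push Not at h2
    have h6 : (0 : ℝ) ≤ Nn (Fam D a b) a ω := Nat.cast_nonneg _
    linarith
  · rw [mul_zero]; exact hw
  · rw [mul_zero]

end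

/-- `k` is a column in which a ladder of hexagons crosses the domain and separates `a` and `b`,
with at most `m` rungs which are not deep, and at least one deep rung. -/
def IsCut (D : Finset Vtx) (a b : Vtx) (m : ℕ) (k : ℤ) : Prop := ∃ s s', CutAt D a b m k s s'

open Classical in
theorem main_cut (n x : ℝ) (hn : 0 < n) (hx : 0 < x) (m : ℕ) : ∃ c : ℝ, 0 < c ∧
    ∀ (D : Finset Vtx) (a b : Vtx) (K : Finset ℤ), (∀ h ∈ D, Even (h.1 + h.2)) →
      (Conf D a b).Nonempty → K.Nonempty → (∀ k ∈ K, IsCut D a b m k) →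
      (∀ γ, mean n x D a b (fun ω => if path a ω = γ then 1 else 0) ≤
        Real.exp (-(c * K.card))) ∧
      (∀ d : ℝ, (∀ ω ∈ Conf D a b, d ≤ (path a ω).card) →
        mean n x D a b (fun ω => if ((path a ω).card : ℝ) < d + c * K.card then 1 else 0) ≤
          Real.exp (-(c * K.card))) ∧
      (∀ d : ℝ, (∀ ω ∈ Conf D a b, ((path a ω).card : ℝ) ≤ d) →
        mean n x D a b (fun ω => if d - c * K.card < (path a ω).card then 1 else 0) ≤
          Real.exp (-(c * K.card))) ∧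
      (∀ F : Finset Edg → ℝ, (∀ ω, |F ω| ≤ 1) →
        (∀ ω ∈ Conf D a b, ∀ k l : ℤ, On (8 * k, 4 * l) a ω →
          F (fl (8 * k, 4 * l) ω) = F ω) →
        (∀ t φ : ℝ, |mean n x D a b (fun ω => F ω * Real.cos (t * (path a ω).card + φ))| ≤
          Real.exp (-(c * K.card * Real.sin (2 * t) ^ 2))) ∧
        (∀ g : ℕ → ℝ, (∀ i, |g i| ≤ 1) →
          |mean n x D a b
            (fun ω => F ω * (g (path a ω).card - g ((path a ω).card + 4)))| ≤
            1 / (c * Real.sqrt K.card))) ∧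
      (∀ j : ℕ, mean n x D a b (fun ω => if (path a ω).card = j then 1 else 0) ≤
        1 / (c * Real.sqrt K.card)) ∧
      (∀ y : ℝ, c * K.card ≤ mean n x D a b (fun ω => ((path a ω).card - y) ^ 2)) := by
  have p1 : 0 < cA n x m * (1 - (mui x)⁻¹) / 2 := by
    have h1 := cA_pos hn hx m
    have h2 := one_lt_mui hx
    have h3 : (mui x)⁻¹ < 1 := inv_lt_one_of_one_lt₀ h2
    have : 0 < 1 - (mui x)⁻¹ := by linarith
    positivity
  have p2 := cB_pos hn hx m
  have p3 := cf_pos hn hx m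
  have p4 : 0 < (cC n x m)⁻¹ := inv_pos.2 (cC_pos hn hx m)
  have p5 : 0 < 16 * x ^ 4 * c0 n x * c1 n x m / (x ^ 4 + 1) := by
    have h0 := c0_pos hn hx
    have h1 := c1_pos hn hx m
    positivity
  obtain ⟨c, hc, q1, q2, q3, q4, q5⟩ : ∃ c : ℝ, 0 < c ∧ c ≤ cA n x m * (1 - (mui x)⁻¹) / 2 ∧
      c ≤ cB n x m ∧ c ≤ cf n x m ∧ c ≤ (cC n x m)⁻¹ ∧
      c ≤ 16 * x ^ 4 * c0 n x * c1 n x m / (x ^ 4 + 1) := by
    refine ⟨min (cA n x m * (1 - (mui x)⁻¹) / 2) (min (cB n x m) (min (cf n x m)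
      (min (cC n x m)⁻¹ (16 * x ^ 4 * c0 n x * c1 n x m / (x ^ 4 + 1))))), ?_, ?_, ?_, ?_, ?_, ?_⟩
    · exact lt_min p1 (lt_min p2 (lt_min p3 (lt_min p4 p5)))
    · exact min_le_left _ _
    · exact (min_le_right _ _).trans (min_le_left _ _)
    · exact (min_le_right _ _).trans ((min_le_right _ _).trans (min_le_left _ _))
    · exact (min_le_right _ _).trans ((min_le_right _ _).trans
        ((min_le_right _ _).trans (min_le_left _ _)))
    · exact (min_le_right _ _).trans ((min_le_right _ _).trans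
        ((min_le_right _ _).trans (min_le_right _ _)))
  refine ⟨c, hc, ?_⟩
  intro D a b K hD hne hK hcut
  have hZ := Z_pos (D := D) (a := a) (b := b) hn hx hne
  have hKc : (0 : ℝ) < K.card := by exact_mod_cast card_pos.2 hK
  have hsK : 0 < Real.sqrt K.card := Real.sqrt_pos.2 hKc
  unfold IsCut at hcut
  choose! s s' hcut using hcut
  have e1 : ∀ {u : ℝ}, c ≤ u → Real.exp (-(u * K.card)) ≤ Real.exp (-(c * K.card)) := by
    intro u hu
    rw [Real.exp_le_exp, neg_le_neg_iff]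
    exact mul_le_mul_of_nonneg_right hu hKc.le
  have e2 : cC n x m / Real.sqrt K.card ≤ 1 / (c * Real.sqrt K.card) := by
    rw [div_le_div_iff₀ hsK (by positivity), one_mul]
    have h1 : c * cC n x m ≤ 1 := by
      have := mul_le_mul_of_nonneg_right q4 (cC_pos hn hx m).le
      rwa [inv_mul_cancel₀ (cC_pos hn hx m).ne'] at this
    calc cC n x m * (c * Real.sqrt K.card) = (c * cC n x m) * Real.sqrt K.card := by ring
      _ ≤ 1 * Real.sqrt K.card := mul_le_mul_of_nonneg_right h1 hsK.le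
      _ = _ := one_mul _
  refine ⟨?_, ?_, ?_, ?_, ?_, ?_⟩
  · intro γ
    exact (mean_le hZ (ent_bound hD hn hx K hcut γ)).trans (e1 q1)
  · intro d hd
    refine (mean_le hZ ?_).trans (e1 q2)
    refine le_trans (sum_le_sum fun ω _ => ?_) (short_bound hD hn hx K hcut d hd)
    refine mul_le_mul_of_nonneg_left ?_ (weight_pos hn hx a ω).le
    have h1 : c * (K.card : ℝ) ≤ cB n x m * K.card := mul_le_mul_of_nonneg_right q2 hKc.le
    split_ifs with h2 h3 h3
    · exact le_rfl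
    · exact absurd (h2.trans_le (by linarith)) h3
    · norm_num
    · exact le_rfl
  · intro d hd
    refine (mean_le hZ ?_).trans (e1 q2)
    refine le_trans (sum_le_sum fun ω _ => ?_) (long_bound hD hn hx K hcut d hd)
    refine mul_le_mul_of_nonneg_left ?_ (weight_pos hn hx a ω).le
    have h1 : c * (K.card : ℝ) ≤ cB n x m * K.card := mul_le_mul_of_nonneg_right q2 hKc.le
    split_ifs with h2 h3 h3
    · exact le_rfl
    · exact absurd (lt_of_le_of_lt (by linarith) h2) h3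
    · norm_num
    · exact le_rfl
  · intro F hF1 hF
    have hF' : ∀ ω ∈ Conf D a b, ∀ h ∈ Fam D a b, On h a ω → F (fl h ω) = F ω := by
      intro ω hω h hh hs
      obtain ⟨-, ⟨k, hk⟩, ⟨l, hl⟩⟩ := mem_Fam.1 hh
      have h1 : h = (8 * k, 4 * l) := Prod.ext hk hl
      rw [h1] at hs ⊢
      exact hF ω hω k l hs
    constructor
    · intro t φ
      refine (abs_mean_le hZ (cos_bound hD hn hx K hcut t φ F hF' hF1)).trans ?_
      rw [Real.exp_le_exp, neg_le_neg_iff]
      exact mul_le_mul_of_nonneg_right (mul_le_mul_of_nonneg_right q3 hKc.le) (sq_nonneg _)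
    · intro g hg
      exact (abs_mean_le hZ (tv_bound hD hn hx K hK hcut F hF' hF1 g hg)).trans e2
  · intro j
    exact (mean_le hZ (atom_bound hD hn hx K hK hcut j)).trans e2
  · intro y
    refine le_mean hZ (le_trans ?_ (variance hD hn hx K hcut y))
    exact mul_le_mul_of_nonneg_right (mul_le_mul_of_nonneg_right q5 hKc.le) hZ.le

theorem main_corridor (D : Finset Vtx) (a b : Vtx) (p q s s' : ℤ)
    (H : Corridor D a b p q s s') :
    ∃ K : Finset ℤ, q - p ≤ 8 * K.card + 32 ∧ ∀ k ∈ K, IsCut D a b 13 k := H.cuts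

end Pool.Agent.V7H81.ON
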