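import Mathlib
import Pool.Agent.V7H81.ON.Bulk
import Pool.Agent.V7H81.ON.Main

/-! The law of the length in arbitrary domains. -/

set_option autoImplicit false

namespace Pool.Agent.V7H81.ON

open Finset

section

variable {D : Finset Vtx} {a b : Vtx} {n x : ℝ}

/-- the length of the path after all switches to the short state -/
noncomputable def shortLen (D : Finset Vtx) (a b : Vtx) (ω : Finset Edg) : ℕ :=
  (path a ω).card - 4 * Nf (Fam D a b) a ω

theorem shortLen_add (hD : EvenD D) {ω : Finset Edg} (hω : ω ∈ Conf D a b) :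
    (path a ω).card = shortLen D a b ω + 4 * Nf (Fam D a b) a ω := by
  obtain ⟨ω', -, h⟩ := shorten hD (Fam D a b) Fam_hyp Fam_disj' ω hω
  unfold shortLen
  omega

theorem Nf_fl {C : Finset Vtx} (hdis : ∀ h ∈ C, ∀ h' ∈ C, h ≠ h' → Disjoint (hexV h) (hexV h'))
    {h : Vtx} (hh : h ∈ C) {ω : Finset Edg} (H : Loc h a ω) (hs : On h a ω) :
    Nf C a (fl h ω) = Nf C a ω + 1 := by
  classical
  unfold Nf
  rw [card_filter_erase hh, card_filter_erase hh (fun h => Fi h a ω)]
  have h1 : Fi h a (fl h ω) := (On.fi H).1 hs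
  have h2 : ¬ Fi h a ω := fun h2 => not_on_fi hs h2
  rw [if_pos h1, if_neg h2]
  congr 1
  congr 1
  ext h'
  simp only [mem_filter]
  refine and_congr_right fun hh' => ?_
  rw [mem_erase] at hh'
  exact fi_other (hdis h hh h' hh'.2 (Ne.symm hh'.1)) H hs

theorem shortLen_fl {h : Vtx} (hh : h ∈ Fam D a b) {ω : Finset Edg} (H : Loc h a ω)
    (hs : On h a ω) : shortLen D a b (fl h ω) = shortLen D a b ω := by
  unfold shortLen
  rw [Nf_fl Fam_disj' hh H hs, card_path_fl H hs]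
  omega

theorem Fam_inv {F : Finset Edg → ℝ} (hF : ∀ ω ∈ Conf D a b, ∀ k l : ℤ,
    On (8 * k, 4 * l) a ω → F (fl (8 * k, 4 * l) ω) = F ω) :
    ∀ ω ∈ Conf D a b, ∀ h ∈ Fam D a b, On h a ω → F (fl h ω) = F ω := by
  intro ω hω h hh hs
  obtain ⟨-, ⟨k, hk⟩, ⟨l, hl⟩⟩ := mem_Fam.1 hh
  have h1 : h = (8 * k, 4 * l) := Prod.ext hk hl
  rw [h1] at hs ⊢
  exact hF ω hω k l hs

/-- the mixture formula -/
theorem law (hD : EvenD D) (hx : 0 < x) (F : Finset Edg → ℝ)
    (hF : ∀ ω ∈ Conf D a b, ∀ k l : ℤ, On (8 * k, 4 * l) a ω → F (fl (8 * k, 4 * l) ω) = F ω)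
    (φ : ℕ → ℕ → ℕ → ℝ) :
    ∑ ω ∈ Conf D a b, weight n x a ω *
      (F ω * φ (Sn (Fam D a b) a ω) (shortLen D a b ω) (path a ω).card) =
    ∑ ω ∈ Conf D a b, weight n x a ω * (F ω * ∑ k ∈ range (Sn (Fam D a b) a ω + 1),
      ((Sn (Fam D a b) a ω).choose k : ℝ) * (x ^ 4 / (1 + x ^ 4)) ^ k *
        (1 - x ^ 4 / (1 + x ^ 4)) ^ (Sn (Fam D a b) a ω - k) *
        φ (Sn (Fam D a b) a ω) (shortLen D a b ω) (shortLen D a b ω + 4 * k)) := by
  have hF' := Fam_inv hF
  have h1 := mixture (n := n) hD hx (Fam D a b) Fam_hyp Fam_disj'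
    (fun ω k => F ω * φ (Sn (Fam D a b) a ω) (shortLen D a b ω) (shortLen D a b ω + 4 * k))
    (by
      intro ω hω h hh hs k
      obtain ⟨k1, k2, k3⟩ := Fam_hyp h hh
      have H := Conf.loc hD hω k1 k2 k3
      simp only [hF' ω hω h hh hs, Sn_fl Fam_disj' hh H hs, shortLen_fl hh H hs])
  calc _ = ∑ ω ∈ Conf D a b, weight n x a ω * (F ω * φ (Sn (Fam D a b) a ω) (shortLen D a b ω)
        (shortLen D a b ω + 4 * Nf (Fam D a b) a ω)) := by
        refine sum_congr rfl fun ω hω => ?_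
        rw [← shortLen_add hD hω]
    _ = _ := h1
    _ = _ := by
        refine sum_congr rfl fun ω _ => ?_
        congr 1
        unfold Bm pp
        rw [mul_sum]
        refine sum_congr rfl fun k _ => ?_
        ring

/-- the constant of the exponential bound -/
noncomputable def cG (n x : ℝ) : ℝ := c0 n x / 748

theorem cG_pos (hn : 0 < n) (hx : 0 < x) : 0 < cG n x := by
  have := c0_pos hn hx
  unfold cG
  positivity

/-- the number of the switches is at least a multiple of the length in the interior, up to an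
exponentially small probability -/
theorem exp_bound (hD : EvenD D) (hn : 0 < n) (hx : 0 < x) :
    ∑ ω ∈ Conf D a b, weight n x a ω *
      Real.exp (cG n x * inner D a b ω - Sn (Fam D a b) a ω) ≤ Z n x D a b := by
  have h0 := c0_pos hn hx
  have h0' := c0_lt hn hx
  set θ := Real.exp (-1) with hθ
  have hθ0 : 0 < θ := Real.exp_pos _
  have hθ2 : θ ≤ 1 / 2 := by
    have h7 := Real.add_one_le_exp (1 : ℝ)
    rw [hθ, Real.exp_neg, inv_le_comm₀ (Real.exp_pos _) (by norm_num)]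
    norm_num
    linarith
  set β := 1 - c0 n x * (1 - θ) with hβ
  have hβ0 : 0 < β := by rw [hβ]; nlinarith
  have e1 := explore hD (a := a) (b := b) hn hx hθ0.le (by linarith) hβ hβ0 _ (Fam D a b) rfl
    (fun h hh => (mem_Fam.1 hh).1) Fam_disj (fun _ => 1) (fun _ => zero_le_one) (fun _ _ _ => rfl)
  simp only [mul_one] at e1
  refine le_trans (sum_le_sum fun ω hω => ?_) e1
  refine mul_le_mul_of_nonneg_left ?_ (weight_pos hn hx a ω).le
  have h1 : Real.exp (-(Sn (Fam D a b) a ω : ℝ)) ≤ θ ^ Nn (Fam D a b) a ω := by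
    rw [hθ, ← Real.exp_nat_mul, Real.exp_le_exp]
    have : (Nn (Fam D a b) a ω : ℝ) ≤ Sn (Fam D a b) a ω := by
      exact_mod_cast Nn_le_Sn (Fam D a b) a ω
    linarith
  have h2 : Real.exp (cG n x * inner D a b ω) ≤ (β⁻¹) ^ Mm (Fam D a b) a ω := by
    have h3 : Real.exp (c0 n x * (1 - θ)) ≤ β⁻¹ := by
      have h4 := Real.add_one_le_exp (-(c0 n x * (1 - θ)))
      have h5 : β ≤ Real.exp (-(c0 n x * (1 - θ))) := by rw [hβ]; linarith
      have h6 := inv_anti₀ hβ0 h5
      rwa [Real.exp_neg, inv_inv] at h6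
    have h7 : cG n x * inner D a b ω ≤ Mm (Fam D a b) a ω * (c0 n x * (1 - θ)) := by
      have h8 : (inner D a b ω : ℝ) ≤ 374 * Mm (Fam D a b) a ω := by
        exact_mod_cast inner_le hD hω
      have h9 : (0 : ℝ) ≤ Mm (Fam D a b) a ω := Nat.cast_nonneg _
      unfold cG
      calc c0 n x / 748 * inner D a b ω ≤ c0 n x / 748 * (374 * Mm (Fam D a b) a ω) :=
            mul_le_mul_of_nonneg_left h8 (by positivity)
        _ = Mm (Fam D a b) a ω * (c0 n x * (1 / 2)) := by ring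
        _ ≤ _ := by
          refine mul_le_mul_of_nonneg_left (mul_le_mul_of_nonneg_left ?_ h0.le) h9
          linarith
    calc Real.exp (cG n x * inner D a b ω) ≤
        Real.exp (Mm (Fam D a b) a ω * (c0 n x * (1 - θ))) := Real.exp_le_exp.2 h7
      _ = Real.exp (c0 n x * (1 - θ)) ^ Mm (Fam D a b) a ω := by rw [← Real.exp_nat_mul]
      _ ≤ _ := pow_le_pow_left₀ (Real.exp_pos _).le h3 _
  rw [sub_eq_add_neg, Real.exp_add, mul_comm]
  exact mul_le_mul h1 h2 (Real.exp_pos _).le (by positivity)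

theorem variance_inner (hD : EvenD D) (hn : 0 < n) (hx : 0 < x) (y : ℝ) :
    (16 * x ^ 4 * c0 n x / (374 * (x ^ 4 + 1))) *
      ∑ ω ∈ Conf D a b, weight n x a ω * inner D a b ω ≤
      ∑ ω ∈ Conf D a b, weight n x a ω * (((path a ω).card : ℝ) - y) ^ 2 := by
  classical
  have h1 := variance_bound hn hx hD (Fam D a b) Fam_hyp Fam_disj' y
  have h0 := c0_pos hn hx
  have hx4 : 0 < x ^ 4 := by positivity
  have h2 : c0 n x * ∑ ω ∈ Conf D a b, weight n x a ω * Mm (Fam D a b) a ω ≤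
      ∑ h ∈ Fam D a b, wOn n x D a b h := by
    have h2 : ∑ ω ∈ Conf D a b, weight n x a ω * Mm (Fam D a b) a ω =
        ∑ h ∈ Fam D a b, ∑ ω ∈ Conf D a b, (if Tch h a ω then weight n x a ω else 0) := by
      rw [sum_comm]
      refine sum_congr rfl fun ω _ => ?_
      unfold Mm
      rw [← sum_filter, sum_const, nsmul_eq_mul, mul_comm]
    rw [h2, mul_sum]
    exact sum_le_sum fun h hh => tch_on hD hn hx (mem_Fam.1 hh).1
  have h3 : ∑ ω ∈ Conf D a b, weight n x a ω * inner D a b ω ≤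
      374 * ∑ ω ∈ Conf D a b, weight n x a ω * Mm (Fam D a b) a ω := by
    rw [mul_sum]
    refine sum_le_sum fun ω hω => ?_
    have h8 : (inner D a b ω : ℝ) ≤ 374 * Mm (Fam D a b) a ω := by
      exact_mod_cast inner_le hD hω
    have := mul_le_mul_of_nonneg_left h8 (weight_pos hn hx a ω).le
    linarith
  set V := ∑ ω ∈ Conf D a b, weight n x a ω * (((path a ω).card : ℝ) - y) ^ 2
  set I := ∑ ω ∈ Conf D a b, weight n x a ω * inner D a b ω
  set M := ∑ ω ∈ Conf D a b, weight n x a ω * Mm (Fam D a b) a ω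
  have h4 : (16 * x ^ 4 * c0 n x / (374 * (x ^ 4 + 1))) * I =
      (16 * x ^ 4 * (c0 n x * (I / 374))) / (x ^ 4 + 1) := by
    field_simp
  rw [h4, div_le_iff₀ (by positivity), mul_comm V]
  refine le_trans ?_ h1
  refine mul_le_mul_of_nonneg_left ?_ (by positivity)
  refine le_trans (mul_le_mul_of_nonneg_left ?_ h0.le) h2
  rw [div_le_iff₀ (by norm_num)]
  linarith

end

end Pool.Agent.V7H81.ON
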