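import Mathlib
import Pool.Agent.V7H81.ON.Gen

/-! Bounds in terms of the length in the interior, in arbitrary domains. -/

set_option autoImplicit false

namespace Pool.Agent.V7H81.ON

open Finset

section

variable {D : Finset Vtx} {a b : Vtx} {n x : ℝ}

/-- the factor `β ^ (-M)` is at least exponential in the length in the interior -/
theorem beta_inner (hD : EvenD D) {ω : Finset Edg} (hω : ω ∈ Conf D a b) {y : ℝ} (hy0 : 0 ≤ y)
    (hy1 : y < 1) : Real.exp (y / 374 * inner D a b ω) ≤ ((1 - y)⁻¹) ^ Mm (Fam D a b) a ω := by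
  have h1 : Real.exp y ≤ (1 - y)⁻¹ := by
    have h4 := Real.add_one_le_exp (-y)
    have h6 := inv_anti₀ (by linarith : (0 : ℝ) < 1 - y) (by linarith : 1 - y ≤ Real.exp (-y))
    rwa [Real.exp_neg, inv_inv] at h6
  have h8 : (inner D a b ω : ℝ) ≤ 374 * Mm (Fam D a b) a ω := by
    exact_mod_cast inner_le hD hω
  calc Real.exp (y / 374 * inner D a b ω) ≤ Real.exp (Mm (Fam D a b) a ω * y) := by
        rw [Real.exp_le_exp]
        calc y / 374 * inner D a b ω ≤ y / 374 * (374 * Mm (Fam D a b) a ω) :=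
              mul_le_mul_of_nonneg_left h8 (by positivity)
          _ = _ := by ring
    _ = Real.exp y ^ Mm (Fam D a b) a ω := by rw [← Real.exp_nat_mul]
    _ ≤ _ := pow_le_pow_left₀ (Real.exp_pos _).le h1 _

/-- the exploration inequality for all flowers -/
theorem explore_all (hD : EvenD D) (hn : 0 < n) (hx : 0 < x) {θ : ℝ} (hθ0 : 0 ≤ θ)
    (hθ1 : θ ≤ 1) :
    ∑ ω ∈ Conf D a b, weight n x a ω * (θ ^ Nn (Fam D a b) a ω *
      ((1 - c0 n x * (1 - θ))⁻¹) ^ Mm (Fam D a b) a ω) ≤ Z n x D a b := by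
  have h0 := c0_pos hn hx
  have h0' := c0_lt hn hx
  have hβ0 : 0 < 1 - c0 n x * (1 - θ) := by nlinarith
  have e1 := explore hD (a := a) (b := b) hn hx hθ0 hθ1 rfl hβ0 _ (Fam D a b) rfl
    (fun h hh => (mem_Fam.1 hh).1) Fam_disj (fun _ => 1) (fun _ => zero_le_one) (fun _ _ _ => rfl)
  simp only [mul_one] at e1
  exact e1

theorem Tch_fl {h h' : Vtx} (hh : h ∈ Fam D a b) (hh' : h' ∈ Fam D a b) {ω : Finset Edg}
    (H : Loc h a ω) (hs : On h a ω) : Tch h' a (fl h ω) ↔ Tch h' a ω := by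
  by_cases he : h' = h
  · subst he
    constructor
    · intro _; exact hs.tch
    · intro _
      obtain ⟨f, hf, -, hc⟩ := (On.fi H).1 hs
      exact ⟨src f, hex_sub_flower hf, hc⟩
  · have hd := Fam_disj h hh h' hh' he
    have key : ∀ v ∈ flowerV h', (Conn ω a v ↔ Conn (fl h ω) a v) := by
      intro v hv
      exact conn_iff H (Or.inl hs) H.a_notMem fun h1 =>
        (disjoint_left.1 hd) (hexV_sub_flower h h1) hv
    unfold Tch
    constructor
    · rintro ⟨v, hv, hc⟩
      exact ⟨v, hv, (key v hv).2 hc⟩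
    · rintro ⟨v, hv, hc⟩
      exact ⟨v, hv, (key v hv).1 hc⟩

theorem Mm_fl {h : Vtx} (hh : h ∈ Fam D a b) {ω : Finset Edg} (H : Loc h a ω) (hs : On h a ω) :
    Mm (Fam D a b) a (fl h ω) = Mm (Fam D a b) a ω := by
  classical
  unfold Mm
  congr 1
  ext h'
  simp only [mem_filter]
  exact and_congr_right fun hh' => Tch_fl hh hh' H hs

/-- the length is, up to an exponentially small probability, larger than the minimal length by a
multiple of the length in the interior -/
theorem short_inner (hD : EvenD D) (hn : 0 < n) (hx : 0 < x) (d : ℝ)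
    (hd : ∀ ω ∈ Conf D a b, d ≤ (path a ω).card) :
    ∑ ω ∈ Conf D a b, weight n x a ω * Real.exp (c0 n x * min (x ^ 4) 1 / 748 * inner D a b ω -
      ((path a ω).card - d)) ≤ Z n x D a b := by
  classical
  have h0 := c0_pos hn hx
  have h0' := c0_lt hn hx
  have hx4 : 0 < x ^ 4 := by positivity
  set q := min (x ^ 4) 1 with hq
  have hq0 : 0 < q := lt_min hx4 one_pos
  have hq1 : q ≤ 1 := min_le_right _ _
  have hqx : q ≤ x ^ 4 := min_le_left _ _
  set θ' := 1 - q / 2 with hθ'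
  set θ := 1 - q / (2 * x ^ 4) with hθ
  have e1 : θ' - 1 = x ^ 4 * (θ - 1) := by
    rw [hθ', hθ]
    field_simp
    ring
  have e2 : q / (2 * x ^ 4) ≤ 1 / 2 := by
    rw [div_le_div_iff₀ (by positivity) (by norm_num)]
    linarith
  have hθ2 : 1 / 2 ≤ θ := by rw [hθ]; linarith
  set β := 1 - c0 n x * (1 - θ') with hβ
  have hβy : β = 1 - c0 n x * q / 2 := by rw [hβ, hθ']; ring
  have hβ0 : 0 < β := by rw [hβy]; nlinarith
  have h1 := fi_on (n := n) hD e1 (Fam D a b) Fam_hyp Fam_disj'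
    (fun ω => (β⁻¹) ^ Mm (Fam D a b) a ω) (by
      intro ω hω h hh hs
      obtain ⟨k1, k2, k3⟩ := Fam_hyp h hh
      simp only [Mm_fl hh (Conf.loc hD hω k1 k2 k3) hs])
  simp only [pow_prod] at h1
  have h2 := explore_all (a := a) (b := b) hD hn hx (θ := θ') (by rw [hθ']; linarith)
    (by rw [hθ']; linarith)
  rw [← hβ] at h2
  refine le_trans (sum_le_sum fun ω hω => ?_) (h1.le.trans h2)
  refine mul_le_mul_of_nonneg_left ?_ (weight_pos hn hx a ω).le
  obtain ⟨ω', hω', h3⟩ := shorten hD (Fam D a b) Fam_hyp Fam_disj' ω hω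
  have h4 := hd ω' hω'
  have h5 : ((path a ω').card : ℝ) + 4 * Nf (Fam D a b) a ω = (path a ω).card := by
    exact_mod_cast h3
  have h6 : Real.exp (-((path a ω).card - d)) ≤ θ ^ Nf (Fam D a b) a ω := by
    have h7 : Real.exp (-1) ≤ θ := by
      have h7 := Real.add_one_le_exp (1 : ℝ)
      have h8 : Real.exp (-1) ≤ 1 / 2 := by
        rw [Real.exp_neg, inv_le_comm₀ (Real.exp_pos _) (by norm_num)]
        norm_num
        linarith
      linarith
    calc Real.exp (-((path a ω).card - d)) ≤ Real.exp (Nf (Fam D a b) a ω * (-1)) := by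
          rw [Real.exp_le_exp]
          have : (0 : ℝ) ≤ Nf (Fam D a b) a ω := Nat.cast_nonneg _
          linarith
      _ = Real.exp (-1) ^ Nf (Fam D a b) a ω := by rw [← Real.exp_nat_mul]
      _ ≤ _ := pow_le_pow_left₀ (Real.exp_pos _).le h7 _
  have h7 : Real.exp (c0 n x * q / 748 * inner D a b ω) ≤ (β⁻¹) ^ Mm (Fam D a b) a ω := by
    have h8 := beta_inner (a := a) (b := b) hD hω (y := c0 n x * q / 2) (by positivity)
      (by nlinarith)
    rw [hβy]
    convert h8 using 2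
    ring
  rw [sub_eq_add_neg, Real.exp_add, mul_comm]
  exact mul_le_mul h6 h7 (Real.exp_pos _).le (by positivity)

/-- the same for the maximal length -/
theorem long_inner (hD : EvenD D) (hn : 0 < n) (hx : 0 < x) (d : ℝ)
    (hd : ∀ ω ∈ Conf D a b, ((path a ω).card : ℝ) ≤ d) :
    ∑ ω ∈ Conf D a b, weight n x a ω * Real.exp (c0 n x / 748 * inner D a b ω -
      (d - (path a ω).card)) ≤ Z n x D a b := by
  have h0 := c0_pos hn hx
  have h0' := c0_lt hn hx
  have h2 := explore_all (a := a) (b := b) hD hn hx (θ := 1 / 2) (by norm_num) (by norm_num)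
  refine le_trans (sum_le_sum fun ω hω => ?_) h2
  refine mul_le_mul_of_nonneg_left ?_ (weight_pos hn hx a ω).le
  obtain ⟨ω', hω', h3⟩ := lengthen hD (Fam D a b) Fam_hyp Fam_disj' ω hω
  have h4 := hd ω' hω'
  have h5 : ((path a ω').card : ℝ) = (path a ω).card + 4 * Nn (Fam D a b) a ω := by
    exact_mod_cast h3
  have h6 : Real.exp (-(d - (path a ω).card)) ≤ (1 / 2) ^ Nn (Fam D a b) a ω := by
    have h7 : Real.exp (-1) ≤ 1 / 2 := by
      have h7 := Real.add_one_le_exp (1 : ℝ)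
      rw [Real.exp_neg, inv_le_comm₀ (Real.exp_pos _) (by norm_num)]
      norm_num
      linarith
    calc Real.exp (-(d - (path a ω).card)) ≤ Real.exp (Nn (Fam D a b) a ω * (-1)) := by
          rw [Real.exp_le_exp]
          have : (0 : ℝ) ≤ Nn (Fam D a b) a ω := Nat.cast_nonneg _
          linarith
      _ = Real.exp (-1) ^ Nn (Fam D a b) a ω := by rw [← Real.exp_nat_mul]
      _ ≤ _ := pow_le_pow_left₀ (Real.exp_pos _).le h7 _
  have h7 : Real.exp (c0 n x / 748 * inner D a b ω) ≤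
      ((1 - c0 n x * (1 - 1 / 2))⁻¹) ^ Mm (Fam D a b) a ω := by
    have h8 := beta_inner (a := a) (b := b) hD hω (y := c0 n x / 2) (by positivity)
      (by linarith)
    have e1 : (1 : ℝ) - c0 n x * (1 - 1 / 2) = 1 - c0 n x / 2 := by ring
    rw [e1]
    convert h8 using 2
    ring
  rw [sub_eq_add_neg, Real.exp_add, mul_comm]
  exact mul_le_mul h6 h7 (Real.exp_pos _).le (by positivity)

open Classical in
/-- the length of a path in the interior -/
noncomputable def innerLen (D : Finset Vtx) (a b : Vtx) (γ : Finset Edg) : ℕ :=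
  (γ.filter fun e => DeepV D a b (src e)).card

open Classical in
/-- every path has a probability which is exponentially small in its length in the interior -/
theorem ent_inner (hD : EvenD D) (hn : 0 < n) (hx : 0 < x) (γ : Finset Edg) :
    ∑ ω ∈ Conf D a b, weight n x a ω * (if path a ω = γ then 1 else 0) ≤
      Real.exp (-(c0 n x * (1 - (mui x)⁻¹) / 748 * innerLen D a b γ)) * Z n x D a b := by
  have hmu := one_lt_mui hx
  have h0 := c0_pos hn hx
  have h0' := c0_lt hn hx
  have hmu0 : 0 < mui x := by linarith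
  have hr0 : 0 < (mui x)⁻¹ := inv_pos.2 hmu0
  have hr1 : (mui x)⁻¹ ≤ 1 := inv_le_one_of_one_le₀ hmu.le
  have hw := fun ω => (weight_pos hn hx a ω).le
  have hZ := Z_nonneg hn hx D a b
  have h1 := ent_prod (n := n) hD hn hx γ (Fam D a b) Fam_hyp Fam_disj' (fun _ => 1)
    (fun _ => zero_le_one) (fun _ _ _ _ _ => rfl)
  simp only [mul_one, pow_prod] at h1
  have hAg : ∀ ω, Ag a γ ∅ ω ↔ path a ω = γ := by
    intro ω
    constructor
    · intro hA
      ext e
      exact hA e (by simp)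
    · rintro rfl e _
      exact Iff.rfl
  have hSn : ∀ ω, ((Fam D a b).filter fun h => On h a ω ∨ Fi h a ω).card = Sn (Fam D a b) a ω :=
    fun ω => rfl
  simp only [hAg, hSn] at h1
  have h2 : ∑ ω ∈ Conf D a b, (if Ag a γ (Fam D a b) ω then weight n x a ω else 0) ≤
      Z n x D a b := by
    refine sum_le_sum fun ω _ => ?_
    split_ifs
    · exact le_rfl
    · exact hw ω
  have h3 := h1.trans h2
  set y := c0 n x * (1 - (mui x)⁻¹) with hy
  have hy0 : 0 ≤ y := mul_nonneg h0.le (by linarith)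
  have hy1 : y < 1 := by rw [hy]; nlinarith
  have h4 := explore_all (a := a) (b := b) hD hn hx hr0.le hr1
  rw [← hy] at h4
  have h5 : ∑ ω ∈ Conf D a b, (if path a ω = γ then
      weight n x a ω * ((mui x)⁻¹) ^ Sn (Fam D a b) a ω else 0) ≤
      Real.exp (-(y / 374 * innerLen D a b γ)) * Z n x D a b := by
    refine le_trans (sum_le_sum fun ω hω => ?_) (le_trans (le_of_eq
      (mul_sum (Conf D a b) _ _).symm) (mul_le_mul_of_nonneg_left h4 (Real.exp_pos _).le))
    have hi : 0 < 1 - y := by linarith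
    split_ifs with h6
    · have h7 : inner D a b ω = innerLen D a b γ := by
        unfold inner innerLen
        rw [h6]
      have h8 := beta_inner (a := a) (b := b) hD hω hy0 hy1
      rw [h7] at h8
      have h9 : ((mui x)⁻¹) ^ Sn (Fam D a b) a ω ≤ ((mui x)⁻¹) ^ Nn (Fam D a b) a ω :=
        pow_le_pow_of_le_one hr0.le hr1 (Nn_le_Sn _ a ω)
      have h10 : 1 ≤ Real.exp (-(y / 374 * innerLen D a b γ)) *
          ((1 - y)⁻¹) ^ Mm (Fam D a b) a ω := by
        calc 1 = Real.exp (-(y / 374 * innerLen D a b γ)) *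
              Real.exp (y / 374 * innerLen D a b γ) := by
                rw [← Real.exp_add]; simp
          _ ≤ _ := mul_le_mul_of_nonneg_left h8 (Real.exp_pos _).le
      have h11 : 0 ≤ weight n x a ω * ((mui x)⁻¹) ^ Nn (Fam D a b) a ω :=
        mul_nonneg (hw ω) (by positivity)
      calc weight n x a ω * ((mui x)⁻¹) ^ Sn (Fam D a b) a ω ≤
          weight n x a ω * ((mui x)⁻¹) ^ Nn (Fam D a b) a ω * 1 := by
            rw [mul_one]
            exact mul_le_mul_of_nonneg_left h9 (hw ω)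
        _ ≤ weight n x a ω * ((mui x)⁻¹) ^ Nn (Fam D a b) a ω *
            (Real.exp (-(y / 374 * innerLen D a b γ)) * ((1 - y)⁻¹) ^ Mm (Fam D a b) a ω) :=
            mul_le_mul_of_nonneg_left h10 h11
        _ = _ := by ring
    · have := hw ω
      positivity
  have cs := cauchy (D := D) (a := a) (b := b) hn hx
    (fun ω => (if path a ω = γ then 1 else 0) * Real.sqrt (mui x ^ Sn (Fam D a b) a ω))
    (fun ω => (if path a ω = γ then 1 else 0) *
      Real.sqrt (((mui x)⁻¹) ^ Sn (Fam D a b) a ω))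
  have s1 : ∀ ω, ((if path a ω = γ then 1 else 0) * Real.sqrt (mui x ^ Sn (Fam D a b) a ω)) *
      ((if path a ω = γ then 1 else 0) * Real.sqrt (((mui x)⁻¹) ^ Sn (Fam D a b) a ω)) =
      if path a ω = γ then 1 else 0 := by
    intro ω
    have : Real.sqrt (mui x ^ Sn (Fam D a b) a ω) *
        Real.sqrt (((mui x)⁻¹) ^ Sn (Fam D a b) a ω) = 1 := by
      rw [← Real.sqrt_mul (by positivity), ← mul_pow, mul_inv_cancel₀ hmu0.ne', one_pow,
        Real.sqrt_one]
    split_ifs
    · rw [one_mul, one_mul, this]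
    · ring
  have s2 : ∀ ω, weight n x a ω *
      ((if path a ω = γ then 1 else 0) * Real.sqrt (mui x ^ Sn (Fam D a b) a ω)) ^ 2 =
      if path a ω = γ then weight n x a ω * mui x ^ Sn (Fam D a b) a ω else 0 := by
    intro ω
    rw [mul_pow, Real.sq_sqrt (by positivity)]
    split_ifs
    · ring
    · ring
  have s3 : ∀ ω, weight n x a ω *
      ((if path a ω = γ then 1 else 0) * Real.sqrt (((mui x)⁻¹) ^ Sn (Fam D a b) a ω)) ^ 2 =
      if path a ω = γ then weight n x a ω * ((mui x)⁻¹) ^ Sn (Fam D a b) a ω else 0 := by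
    intro ω
    rw [mul_pow, Real.sq_sqrt (by positivity)]
    split_ifs
    · ring
    · ring
  simp only [s1, s2, s3] at cs
  have hnn : 0 ≤ ∑ ω ∈ Conf D a b, (if path a ω = γ then
      weight n x a ω * ((mui x)⁻¹) ^ Sn (Fam D a b) a ω else 0) :=
    sum_nonneg fun ω _ => by
      have := hw ω
      positivity
  refine abs_le_of_sq_le_sq' ?_ (by positivity) |>.2
  refine cs.trans ?_
  calc _ ≤ Z n x D a b * (Real.exp (-(y / 374 * innerLen D a b γ)) * Z n x D a b) :=
        mul_le_mul h3 h5 hnn hZ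
    _ = _ := by
      rw [mul_pow, ← Real.exp_nat_mul]
      have : -(y / 374 * innerLen D a b γ) =
          ((2 : ℕ) : ℝ) * -(y / 748 * innerLen D a b γ) := by push_cast; ring
      rw [this]
      ring

/-- the exploration inequality and Cauchy's inequality -/
theorem theta_half (hD : EvenD D) (hn : 0 < n) (hx : 0 < x) {r : ℝ} (hr0 : 0 ≤ r) (hr1 : r ≤ 1) :
    (∑ ω ∈ Conf D a b, weight n x a ω * r ^ Nn (Fam D a b) a ω) ^ 2 ≤
      Z n x D a b * ∑ ω ∈ Conf D a b, weight n x a ω *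
        Real.exp (-(c0 n x * (1 - r ^ 2) / 374 * inner D a b ω)) := by
  have h0 := c0_pos hn hx
  have h0' := c0_lt hn hx
  have hr2 : r ^ 2 ≤ 1 := pow_le_one₀ hr0 hr1
  have hr2' : 0 ≤ r ^ 2 := sq_nonneg r
  set y := c0 n x * (1 - r ^ 2) with hy
  have hy0 : 0 ≤ y := mul_nonneg h0.le (by linarith)
  have hy1 : y < 1 := by rw [hy]; nlinarith
  have hi : 0 < 1 - y := by linarith
  have hw := fun ω => (weight_pos hn hx a ω).le
  have hZ := Z_nonneg hn hx D a b
  have e1 := explore_all (a := a) (b := b) hD hn hx hr2' hr2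
  rw [← hy] at e1
  have cs := cauchy (D := D) (a := a) (b := b) hn hx
    (fun ω => Real.sqrt ((r ^ 2) ^ Nn (Fam D a b) a ω * ((1 - y)⁻¹) ^ Mm (Fam D a b) a ω))
    (fun ω => Real.sqrt ((1 - y) ^ Mm (Fam D a b) a ω))
  have s1 : ∀ ω, Real.sqrt ((r ^ 2) ^ Nn (Fam D a b) a ω * ((1 - y)⁻¹) ^ Mm (Fam D a b) a ω) *
      Real.sqrt ((1 - y) ^ Mm (Fam D a b) a ω) = r ^ Nn (Fam D a b) a ω := by
    intro ω
    rw [← Real.sqrt_mul (by positivity), mul_assoc, ← mul_pow, inv_mul_cancel₀ hi.ne',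
      one_pow, mul_one, ← pow_mul, mul_comm 2, pow_mul, Real.sqrt_sq (by positivity)]
  have s2 : ∀ ω, Real.sqrt ((r ^ 2) ^ Nn (Fam D a b) a ω *
      ((1 - y)⁻¹) ^ Mm (Fam D a b) a ω) ^ 2 =
      (r ^ 2) ^ Nn (Fam D a b) a ω * ((1 - y)⁻¹) ^ Mm (Fam D a b) a ω := fun ω =>
    Real.sq_sqrt (by positivity)
  have s3 : ∀ ω, Real.sqrt ((1 - y) ^ Mm (Fam D a b) a ω) ^ 2 = (1 - y) ^ Mm (Fam D a b) a ω :=
    fun ω => Real.sq_sqrt (by positivity)
  simp only [s1, s2, s3] at cs
  have hnn : 0 ≤ ∑ ω ∈ Conf D a b, weight n x a ω * (1 - y) ^ Mm (Fam D a b) a ω :=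
    sum_nonneg fun ω _ => mul_nonneg (hw ω) (by positivity)
  refine cs.trans ((mul_le_mul_of_nonneg_right e1 hnn).trans ?_)
  refine mul_le_mul_of_nonneg_left (sum_le_sum fun ω hω => ?_) hZ
  refine mul_le_mul_of_nonneg_left ?_ (hw ω)
  have h8 := beta_inner (a := a) (b := b) hD hω hy0 hy1
  have h9 := inv_anti₀ (Real.exp_pos _) h8
  rw [← Real.exp_neg, inv_pow, inv_inv] at h9
  exact h9

theorem cos_inner (hD : EvenD D) (hn : 0 < n) (hx : 0 < x) (t φ : ℝ)
    (F : Finset Edg → ℝ) (hF : ∀ ω ∈ Conf D a b, ∀ h ∈ Fam D a b, On h a ω → F (fl h ω) = F ω)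
    (hF1 : ∀ ω, |F ω| ≤ 1) :
    (∑ ω ∈ Conf D a b, weight n x a ω * (F ω * Real.cos (t * (path a ω).card + φ))) ^ 2 ≤
      Z n x D a b * ∑ ω ∈ Conf D a b, weight n x a ω * Real.exp
        (-(4 * c0 n x * x ^ 4 / (374 * (1 + x ^ 4) ^ 2) * inner D a b ω *
          Real.sin (2 * t) ^ 2)) := by
  have h0 := cos_le (n := n) hD hn hx t φ F hF hF1
  have h1 := theta_half (a := a) (b := b) hD hn hx (rho_nonneg hx t) (rho_le hx t)
  have h2 : (∑ ω ∈ Conf D a b, weight n x a ω *
      (F ω * Real.cos (t * (path a ω).card + φ))) ^ 2 ≤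
      (∑ ω ∈ Conf D a b, weight n x a ω * rho x t ^ Nn (Fam D a b) a ω) ^ 2 := by
    rw [← sq_abs]
    exact pow_le_pow_left₀ (abs_nonneg _) h0 2
  refine h2.trans (h1.trans (le_of_eq ?_))
  congr 1
  refine sum_congr rfl fun ω _ => ?_
  rw [rho_sq hx t]
  congr 3
  field_simp
  ring

/-- the length in the interior is at least a multiple of the number of the cuts -/
theorem inner_cuts (hD : EvenD D) (hn : 0 < n) (hx : 0 < x) {m : ℕ} {s s' : ℤ → ℤ}
    (K : Finset ℤ) (hc : ∀ k ∈ K, CutAt D a b m k (s k) (s' k)) {lam : ℝ} (hl : 0 ≤ lam) :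
    ∑ ω ∈ Conf D a b, weight n x a ω * Real.exp (-(lam * inner D a b ω)) ≤
      Real.exp (-(c1 n x m * (1 - Real.exp (-lam)) * K.card)) * Z n x D a b := by
  have hZ := Z_nonneg hn hx D a b
  have h1 := c1_pos hn hx m
  have h1' := c1_le hn hx m
  have he0 : 0 < Real.exp (-lam) := Real.exp_pos _
  have he1 : Real.exp (-lam) ≤ 1 := Real.exp_le_one_iff.2 (by linarith)
  have h2 := good_prod hD hn hx he0.le he1 K hc
  refine le_trans (sum_le_sum fun ω hω => ?_) (h2.trans (mul_le_mul_of_nonneg_right ?_ hZ))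
  · refine mul_le_mul_of_nonneg_left ?_ (weight_pos hn hx a ω).le
    rw [← Real.exp_nat_mul, Real.exp_le_exp]
    have h3 : (Gn D a b K s s' ω : ℝ) ≤ inner D a b ω := by
      exact_mod_cast Gn_le_inner hc hω
    nlinarith
  · have t1 : 1 - c1 n x m * (1 - Real.exp (-lam)) ≤
        Real.exp (-(c1 n x m * (1 - Real.exp (-lam)))) := by
      have := Real.add_one_le_exp (-(c1 n x m * (1 - Real.exp (-lam))))
      linarith
    have t0 : 0 ≤ 1 - c1 n x m * (1 - Real.exp (-lam)) := by nlinarith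
    refine (pow_le_pow_left₀ t0 t1 K.card).trans (le_of_eq ?_)
    rw [← Real.exp_nat_mul]
    congr 1
    ring

end

end Pool.Agent.V7H81.ON
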